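import Pool.Agent.Lib.SO4.Defs
import Pool.Agent.Lib.helper98.Prod

/-! Exponential decay below the critical value of oriented percolation. -/

namespace Pool.Agent.Lib.SO4

open Set MeasureTheory Filter Topology Pool.Agent.Lib.helper98
open scoped ENNReal

/-- sites -/
abbrev W : Type := Fin 2 → ℤ

/-- one oriented step -/
def st (x : W) (i : Fin 2) : W := x + Pi.single i 1

/-- the level of a site -/
def lev (x : W) : ℤ := x 0 + x 1

lemma lev_st (x : W) (i : Fin 2) : lev (st x i) = lev x + 1 := by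
  fin_cases i <;> simp [lev, st] <;> ring

lemma le_st (x : W) (i : Fin 2) : x ≤ st x i := by
  intro j
  fin_cases i <;> fin_cases j <;> simp [st]

lemma lev_mono {x y : W} (h : x ≤ y) : lev x ≤ lev y := add_le_add (h 0) (h 1)

/-- oriented open connection inside `R` -/
inductive OC (ω : W × Fin 2 → Prop) (R : Set W) : W → W → Prop
  | refl {u : W} : u ∈ R → OC ω R u u
  | head {u v : W} {i : Fin 2} : u ∈ R → ω (u, i) → OC ω R (st u i) v → OC ω R u v

variable {ω ω' : W × Fin 2 → Prop} {R S : Set W} {u v w : W} {p : ℝ}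

lemma OC.left_mem (h : OC ω R u v) : u ∈ R := by
  cases h with
  | refl h => exact h
  | head h _ _ => exact h

lemma OC.le (h : OC ω R u v) : u ≤ v := by
  induction h with
  | refl _ => exact le_rfl
  | head _ _ _ ih => exact (le_st _ _).trans ih

lemma OC.trans (h : OC ω R u v) (h' : OC ω R v w) : OC ω R u w := by
  induction h with
  | refl _ => exact h'
  | head h1 h2 _ ih => exact OC.head h1 h2 (ih h')

lemma OC.imp (h : OC ω R u v) (hR : R ⊆ S)
    (hω : ∀ a i, u ≤ a → lev a < lev v → a ∈ R → st a i ∈ R → ω (a, i) → ω' (a, i)) :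
    OC ω' S u v := by
  induction h with
  | refl h => exact OC.refl (hR h)
  | @head u v i h1 h2 h3 ih =>
    have := lev_mono h3.le
    rw [lev_st] at this
    exact OC.head (hR h1) (hω u i le_rfl (by omega) h1 h3.left_mem h2)
      (ih fun a j ha => hω a j ((le_st _ _).trans ha))

lemma OC.cut (h : OC ω R u v) {k : ℤ} (h1 : lev u ≤ k) (h2 : k ≤ lev v) :
    ∃ w, lev w = k ∧ OC ω R u w := by
  induction h with
  | @refl u h => exact ⟨u, le_antisymm h1 h2, OC.refl h⟩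
  | @head u v i k1 k2 _ ih =>
    rcases h1.eq_or_lt with h | h
    · exact ⟨u, h, OC.refl k1⟩
    · obtain ⟨w, e, hw⟩ := ih (by rw [lev_st]; omega) h2
      exact ⟨w, e, OC.head k1 k2 hw⟩

lemma OC.exit (h : OC ω univ u v) (hu : u ∈ S) (hv : v ∉ S) :
    ∃ b i, b ∈ S ∧ OC ω S u b ∧ st b i ∉ S ∧ OC ω univ (st b i) v := by
  induction h with
  | refl _ => exact (hv hu).elim
  | @head u v i _ k2 k3 ih =>
    by_cases h : st u i ∈ S
    · obtain ⟨b, j, a0, a1, a2, a3⟩ := ih h hv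
      exact ⟨b, j, a0, OC.head hu k2 a1, a2, a3⟩
    · exact ⟨u, i, hu, OC.refl hu, h, k3⟩

lemma OC.shift (h : OC ω univ u v) (t : W) :
    OC (fun q => ω (q.1 + t, q.2)) univ (u - t) (v - t) := by
  induction h with
  | refl _ => exact OC.refl (mem_univ _)
  | @head u v i _ k2 _ ih =>
    refine OC.head (i := i) (mem_univ _) (by simpa using k2) ?_
    have : st (u - t) i = st u i - t := by unfold st; abel
    rwa [this]

/-- the site reaches the level `k` -/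
def Rch (x : W) (k : ℤ) : Set (W × Fin 2 → Prop) := {ω | ∃ y, lev y = k ∧ OC ω univ x y}

/-- bonds above `x` and below the level `k` -/
def Dn (x : W) (k : ℤ) : Set (W × Fin 2) := {q | x ≤ q.1 ∧ lev q.1 < k}

lemma tri_finite (x : W) (k : ℤ) : {z : W | x ≤ z ∧ lev z ≤ k}.Finite := by
  refine (Set.finite_Icc x (fun i => k - lev x + x i)).subset ?_
  rintro z ⟨h1, h2⟩
  refine ⟨h1, fun i => ?_⟩
  have a0 : x 0 ≤ z 0 := h1 0
  have a1 : x 1 ≤ z 1 := h1 1
  unfold lev at *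
  fin_cases i
  · simp only [Fin.zero_eta]; omega
  · simp only [Fin.mk_one]; omega

lemma Dn_finite (x : W) (k : ℤ) : (Dn x k).Finite :=
  ((tri_finite x k).prod (finite_univ (α := Fin 2))).subset fun _ h => ⟨⟨h.1, h.2.le⟩, mem_univ _⟩

lemma dep_Rch (x : W) (k : ℤ) : Dep (Dn x k) (Rch x k) := by
  rintro ω ω' h ⟨y, rfl, hy⟩
  exact ⟨y, rfl, hy.imp subset_rfl fun a i h1 h2 _ _ h3 => (h _ ⟨h1, h2⟩).mp h3⟩

lemma incr_Rch (x : W) (k : ℤ) : Incr (Rch x k) := by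
  rintro ω ω' h ⟨y, e, hy⟩
  exact ⟨y, e, hy.imp subset_rfl fun a i _ _ _ _ h3 => h _ h3⟩

lemma meas_Rch (x : W) (k : ℤ) : MeasurableSet (Rch x k) :=
  (dep_Rch x k).measurableSet (Dn_finite x k)

lemma Rch_anti {x : W} {k l : ℤ} (h1 : lev x ≤ k) (h2 : k ≤ l) : Rch x l ⊆ Rch x k := by
  rintro ω ⟨y, rfl, hy⟩
  exact hy.cut h1 h2

/-- the one-arm probability -/
noncomputable def th (p : ℝ) (n : ℕ) : ℝ := pr p (Rch 0 n)

lemma lev_zero : lev 0 = 0 := by simp [lev]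

lemma pr_Rch_le (x : W) (n : ℕ) : pr p (Rch x (lev x + n)) ≤ th p n := by
  have hf : Function.Injective fun q : W × Fin 2 => (q.1 + x, q.2) := fun a b h => by
    simp only [Prod.mk.injEq, add_left_inj] at h
    exact Prod.ext h.1 h.2
  rw [th, ← pr_preimage_inj hf (meas_Rch 0 n)]
  refine pr_mono ?_
  rintro ω ⟨y, e, hy⟩
  have := hy.shift x
  rw [sub_self] at this
  refine ⟨y - x, ?_, this⟩
  unfold lev at *
  simp only [Pi.sub_apply]
  omega

lemma th_anti {n m : ℕ} (h : n ≤ m) : th p m ≤ th p n :=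
  pr_mono (Rch_anti (by rw [lev_zero]; positivity) (by exact_mod_cast h))

open Classical in
/-- exits of a finite set -/
noncomputable def bd (S : Finset W) : Finset (W × Fin 2) :=
  (S ×ˢ Finset.univ).filter fun q => st q.1 q.2 ∉ S

lemma mem_bd {S : Finset W} {q : W × Fin 2} : q ∈ bd S ↔ q.1 ∈ S ∧ st q.1 q.2 ∉ S := by
  simp [bd]

/-- bonds inside a set, below a level -/
def Ed (S : Set W) (k : ℤ) : Set (W × Fin 2) := {q | q.1 ∈ S ∧ st q.1 q.2 ∈ S ∧ lev q.1 < k}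

lemma Ed_finite (S : Finset W) (k : ℤ) : (Ed S k).Finite :=
  (S.finite_toSet.prod (finite_univ (α := Fin 2))).subset fun _ h => ⟨h.1, mem_univ _⟩

lemma dep_OC (S : Set W) (u v : W) : Dep (Ed S (lev v)) {ω | OC ω S u v} :=
  fun _ _ h k => OC.imp k subset_rfl fun _ _ _ h2 h3 h4 h5 => (h _ ⟨h3, h4, h2⟩).mp h5

lemma incr_OC (S : Set W) (u v : W) : Incr {ω | OC ω S u v} :=
  fun _ _ h k => OC.imp k subset_rfl fun _ _ _ _ _ _ h5 => h _ h5

/-- expected number of exits reached -/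
noncomputable def ψ (p : ℝ) (S : Finset W) : ℝ := ∑ q ∈ bd S, pr p {ω | OC ω S 0 q.1}

lemma ψ_nonneg (p : ℝ) (S : Finset W) : 0 ≤ ψ p S := Finset.sum_nonneg fun _ _ => pr_nonneg _ _

lemma th_step {S : Finset W} (h0 : (0 : W) ∈ S) {L : ℕ} (hS : ∀ z ∈ S, lev z < L) (n : ℕ) :
    th p (n + L) ≤ ψ p S * th p n := by
  have step1 : th p (n + L) ≤ ∑ q ∈ bd S,
      pr p ({ω | OC ω S 0 q.1} ∩ Rch (st q.1 q.2) (lev (st q.1 q.2) + n)) := by
    refine pr_le_sum _ _ ?_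
    rintro ω ⟨y, e, hy⟩
    have hyS : y ∉ (S : Set W) := fun h => by
      have := hS y h
      push_cast at e
      omega
    obtain ⟨b, i, a0, a1, a2, a3⟩ := hy.exit (S := S) h0 hyS
    refine ⟨(b, i), mem_bd.2 ⟨a0, a2⟩, a1, ?_⟩
    have := hS b a0
    show ω ∈ Rch (st b i) (lev (st b i) + n)
    refine a3.cut (by omega) ?_
    rw [lev_st]
    push_cast at e
    omega
  refine step1.trans ?_
  rw [ψ, Finset.sum_mul]
  refine Finset.sum_le_sum fun q _ => ?_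
  rw [pr_inter_of_disjoint (dep_OC _ _ _) (dep_Rch _ _) (Ed_finite _ _) (Dn_finite _ _)]
  · exact mul_le_mul_of_nonneg_left (pr_Rch_le _ n) (pr_nonneg _ _)
  · rw [Set.disjoint_left]
    rintro m ⟨-, -, h1⟩ ⟨h2, -⟩
    have := lev_mono h2
    rw [lev_st] at this
    omega

lemma th_pow {S : Finset W} (h0 : (0 : W) ∈ S) {L : ℕ} (hS : ∀ z ∈ S, lev z < L) (k : ℕ) :
    th p (k * L) ≤ ψ p S ^ k := by
  induction k with
  | zero => rw [pow_zero]; exact pr_le_one p _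
  | succ k ih =>
    rw [pow_succ', Nat.succ_mul]
    exact (th_step h0 hS _).trans (mul_le_mul_of_nonneg_left ih (ψ_nonneg p S))

open Classical in
/-- sites that do not reach the level `n` -/
noncomputable def iso (n : ℤ) (ω : W × Fin 2 → Prop) : Finset W :=
  (tri_finite 0 n).toFinset.filter fun z => ω ∉ Rch z n

lemma mem_iso {n : ℤ} {z : W} : z ∈ iso n ω ↔ (0 ≤ z ∧ lev z ≤ n) ∧ ω ∉ Rch z n := by
  simp [iso]

lemma dep_iso (n : ℤ) (S : Finset W) : Dep (Dn 0 n \ Ed S n) {ω | iso n ω = S} := by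
  intro ω ω' h hS
  rw [mem_ofPred_eq] at hS ⊢
  subst hS
  have k1 : ∀ z y, OC ω univ z y → 0 ≤ z → lev y = n → OC ω' univ z y := by
    intro z y k
    induction k with
    | refl k => exact fun _ _ => OC.refl k
    | @head u v i a1 a2 a3 ih =>
      intro h0 e
      have hl := lev_mono a3.le
      rw [lev_st] at hl
      refine OC.head a1 ((h (u, i) ⟨⟨h0, by show lev u < n; omega⟩, fun hE => ?_⟩).mp a2)
        (ih (h0.trans (le_st _ _)) e)
      exact (mem_iso.1 hE.1).2 ⟨v, e, OC.head a1 a2 a3⟩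
  have k2 : ∀ z y, OC ω' univ z y → 0 ≤ z → lev y = n → ω ∈ Rch z n := by
    intro z y k
    induction k with
    | @refl u k => exact fun _ e => ⟨u, e, OC.refl k⟩
    | @head u v i a1 a2 a3 ih =>
      intro h0 e
      have hl := lev_mono a3.le
      rw [lev_st] at hl
      have b := ih (h0.trans (le_st _ _)) e
      have c := (h (u, i) ⟨⟨h0, by show lev u < n; omega⟩, fun hE => (mem_iso.1 hE.2.1).2 b⟩).mpr a2
      obtain ⟨y', e', b'⟩ := b
      exact ⟨y', e', OC.head a1 c b'⟩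
  ext z
  rw [mem_iso, mem_iso]
  refine and_congr_right fun hz => not_congr ⟨?_, ?_⟩
  · rintro ⟨y, e, k⟩
    exact k2 z y k hz.1 e
  · rintro ⟨y, e, k⟩
    exact ⟨y, e, k1 z y k hz.1 e⟩

lemma sum_piv_ge (n : ℕ) (hψ : ∀ S : Finset W, (0 : W) ∈ S → 1 ≤ ψ p S) :
    1 - th p n ≤ ∑ e ∈ (Dn_finite 0 n).toFinset, pr p (Piv {e} (Rch 0 n)) := by
  classical
  set EF := (Dn_finite 0 n).toFinset with hEF
  set T := (tri_finite (0 : W) ((n : ℤ) - 1)).toFinset.powerset.filter fun S => (0 : W) ∈ S with hT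
  have hfin := Dn_finite (0 : W) n
  have mI : ∀ S : Finset W, MeasurableSet {ω | iso n ω = S} := fun S =>
    (dep_iso n S).measurableSet hfin.sdiff
  have s1 : ∀ e, ∑ S ∈ T, pr p (Piv {e} (Rch 0 n) ∩ {ω | iso n ω = S}) ≤
      pr p (Piv {e} (Rch 0 n)) := by
    intro e
    refine sum_pr_le _ _ (fun S _ => (((dep_Rch _ _).piv _).measurableSet hfin).inter (mI S))
      ?_ fun S _ => inter_subset_left
    intro C _ D _ hCD
    exact Set.disjoint_left.mpr fun ω h1 h2 => hCD (h1.2.symm.trans h2.2)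
  refine le_trans ?_ (Finset.sum_le_sum fun e _ => s1 e)
  rw [Finset.sum_comm]
  have s2 : 1 - th p n ≤ ∑ S ∈ T, pr p {ω | iso n ω = S} := by
    rw [th, ← pr_compl (meas_Rch _ _)]
    refine pr_le_sum _ _ fun ω hω => ⟨iso n ω, ?_, rfl⟩
    rw [hT, Finset.mem_filter, Finset.mem_powerset]
    refine ⟨fun z hz => ?_, mem_iso.mpr ⟨⟨le_rfl, by rw [lev_zero]; positivity⟩, hω⟩⟩
    obtain ⟨⟨a1, a2⟩, a3⟩ := mem_iso.1 hz
    rw [Finite.mem_toFinset]
    refine ⟨a1, ?_⟩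
    by_contra hc
    exact a3 ⟨z, by omega, OC.refl (mem_univ _)⟩
  refine s2.trans (Finset.sum_le_sum fun S hS => ?_)
  rw [hT, Finset.mem_filter, Finset.mem_powerset] at hS
  have hSb : ∀ z ∈ S, 0 ≤ z ∧ lev z ≤ (n : ℤ) - 1 := fun z hz => by simpa using hS.1 hz
  have s3 : ∑ q ∈ bd S, pr p (Piv {q} (Rch 0 n) ∩ {ω | iso n ω = S}) ≤
      ∑ e ∈ EF, pr p (Piv {e} (Rch 0 n) ∩ {ω | iso n ω = S}) := by
    refine Finset.sum_le_sum_of_subset_of_nonneg ?_ fun _ _ _ => pr_nonneg _ _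
    intro q hq
    rw [hEF, Finite.mem_toFinset]
    have := hSb _ (mem_bd.1 hq).1
    exact ⟨this.1, by omega⟩
  refine le_trans ?_ s3
  refine (le_mul_of_one_le_left (pr_nonneg _ _) (hψ S hS.2)).trans ?_
  rw [ψ, Finset.sum_mul]
  refine Finset.sum_le_sum fun q hq => ?_
  rw [mem_bd] at hq
  have hb := hSb _ hq.1
  rw [← pr_inter_of_disjoint (dep_OC _ _ _) (dep_iso n S) (Ed_finite _ _) hfin.sdiff
    (Set.disjoint_left.2 fun m h1 h2 => h2.2 ⟨h1.1, h1.2.1, h2.1.2⟩)]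
  refine pr_mono ?_
  rintro ω ⟨k, hI⟩
  refine ⟨⟨?_, ?_⟩, hI⟩
  · have h3 : st q.1 q.2 ∉ iso n ω := by rw [hI]; exact hq.2
    rw [mem_iso, not_and, not_not] at h3
    obtain ⟨y', e', k'⟩ := h3 ⟨hb.1.trans (le_st _ _), by rw [lev_st]; omega⟩
    refine ⟨y', e', OC.trans (OC.imp k (subset_univ _) fun _ _ _ _ _ _ => le_ovr_true _ _ _) ?_⟩
    refine OC.head (i := q.2) (mem_univ _) ?_
      (k'.imp subset_rfl fun _ _ _ _ _ _ => le_ovr_true _ _ _)
    rw [ovr_of_mem (mem_singleton _)]; trivial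
  · intro h
    have h0 : (0 : W) ∈ iso n ω := by rw [hI]; exact hS.2
    exact (mem_iso.mp h0).2 (incr_Rch _ _ _ _ (ovr_false_le _ _) h)

lemma th_mono_param {q : ℝ} (hp0 : 0 ≤ p) (hpq : p ≤ q) (hq : q ≤ 1) (n : ℕ) : th p n ≤ th q n :=
  pr_mono_param hp0 hpq hq (Dn_finite _ _) (dep_Rch _ _) (incr_Rch _ _)

lemma th_lower {q : ℝ} (hp0 : 0 < p) (hpq : p < q) (hq : q < 1)
    (hψ : ∀ S : Finset W, (0 : W) ∈ S → 1 ≤ ψ p S) (n : ℕ) : (q - p) / 2 ≤ th q n := by
  have hd : ∀ s ∈ Icc p q, HasDerivAt (fun s => th s n)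
      (∑ e ∈ (Dn_finite 0 n).toFinset, pr s (Piv {e} (Rch 0 n))) s := fun s hs =>
    russo (hp0.trans_le hs.1) (hs.2.trans_lt hq) _ (by simpa using dep_Rch _ _) (incr_Rch _ _)
  obtain ⟨c, hc, h⟩ := exists_hasDerivAt_eq_slope (fun s => th s n) _ hpq
    (fun s hs => (hd s hs).continuousAt.continuousWithinAt) fun s hs => hd s (Ioo_subset_Icc_self hs)
  have h1 := sum_piv_ge (p := c) n fun S hS => (hψ S hS).trans (Finset.sum_le_sum fun r _ =>
    pr_mono_param hp0.le hc.1.le (hc.2.trans hq).le (Ed_finite S _) (dep_OC _ _ _) (incr_OC _ _ _))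
  rw [h, le_div_iff₀ (by linarith)] at h1
  have h2 := th_mono_param (hp0.trans hc.1).le hc.2.le hq.le n
  have h3 : 0 ≤ th p n := pr_nonneg _ _
  have h4 : 0 ≤ th q n := pr_nonneg _ _
  nlinarith

lemma good_step (h : ∀ n : ℕ, ω ∈ Rch u (lev u + n)) :
    ∃ i, ω (u, i) ∧ ∀ n : ℕ, ω ∈ Rch (st u i) (lev (st u i) + n) := by
  by_contra hc
  push Not at hc
  have key : ∀ i, ∃ n : ℕ, ω (u, i) → ω ∉ Rch (st u i) (lev (st u i) + n) := fun i => by
    by_cases h1 : ω (u, i)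
    · obtain ⟨n, hn⟩ := hc i h1
      exact ⟨n, fun _ => hn⟩
    · exact ⟨0, fun h2 => (h1 h2).elim⟩
  choose n hn using key
  obtain ⟨y, e, k⟩ := h (n 0 + n 1 + 1)
  cases k with
  | refl _ => omega
  | @head _ _ i _ a2 a3 =>
    refine hn i a2 (a3.cut (by omega) ?_)
    have : n i ≤ n 0 + n 1 := by fin_cases i <;> simp
    rw [lev_st]
    omega

lemma koenig (h : ∀ n : ℕ, ω ∈ Rch 0 n) : ∃ (f : ℕ → W) (i : ℕ → Fin 2), f 0 = 0 ∧
    ∀ n, ω (f n, i n) ∧ f (n + 1) = f n + Pi.single (i n) 1 := by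
  let X := {u : W // ∀ n : ℕ, ω ∈ Rch u (lev u + n)}
  choose j hj using fun x : X => good_step x.2
  let x0 : X := ⟨0, fun n => by simpa [lev_zero] using h n⟩
  let g : X → X := fun x => ⟨st x.1 (j x), (hj x).2⟩
  refine ⟨fun n => (g^[n] x0).1, fun n => j (g^[n] x0), rfl, fun n => ⟨(hj _).1, ?_⟩⟩
  beta_reduce
  rw [Function.iterate_succ_apply']
  rfl

lemma perc_pos {q c : ℝ} (hc : 0 < c) (h : ∀ n, c ≤ th q n) : 0 < orientedPerc q := by
  have anti : Antitone fun n : ℕ => Rch 0 (n : ℤ) := fun n m hnm =>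
    Rch_anti (by rw [lev_zero]; positivity) (by exact_mod_cast hnm)
  have e := anti.measure_iInter (μ := PP (W × Fin 2) q) (fun n => (meas_Rch _ _).nullMeasurableSet)
    ⟨0, measure_ne_top _ _⟩
  have h1 : ENNReal.ofReal c ≤ PP (W × Fin 2) q (⋂ n : ℕ, Rch 0 (n : ℤ)) := by
    rw [e]
    exact le_iInf fun n => (ENNReal.ofReal_le_iff_le_toReal (measure_ne_top _ _)).2 (h n)
  refine ((ENNReal.ofReal_pos.2 hc).trans_le h1).trans_le (measure_mono fun ω hω => ?_)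
  exact koenig (mem_iInter.1 hω)

theorem decay {q : ℝ} (h0 : 0 ≤ q) (h1 : q < orientedCrit) :
    ∃ (r : ℝ) (L : ℕ), 0 ≤ r ∧ r < 1 ∧ 0 < L ∧ ∀ n : ℕ, th q n ≤ r ^ (n / L) := by
  have hb : BddBelow {q | q ∈ Set.Icc (0 : ℝ) 1 ∧ 0 < orientedPerc q} := ⟨0, fun _ h => h.1.1⟩
  have hc : orientedCrit ≤ 1 := by
    rcases {q | q ∈ Set.Icc (0 : ℝ) 1 ∧ 0 < orientedPerc q}.eq_empty_or_nonempty with h | ⟨s, hs⟩
    · rw [orientedCrit, h, Real.sInf_empty]; exact zero_le_one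
    · exact (csInf_le hb hs).trans hs.1.2
  set q₁ := (q + orientedCrit) / 2 with hq₁
  set q₂ := (q₁ + orientedCrit) / 2 with hq₂
  have a0 : 0 < q₁ := by linarith
  have a1 : q₁ < q₂ := by linarith
  have a2 : q₂ < orientedCrit := by linarith
  by_cases hψ : ∀ S : Finset W, (0 : W) ∈ S → 1 ≤ ψ q₁ S
  · have := perc_pos (c := (q₂ - q₁) / 2) (by linarith) (th_lower a0 a1 (by linarith) hψ)
    exact absurd (csInf_le hb ⟨⟨by linarith, by linarith⟩, this⟩) (not_le.2 a2)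
  · push Not at hψ
    obtain ⟨S, hS0, hS⟩ := hψ
    obtain ⟨B, hB⟩ := (S.finite_toSet.image lev).bddAbove
    refine ⟨ψ q₁ S, B.toNat + 1, ψ_nonneg _ _, hS, Nat.succ_pos _, fun n => ?_⟩
    refine (th_mono_param h0 (by linarith : q ≤ q₁) (by linarith) n).trans ?_
    refine (th_anti (Nat.div_mul_le_self n _)).trans (th_pow hS0 (fun z hz => ?_) _)
    have := hB ⟨z, hz, rfl⟩
    push_cast
    omega

end Pool.Agent.Lib.SO4
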