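import Pool.Agent.Lib.SO4.Blue
import Pool.Agent.Lib.SO4.Sharp
import Pool.Agent.Lib.SBW.Pei90

/-! Straight light paths are rare below the oriented threshold. -/

namespace Pool.Agent.Lib.SO4

open MeasureTheory ProbabilityTheory Finset Pool.Agent.Lib.FP95
open Pool.Agent.Lib.MP_eba68f_pr hiding Nice
open scoped NNReal ENNReal

namespace BRIDGE

lemma map_idx (p : Par) (hi : ℝ≥0) {ι : Type} {f : ι → Sym2 V} (hf : Function.Injective f) :
    p.P.map (fun τ m => τ (f m) ≤ hi) = helper98.PP ι (p.F.real (Set.Iic hi)) := by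
  have := p.prob
  have h1 : p.P.map (fun τ m => τ (f m)) = Measure.infinitePi fun _ : ι => p.F :=
    Measure.map_infinitePi_infinitePi_of_inj hf
  have h2 : (Measure.infinitePi fun _ : ι => p.F).map (fun σ m => σ m ≤ hi) =
      helper98.PP ι (p.F.real (Set.Iic hi)) := by
    rw [Measure.infinitePi_map_pi _ (f := fun _ (t : ℝ≥0) => t ≤ hi)
      fun _ => SBW.Pei90.meas_le hi, helper98.PP]
    congr 1
    funext _
    exact SBW.Pei90.map_le p hi
  have h3 : Measurable fun (σ : ι → ℝ≥0) (m : ι) => σ m ≤ hi :=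
    measurable_pi_iff.2 fun m => (SBW.Pei90.meas_le hi).comp (measurable_pi_apply m)
  rw [← h2, ← h1, Measure.map_map h3 (by fun_prop)]
  rfl

/-- the quadrant with corner `y` and signs `a`, `b` -/
def emb (y : V) (a b : ℤ) (x : V) : V := pt (y 0 + a * x 0) (y 1 + b * x 1)

/-- coordinates in the quadrant -/
def inv (y : V) (a b : ℤ) (z : V) : V := pt (a * (z 0 - y 0)) (b * (z 1 - y 1))

/-- the lattice edge of an oriented bond -/
def ed (y : V) (a b : ℤ) (q : V × Fin 2) : Sym2 V := s(emb y a b q.1, emb y a b (st q.1 q.2))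

lemma st00 (x : V) : st x 0 0 = x 0 + 1 := by simp [st]
lemma st01 (x : V) : st x 0 1 = x 1 := by simp [st]
lemma st10 (x : V) : st x 1 0 = x 0 := by simp [st]
lemma st11 (x : V) : st x 1 1 = x 1 + 1 := by simp [st]

lemma two (i : Fin 2) : i = 0 ∨ i = 1 := by fin_cases i <;> simp

variable {y : V} {a b : ℤ}

lemma ed_inj (ha : a = 1 ∨ a = -1) (hb : b = 1 ∨ b = -1) : Function.Injective (ed y a b) := by
  rintro ⟨x, i⟩ ⟨x', i'⟩ h
  rw [ed, ed, Sym2.eq_iff] at h
  rw [Prod.mk.injEq, vext_iff]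
  rcases two i with rfl | rfl <;> rcases two i' with rfl | rfl <;>
    simp only [emb, vext_iff, pt_zero, pt_one, st00, st01, st10, st11] at h <;>
    rcases ha with rfl | rfl <;> rcases hb with rfl | rfl <;>
    first
      | exact ⟨by omega, rfl⟩
      | exact absurd h (by omega)

lemma emb_inv (ha : a = 1 ∨ a = -1) (hb : b = 1 ∨ b = -1) (z : V) :
    emb y a b (inv y a b z) = z := by
  rw [vext_iff]
  simp only [emb, inv, pt_zero, pt_one]
  rcases ha with rfl | rfl <;> rcases hb with rfl | rfl <;> omega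

lemma lev_le (ha : a = 1 ∨ a = -1) (hb : b = 1 ∨ b = -1) {u v : V} (h : G.Adj u v) :
    lev (inv y a b v) ≤ lev (inv y a b u) + 1 := by
  rw [adj_iff] at h
  simp only [lev, inv, pt_zero, pt_one]
  rcases ha with rfl | rfl <;> rcases hb with rfl | rfl <;> omega

lemma step (ha : a = 1 ∨ a = -1) (hb : b = 1 ∨ b = -1) {u v : V} (h : G.Adj u v)
    (hl : lev (inv y a b u) + 1 ≤ lev (inv y a b v)) : ∃ i, inv y a b v = st (inv y a b u) i := by
  rw [adj_iff] at h
  simp only [lev, inv, pt_zero, pt_one] at hl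
  by_cases h1 : v 1 = u 1
  · refine ⟨0, ?_⟩
    rw [vext_iff, st00, st01]
    simp only [inv, pt_zero, pt_one]
    rcases ha with rfl | rfl <;> rcases hb with rfl | rfl <;> omega
  · refine ⟨1, ?_⟩
    rw [vext_iff, st10, st11]
    simp only [inv, pt_zero, pt_one]
    rcases ha with rfl | rfl <;> rcases hb with rfl | rfl <;> omega

lemma reach (ha : a = 1 ∨ a = -1) (hb : b = 1 ∨ b = -1) {hi : ℝ≥0} {τ : Cfg} {k : ℕ} {g : ℕ → V}
    (h0 : g 0 = y) (h1 : ∀ j, j < k → G.Adj (g j) (g (j + 1)) ∧ τ s(g j, g (j + 1)) ≤ hi)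
    (h2 : (k : ℤ) ≤ lev (inv y a b (g k))) :
    (fun m => τ (ed y a b m) ≤ hi) ∈ Rch 0 (k : ℤ) := by
  have z0 : inv y a b (g 0) = 0 := by
    rw [h0, vext_iff]
    simp [inv]
  have up : ∀ n j, j + n ≤ k → lev (inv y a b (g (j + n))) ≤ lev (inv y a b (g j)) + n := by
    intro n j
    induction n with
    | zero => intro _; simp
    | succ n ih =>
      intro h
      have k1 := ih (by omega)
      have k2 := lev_le (y := y) ha hb (h1 (j + n) (by omega)).1
      rw [← add_assoc]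
      push_cast
      omega
  have eq : ∀ j, j ≤ k → lev (inv y a b (g j)) = j := fun j hj => by
    have k1 := up j 0 (by omega)
    have k2 := up (k - j) j (by omega)
    rw [zero_add, z0, lev_zero] at k1
    rw [show j + (k - j) = k by omega] at k2
    omega
  have oc : ∀ j, j ≤ k → OC (fun m => τ (ed y a b m) ≤ hi) Set.univ 0 (inv y a b (g j)) := by
    intro j
    induction j with
    | zero => intro _; rw [z0]; exact OC.refl (Set.mem_univ _)
    | succ j ih =>
      intro h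
      obtain ⟨i, hi'⟩ := step (y := y) ha hb (h1 j (by omega)).1
        (by rw [eq j (by omega), eq (j + 1) h]; push_cast; exact le_rfl)
      refine (ih (by omega)).trans (OC.head (i := i) (Set.mem_univ _) ?_ ?_)
      · show τ s(emb y a b (inv y a b (g j)), emb y a b (st (inv y a b (g j)) i)) ≤ hi
        rw [← hi', emb_inv ha hb, emb_inv ha hb]
        exact (h1 j (by omega)).2
      · rw [← hi']
        exact OC.refl (Set.mem_univ _)
  exact ⟨_, eq k le_rfl, oc k le_rfl⟩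

lemma pr_eq (ha : a = 1 ∨ a = -1) (hb : b = 1 ∨ b = -1) (p : Par) (hi : ℝ≥0) (k : ℕ) :
    p.pr {τ | (fun m => τ (ed y a b m) ≤ hi) ∈ Rch 0 (k : ℤ)} = th (p.F.real (Set.Iic hi)) k := by
  have hm : Measurable fun (τ : Cfg) (m : V × Fin 2) => τ (ed y a b m) ≤ hi :=
    measurable_pi_iff.2 fun m => (SBW.Pei90.meas_le hi).comp (measurable_pi_apply _)
  rw [th, helper98.pr, ← map_idx p hi (ed_inj (y := y) ha hb),
    map_measureReal_apply hm (meas_Rch 0 k)]
  rfl

end BRIDGE

open BRIDGE in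
theorem bBRIDGE : St_BRIDGE := by
  intro p hi h
  obtain ⟨ρ, L, h0, h1, hL, hd⟩ := decay (q := p.F.real (Set.Iic hi)) measureReal_nonneg h
  refine ⟨ρ, L, h0, h1, hL, fun k y => ?_⟩
  have sub : Bad hi k y ⊆
      ({τ | (fun m => τ (ed y 1 1 m) ≤ hi) ∈ Rch 0 (k : ℤ)} ∪
        {τ | (fun m => τ (ed y 1 (-1) m) ≤ hi) ∈ Rch 0 (k : ℤ)}) ∪
      ({τ | (fun m => τ (ed y (-1) 1 m) ≤ hi) ∈ Rch 0 (k : ℤ)} ∪
        {τ | (fun m => τ (ed y (-1) (-1) m) ≤ hi) ∈ Rch 0 (k : ℤ)}) := by
    rintro τ ⟨g, g0, g1, g2⟩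
    have e : n1 (g k - y) = ((|g k 0 - y 0| + |g k 1 - y 1| : ℤ) : ℝ) := by simp [n1]
    rw [e] at g2
    have g3 : (k : ℤ) ≤ |g k 0 - y 0| + |g k 1 - y 1| := by exact_mod_cast g2
    rcases abs_choice (g k 0 - y 0) with a0 | a0 <;> rcases abs_choice (g k 1 - y 1) with a1 | a1 <;>
      rw [a0, a1] at g3
    · exact Or.inl (Or.inl (reach (Or.inl rfl) (Or.inl rfl) g0 g1
        (by simp only [lev, inv, pt_zero, pt_one]; omega)))
    · exact Or.inl (Or.inr (reach (Or.inl rfl) (Or.inr rfl) g0 g1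
        (by simp only [lev, inv, pt_zero, pt_one]; omega)))
    · exact Or.inr (Or.inl (reach (Or.inr rfl) (Or.inl rfl) g0 g1
        (by simp only [lev, inv, pt_zero, pt_one]; omega)))
    · exact Or.inr (Or.inr (reach (Or.inr rfl) (Or.inr rfl) g0 g1
        (by simp only [lev, inv, pt_zero, pt_one]; omega)))
  refine (p.pr_mono sub).trans ((p.pr_union_le _ _).trans ?_)
  refine (add_le_add (p.pr_union_le _ _) (p.pr_union_le _ _)).trans ?_
  rw [pr_eq (Or.inl rfl) (Or.inl rfl), pr_eq (Or.inl rfl) (Or.inr rfl),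
    pr_eq (Or.inr rfl) (Or.inl rfl), pr_eq (Or.inr rfl) (Or.inr rfl)]
  linarith [hd k]

end Pool.Agent.Lib.SO4
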