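import Pool.Agent.Lib.SB97.B_PLANT

/-! Last exit chains of lattice paths and a Peierls bound for chains of separated sites. -/

namespace Pool.Agent.Lib.SO4

open MeasureTheory ProbabilityTheory Filter Topology Finset Pool.Agent.Lib.FP95
open Pool.Agent.Lib.MP_eba68f_pr hiding Nice
open Pool.Agent.Lib.SL94 (SW T)
open scoped NNReal ENNReal

namespace CH83

open Classical in
/-- the index after the last visit to the ball of radius `ρ` round `g a` -/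
noncomputable def nx (g : ℕ → V) (N ρ a : ℕ) : ℕ :=
  Nat.findGreatest (fun j => n1 (g j - g a) ≤ ρ) N + 1

theorem nx_spec {g : ℕ → V} {N ρ a : ℕ} (hg : ∀ j, j < N → G.Adj (g j) (g (j + 1))) (ha : a ≤ N)
    (hN : (ρ : ℝ) < n1 (g N - g a)) :
    a < nx g N ρ a ∧ nx g N ρ a ≤ N ∧ n1 (g (nx g N ρ a) - g a) ≤ ρ + 1 ∧
      ∀ j, nx g N ρ a ≤ j → j ≤ N → (ρ : ℝ) < n1 (g j - g a) := by
  classical
  have h0 : n1 (g a - g a) ≤ (ρ : ℝ) := by
    rw [sub_self]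
    simp only [n1, Pi.zero_apply, Int.cast_zero, abs_zero, add_zero]
    positivity
  unfold nx
  set f := Nat.findGreatest (fun j => n1 (g j - g a) ≤ (ρ : ℝ)) N with hf
  have f1 : a ≤ f := Nat.le_findGreatest (P := fun j => n1 (g j - g a) ≤ (ρ : ℝ)) ha h0
  have f2 : f ≤ N := Nat.findGreatest_le _
  have f3 : n1 (g f - g a) ≤ (ρ : ℝ) :=
    Nat.findGreatest_spec (P := fun j => n1 (g j - g a) ≤ (ρ : ℝ)) ha h0
  have f4 : f < N := lt_of_le_of_ne f2 fun h => by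
    rw [h] at f3
    linarith
  refine ⟨by omega, f4, ?_, fun j h1 h2 => not_le.1 (Nat.findGreatest_is_greatest
    (P := fun j => n1 (g j - g a) ≤ (ρ : ℝ)) h1 h2)⟩
  have h1 := n1_tri (g a) (g f) (g (f + 1))
  rw [n1_adj (hg f f4)] at h1
  linarith

/-- the last exit chain of a lattice path -/
theorem chain {g : ℕ → V} {N ρ K : ℕ} (hg : ∀ j, j < N → G.Adj (g j) (g (j + 1)))
    (hK : (K : ℝ) * (ρ + 1) ≤ n1 (g N - g 0)) :
    ∃ t : ℕ → ℕ, t 0 = 0 ∧ ∀ k, k < K → t k < t (k + 1) ∧ t (k + 1) ≤ N ∧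
      n1 (g (t (k + 1)) - g (t k)) ≤ ρ + 1 ∧
      ∀ j, t (k + 1) ≤ j → j ≤ N → (ρ : ℝ) < n1 (g j - g (t k)) := by
  have r0 : (0 : ℝ) ≤ ρ := Nat.cast_nonneg ρ
  have key : ∀ k, k ≤ K → (nx g N ρ)^[k] 0 ≤ N ∧
      ((K : ℝ) - k) * (ρ + 1) ≤ n1 (g N - g ((nx g N ρ)^[k] 0)) := by
    intro k
    induction k with
    | zero => exact fun _ => ⟨Nat.zero_le _, by simpa using hK⟩
    | succ k ih =>
      intro hk
      obtain ⟨h1, h2⟩ := ih (by omega)
      have h3 : (k : ℝ) + 1 ≤ K := by exact_mod_cast hk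
      obtain ⟨-, a2, a3, -⟩ := nx_spec (ρ := ρ) hg h1 (by nlinarith)
      rw [Function.iterate_succ_apply']
      refine ⟨a2, ?_⟩
      have h4 := n1_tri (g ((nx g N ρ)^[k] 0)) (g (nx g N ρ ((nx g N ρ)^[k] 0))) (g N)
      push_cast
      linarith
  refine ⟨fun k => (nx g N ρ)^[k] 0, rfl, fun k hk => ?_⟩
  obtain ⟨h1, h2⟩ := key k hk.le
  have h3 : (k : ℝ) + 1 ≤ K := by exact_mod_cast hk
  simp only [Function.iterate_succ_apply']
  exact nx_spec (ρ := ρ) hg h1 (by nlinarith)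

/-- consequences for the sites of the chain -/
theorem chain_sep {g : ℕ → V} {N ρ K : ℕ} {t : ℕ → ℕ}
    (h : ∀ k, k < K → t k < t (k + 1) ∧ t (k + 1) ≤ N ∧ n1 (g (t (k + 1)) - g (t k)) ≤ ρ + 1 ∧
      ∀ j, t (k + 1) ≤ j → j ≤ N → (ρ : ℝ) < n1 (g j - g (t k))) :
    (∀ i j, i < j → j ≤ K → t (i + 1) ≤ t j ∧ t j ≤ N) ∧
      ∀ i j, i ≤ K → j ≤ K → i ≠ j → (ρ : ℝ) < n1 (g (t i) - g (t j)) := by
  have mono : ∀ i j, i < j → j ≤ K → t (i + 1) ≤ t j ∧ t j ≤ N := by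
    intro i j hij
    induction j, hij using Nat.le_induction with
    | base => exact fun hj => ⟨le_rfl, (h i hj).2.1⟩
    | succ j _ ih => exact fun hj => ⟨(ih (by omega)).1.trans (h j hj).1.le, (h j hj).2.1⟩
  have one : ∀ i j, i < j → j ≤ K → (ρ : ℝ) < n1 (g (t j) - g (t i)) := fun i j hij hj =>
    (h i (by omega)).2.2.2 _ (mono i j hij hj).1 (mono i j hij hj).2
  refine ⟨mono, fun i j hi hj hij => ?_⟩
  rcases lt_or_gt_of_ne hij with h1 | h1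
  · rw [n1_sub_comm]
    exact one i j h1 hj
  · exact one j i h1 hi

/-- independence of local events at separated sites -/
theorem pr_inter (p : Par) (Bd : V → Set Cfg) (m β : ℝ) (hm : ∀ y, MeasurableSet (Bd y))
    (hd : ∀ y (τ τ' : Cfg), (∀ e ∈ near y m, τ e = τ' e) → τ ∈ Bd y → τ' ∈ Bd y)
    (hβ : ∀ y, p.pr (Bd y) ≤ β) (J : Finset ℕ) (y : ℕ → V)
    (hs : ∀ i ∈ J, ∀ j ∈ J, i ≠ j → 2 * m < n1 (y i - y j)) :
    p.pr {τ | ∀ j ∈ J, τ ∈ Bd (y j)} ≤ β ^ J.card := by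
  have h1 := bIND p ℕ J (fun j => SB97.PLANT.ch (Bd (y j))) (fun j => near (y j) m)
    (fun j _ => near_finite _ _) (fun j _ => SB97.PLANT.ch_nice (hm _))
    (fun j _ => SB97.PLANT.ch_dep (hd _))
    (fun i hi j hj hij => near_disjoint (by linarith [hs i hi j hj hij]))
  have h2 : ∀ τ, ∏ j ∈ J, SB97.PLANT.ch (Bd (y j)) τ =
      SB97.PLANT.ch {τ | ∀ j ∈ J, τ ∈ Bd (y j)} τ := by
    intro τ
    by_cases h : τ ∈ {τ | ∀ j ∈ J, τ ∈ Bd (y j)}
    · rw [SB97.PLANT.ch, Set.indicator_of_mem h]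
      exact prod_eq_one fun j hj => Set.indicator_of_mem (h j hj) _
    · rw [SB97.PLANT.ch, Set.indicator_of_notMem h]
      simp only [Set.mem_ofPred_eq, not_forall] at h
      obtain ⟨j, hj, h⟩ := h
      exact prod_eq_zero hj (Set.indicator_of_notMem h _)
  have h3 : MeasurableSet {τ | ∀ j ∈ J, τ ∈ Bd (y j)} := by
    have : {τ | ∀ j ∈ J, τ ∈ Bd (y j)} = ⋂ j ∈ J, Bd (y j) := by ext; simp
    rw [this]
    exact J.measurableSet_biInter fun j _ => hm _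
  simp only [h2] at h1
  rw [SB97.PLANT.ch_int p h3] at h1
  rw [h1, ← prod_const]
  refine prod_le_prod (fun j _ => ?_) fun j _ => ?_
  · rw [SB97.PLANT.ch_int p (hm _)]
    exact p.pr_nonneg _
  · rw [SB97.PLANT.ch_int p (hm _)]
    exact hβ _

/-- Peierls bound for chains of separated sites -/
theorem peierls (p : Par) (Bd : V → Set Cfg) (m R β : ℝ) (hR : 0 ≤ R)
    (hm : ∀ y, MeasurableSet (Bd y))
    (hd : ∀ y (τ τ' : Cfg), (∀ e ∈ near y m, τ e = τ' e) → τ ∈ Bd y → τ' ∈ Bd y)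
    (hβ : ∀ y, p.pr (Bd y) ≤ β) (v : V) (K n : ℕ) :
    p.pr {τ | ∃ (y : ℕ → V) (J : Finset ℕ), y 0 = v ∧ (∀ k, k < K → n1 (y (k + 1) - y k) ≤ R) ∧
      (∀ i j, i < K → j < K → i ≠ j → 2 * m < n1 (y i - y j)) ∧ J ⊆ range K ∧ n ≤ J.card ∧
      ∀ j ∈ J, τ ∈ Bd (y j)} ≤ (2 * (2 * R + 1) ^ 2) ^ K * β ^ n := by
  classical
  have β0 : 0 ≤ β := (p.pr_nonneg _).trans (hβ 0)
  set Y : (Fin K → V) → ℕ → V := fun f k =>
    v + ∑ i ∈ range k, if h : i < K then f ⟨i, h⟩ else 0 with hY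
  set I := ((Fintype.piFinset fun _ : Fin K => FP95.ball R) ×ˢ (range K).powerset).filter
    fun a => a.2.card = n ∧ ∀ i ∈ a.2, ∀ j ∈ a.2, i ≠ j → 2 * m < n1 (Y a.1 i - Y a.1 j) with hI
  have hone : ∀ a ∈ I, p.pr {τ | ∀ j ∈ a.2, τ ∈ Bd (Y a.1 j)} ≤ β ^ n := by
    intro a ha
    obtain ⟨-, h1, h2⟩ := mem_filter.1 ha
    rw [← h1]
    exact pr_inter p Bd m β hm hd hβ a.2 (Y a.1) h2
  have hcard : (I.card : ℝ) ≤ (2 * (2 * R + 1) ^ 2) ^ K := by
    have h1 : I.card ≤ (FP95.ball R).card ^ K * 2 ^ K := by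
      refine (card_filter_le _ _).trans (le_of_eq ?_)
      rw [card_product, Fintype.card_piFinset, card_powerset, card_range, prod_const,
        card_univ, Fintype.card_fin]
    have h2 : (I.card : ℝ) ≤ ((FP95.ball R).card : ℝ) ^ K * 2 ^ K := by exact_mod_cast h1
    rw [mul_pow, mul_comm]
    exact h2.trans (mul_le_mul_of_nonneg_right
      (pow_le_pow_left₀ (Nat.cast_nonneg _) (card_ball hR) K) (by positivity))
  refine (p.pr_mono ?_).trans ((p.pr_biUnion_le I fun a =>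
    {τ | ∀ j ∈ a.2, τ ∈ Bd (Y a.1 j)}).trans ((sum_le_card_nsmul _ _ _ hone).trans ?_))
  · rintro τ ⟨y, J, rfl, h1, h2, h3, h4, h5⟩
    obtain ⟨J', j1, j2⟩ := exists_subset_card_eq h4
    have e : ∀ k, k ≤ K → Y (fun i => y (i + 1) - y i) k = y k := by
      intro k hk
      simp only [hY]
      rw [sum_congr rfl (g := fun i => y (i + 1) - y i) fun i hi =>
        dif_pos ((mem_range.1 hi).trans_le hk), sum_range_sub]
      abel
    have lt : ∀ j ∈ J', j < K := fun j hj => mem_range.1 (h3 (j1 hj))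
    refine Set.mem_iUnion₂.2 ⟨(fun i => y (i + 1) - y i, J'), mem_filter.2 ⟨mem_product.2
      ⟨Fintype.mem_piFinset.2 fun i => mem_ball (h1 i i.2), mem_powerset.2 (j1.trans h3)⟩, j2,
      fun i hi j hj hij => ?_⟩, fun j hj => ?_⟩
    · rw [e i (lt i hi).le, e j (lt j hj).le]
      exact h2 i j (lt i hi) (lt j hj) hij
    · rw [e j (lt j hj).le]
      exact h5 j (j1 hj)
  · rw [nsmul_eq_mul]
    exact mul_le_mul_of_nonneg_right hcard (by positivity)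

end CH83

end Pool.Agent.Lib.SO4
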