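import Pool.Agent.Lib.SO4.Blue
import Pool.Agent.Lib.SO4.Ch83
import Pool.Agent.Lib.SL94.B_SEG

/-! Row CHAIN: the last exit chain of a nearly optimal walk in one shell. -/

namespace Pool.Agent.Lib.SO4

open Finset SimpleGraph Pool.Agent.Lib.FP95
open Pool.Agent.Lib.MP_eba68f_pr hiding Nice
open Pool.Agent.Lib.SL94 (SW T exists_lt)

namespace CHAIN

theorem succ_le {v : V} {n : ℕ} (h : (n : ℝ) < n1 v) : (n : ℝ) + 1 ≤ n1 v := by
  have e : n1 v = ((|v 0| + |v 1| : ℤ) : ℝ) := by simp [n1]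
  rw [e] at h ⊢
  have h1 : (n : ℤ) < |v 0| + |v 1| := by exact_mod_cast h
  have h2 : (n : ℤ) + 1 ≤ |v 0| + |v 1| := h1
  exact_mod_cast h2

theorem three (τ : Cfg) {u v : V} (q : G.Walk u v) {a b : ℕ} (hab : a ≤ b) (hb : b ≤ q.length) :
    T τ u (q.getVert a) + T τ (q.getVert a) (q.getVert b) + T τ (q.getVert b) v ≤
      SW τ q.edges := by
  have a1 := SL94.SEG.T_le_sum τ q (Nat.zero_le a) (hab.trans hb)
  have a2 := SL94.SEG.T_le_sum τ q hab hb
  have a3 := SL94.SEG.T_le_sum τ q hb le_rfl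
  rw [Walk.getVert_zero] at a1
  rw [Walk.getVert_length] at a3
  have a4 := sum_Ico_consecutive (fun j => (τ s(q.getVert j, q.getVert (j + 1)) : ℝ))
    (Nat.zero_le a) hab
  have a5 := sum_Ico_consecutive (fun j => (τ s(q.getVert j, q.getVert (j + 1)) : ℝ))
    (Nat.zero_le b) hb
  rw [SL94.SEG.SW_eq, range_eq_Ico]
  linarith

end CHAIN

theorem bCHAIN : St_CHAIN := by
  intro τ u v m w i s hm hw hs hv
  obtain ⟨q, -, hq⟩ := exists_lt (τ := τ) (u := u) (v := v) (lt_add_of_pos_right _ hs)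
  obtain ⟨ρ, rfl⟩ : ∃ ρ, m = ρ + 1 := ⟨m - 1, by omega⟩
  obtain ⟨K, rfl⟩ : ∃ K, w = K + 1 := ⟨w - 1, by omega⟩
  rw [Nat.add_sub_cancel]
  have r0 : (0 : ℝ) ≤ ρ := Nat.cast_nonneg ρ
  have K0 : (0 : ℝ) ≤ K := Nat.cast_nonneg K
  set R₀ : ℕ := (ρ + 1) * (i * (K + 1)) with hR
  have e : (((ρ + 1) * ((i + 1) * (K + 1)) : ℕ) : ℝ) = R₀ + (K * (ρ + 1) + (ρ + 1)) := by
    rw [hR]
    push_cast
    ring
  rw [e] at hv ⊢
  have hg : ∀ j, j < q.length → G.Adj (q.getVert j) (q.getVert (j + 1)) := fun j hj =>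
    q.adj_getVert_succ hj
  obtain ⟨-, a2, a3, a4⟩ := CH83.nx_spec (g := q.getVert) (ρ := R₀) hg (Nat.zero_le _) (by
    rw [Walk.getVert_length, Walk.getVert_zero]
    nlinarith)
  rw [Walk.getVert_zero] at a3 a4
  generalize CH83.nx q.getVert q.length R₀ 0 = a at a2 a3 a4
  obtain ⟨N, hN⟩ := Nat.exists_eq_add_of_le a2
  obtain ⟨t, t0, ht⟩ := CH83.chain (g := fun j => q.getVert (a + j)) (N := N) (ρ := ρ) (K := K)
    (fun j hj => hg (a + j) (by omega)) (by
      have h1 := n1_tri u (q.getVert a) v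
      rw [← hN, Walk.getVert_length, add_zero]
      linarith)
  obtain ⟨c1, c2⟩ := CH83.chain_sep (g := fun j => q.getVert (a + j)) ht
  have tN : ∀ j, j ≤ K → t j ≤ N := fun j hj => by
    rcases Nat.eq_zero_or_pos j with rfl | h
    · omega
    · exact (c1 0 j h hj).2
  have up : ∀ j, j ≤ K → n1 (q.getVert (a + t j) - u) ≤ R₀ + 1 + j * ((ρ : ℝ) + 1) := by
    intro j
    induction j with
    | zero => exact fun _ => by simpa [t0] using a3
    | succ j ih =>
      intro hj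
      have h1 := ih (by omega)
      have h2 : n1 (q.getVert (a + t (j + 1)) - q.getVert (a + t j)) ≤ ρ + 1 := (ht j hj).2.2.1
      have h3 := n1_tri u (q.getVert (a + t j)) (q.getVert (a + t (j + 1)))
      push_cast
      linarith
  refine ⟨fun j => q.getVert (a + t j), ⟨fun j hj => ?_, fun j j' hj hj' h => ?_⟩, fun j hj =>
    ⟨a4 _ (by omega) (by have := tN j hj; omega), ?_⟩, fun j hj => ?_⟩
  · push_cast
    exact le_antisymm (ht j hj).2.2.1 (CHAIN.succ_le (c2 (j + 1) j hj hj.le (by omega)))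
  · push_cast
    exact CHAIN.succ_le (c2 j j' hj hj' h)
  · have h1 : (j : ℝ) ≤ K := by exact_mod_cast hj
    have h2 := up j hj
    nlinarith
  · have h1 := (ht j hj).1
    have h2 := (ht j hj).2.1
    exact (CHAIN.three τ q (a := a + t j) (b := a + t (j + 1)) (by omega) (by omega)).trans hq.le

end Pool.Agent.Lib.SO4
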