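import Pool.Agent.Lib.SO4.Blue
import Pool.Agent.Lib.SB97.B_CONCAT

/-! Row CONCAT below the oriented threshold: two halves joined by a cheap link. -/

namespace Pool.Agent.Lib.SO4

open MeasureTheory ProbabilityTheory Filter Topology Finset Pool.Agent.Lib.FP95
open Pool.Agent.Lib.MP_eba68f_pr hiding Nice
open Pool.Agent.Lib.SL94 (SW T)
open Pool.Agent.Lib.SB97 (Qt)
open Pool.Agent.Lib.SB97.CONCAT (meas_le low_le)
open scoped NNReal ENNReal

namespace CONCAT

/-- three passage times in a row -/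
theorem join (hH : SB97.St_HAR) (p : Par) {u v y z : V} {a b c s β q : ℝ} (hβ : 0 ≤ β)
    (hq : 0 ≤ q) (ha : β ≤ p.pr {τ | T τ u y ≤ a}) (hb : β ≤ p.pr {τ | T τ z v ≤ b})
    (hc : q ≤ p.pr {τ | T τ y z ≤ c}) (hs : a + c + b ≤ s) :
    q * β ^ 2 ≤ p.pr {τ | T τ u v ≤ s} := by
  have h1 := hH p _ _ (meas_le u y a) (meas_le z v b) (low_le u y a) (low_le z v b)
  have h2 := hH p _ _ (meas_le y z c) ((meas_le u y a).inter (meas_le z v b))
    (low_le y z c) ((low_le u y a).inter (low_le z v b))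
  have h4 : β ^ 2 ≤ p.pr ({τ : Cfg | T τ u y ≤ a} ∩ {τ : Cfg | T τ z v ≤ b}) := by
    refine le_trans ?_ h1
    rw [sq]
    exact mul_le_mul ha hb hβ (hβ.trans ha)
  refine ((mul_le_mul hc h4 (sq_nonneg β) (hq.trans hc)).trans h2).trans (p.pr_mono ?_)
  rintro τ ⟨h5, h6, h7⟩
  have b1 := SL94.T_tri τ u y v
  have b2 := SL94.T_tri τ y z v
  have b4 : T τ y z ≤ c := h5
  have b5 : T τ u y ≤ a := h6
  have b6 : T τ z v ≤ b := h7
  change T τ u v ≤ s
  linarith

end CONCAT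

theorem bCONCAT (hH : SB97.St_HAR) : St_CONCAT := by
  intro p hR g π θ H ρ hA hq hθ hH' hρ hπ hP hG u v α t huv hπα hα hQ
  have θ0 : 0 < θ := hA.1
  have α0 : 0 < α := hπ.trans_le hπα
  have ρ0 : (0 : ℝ) ≤ ρ := Nat.cast_nonneg ρ
  rcases hR.1 u v 1 ρ α θ t H le_rfl hρ α0 hα hA hQ (by push_cast; linarith)
    (by rw [Nat.cast_one, one_mul]; exact hP.trans hπα) with h | ⟨S, y, z, A, B, c, hS, h⟩
  · refine le_trans ?_ (h.trans (p.pr_mono fun τ hτ => ?_))
    · have h1 : θ ^ 17 ≤ θ := pow_le_of_le_one θ0.le (by linarith) (by norm_num)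
      have h2 : α ^ 4 ≤ α := pow_le_of_le_one α0.le (by linarith) (by norm_num)
      have h3 : θ ^ 17 * α ^ 4 ≤ 1 / 2 * α :=
        mul_le_mul (h1.trans hθ) h2 (by positivity) (by norm_num)
      linarith
    · have h1 : T τ u v ≤ t - H + p.d / 2 := hτ
      change T τ u v ≤ t - (2 * g + p.d / 2)
      linarith
  · obtain ⟨i, hi⟩ : S.Nonempty := card_pos.1 (by omega)
    obtain ⟨i1, i2, hc, hy, hz, qA, qB, hAB⟩ := h i hi
    obtain rfl : i = 1 := le_antisymm i2 i1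
    have l1 : π * θ ≤ α * θ := mul_le_mul_of_nonneg_right hπα θ0.le
    have l2 : α * θ ≤ 1 / 2 := by nlinarith
    have y1 : (ρ : ℝ) ≤ p.nn (y 1 - u) := by
      have := hy.1
      push_cast at this
      linarith
    have z1 : (ρ : ℝ) ≤ p.nn (v - z 1) := by
      have h1 := hz.2
      have h2 := p.nn_tri u (z 1) v
      push_cast at h1
      linarith
    have g1 := hG u (y 1) (α * θ) (A 1) y1 l1 l2 qA
    have g2 := hG (z 1) v (α * θ) (B 1) z1 l1 l2 qB
    refine le_trans ?_ (CONCAT.join hH p.toPar (s := t - (2 * g + p.d / 2))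
      (by positivity) p.q_pos'.le g1 g2 hc (by linarith))
    have e : θ ^ 17 * α ^ 4 = θ * (θ ^ 6 * (α * θ) ^ 2) ^ 2 := by ring
    rw [e]
    exact mul_le_mul_of_nonneg_right hq (by positivity)

end Pool.Agent.Lib.SO4
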