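import Pool.Agent.Lib.SO4.Blue

/-! Row DET: good sites in half of the shells. -/

namespace Pool.Agent.Lib.SO4

open Finset Pool.Agent.Lib.FP95
open Pool.Agent.Lib.MP_eba68f_pr hiding Nice
open Pool.Agent.Lib.SL94 (SW T T_comm)
open scoped NNReal

namespace DET

theorem lt_succ {x : ℝ} {m w i j : ℕ} (h1 : ((m * (i * w) : ℕ) : ℝ) < x)
    (h2 : x ≤ ((m * ((j + 1) * w) : ℕ) : ℝ)) : i < j + 1 :=
  Nat.lt_of_mul_lt_mul_right (Nat.lt_of_mul_lt_mul_left (Nat.cast_lt.1 (h1.trans_le h2)))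

open Classical in
/-- the marked sites of the chains are distinct sites of the box -/
theorem count (hK : St_KIT) {u : V} {m w M : ℕ} (hm : 1 ≤ m) (B : Finset ℕ) (g : ℕ → ℕ → V)
    (E : V → Prop) (hB : ∀ i ∈ B, i ≤ M ∧ Chain m (w - 1) (g i) ∧ ∀ j, j ≤ w - 1 →
      ((m * (i * w) : ℕ) : ℝ) < n1 (g i j - u) ∧ n1 (g i j - u) ≤ ((m * ((i + 1) * w) : ℕ) : ℝ)) :
    ∑ i ∈ B, ((range (w - 1)).filter fun j => E (g i j)).card ≤
      ((Bx u (m * ((M + 1) * w))).filter E).card := by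
  rw [← card_sigma]
  refine card_le_card_of_injOn (fun k => g k.1 k.2) (fun k hk => ?_) fun k hk k' hk' h => ?_
  · obtain ⟨h1, h2⟩ := mem_sigma.1 (mem_coe.1 hk)
    obtain ⟨h3, h4⟩ := mem_filter.1 h2
    obtain ⟨g0, -, g2⟩ := hB _ h1
    refine mem_coe.2 (mem_filter.2 ⟨((hK.1 u _).1 _).2 ((g2 _ (mem_range.1 h3).le).2.trans ?_), h4⟩)
    exact Nat.cast_le.2 (Nat.mul_le_mul_left _ (Nat.mul_le_mul_right _ (by omega)))
  · obtain ⟨i, j⟩ := k
    obtain ⟨i', j'⟩ := k'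
    obtain ⟨h1, h2⟩ := mem_sigma.1 (mem_coe.1 hk)
    obtain ⟨h1', h2'⟩ := mem_sigma.1 (mem_coe.1 hk')
    have h5 : j < w - 1 := mem_range.1 (mem_filter.1 h2).1
    have h5' : j' < w - 1 := mem_range.1 (mem_filter.1 h2').1
    have e : g i j = g i' j' := h
    have s1 := (hB i h1).2.2 j h5.le
    have s2 := (hB i' h1').2.2 j' h5'.le
    rw [← e] at s2
    have a1 := lt_succ s1.1 s2.2
    have a2 := lt_succ s2.1 s1.2
    have e1 : i = i' := by omega
    subst e1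
    have e2 : j = j' := by
      by_contra hne
      have h6 := (hB i h1).2.1.2 j j' h5.le h5'.le hne
      rw [e, sub_self, n1_zero'] at h6
      have h7 : (1 : ℝ) ≤ m := by exact_mod_cast hm
      linarith
    rw [e2]

end DET

open Classical in
theorem bDET (hK : St_KIT) (hC : St_CHAIN) (hG : St_GAP) : St_DET := by
  intro p τ u v M w a b hw hr hv hL hc
  have hd : 0 < p.d := (hK.2 p).1.2.2.2.2.1
  have hm : 1 ≤ p.m := by unfold So.m; omega
  have hle : ∀ i, i ≤ M → ((p.m * ((i + 1) * w) : ℕ) : ℝ) ≤ ((p.m * ((M + 1) * w) : ℕ) : ℝ) :=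
    fun i hi => Nat.cast_le.2 (Nat.mul_le_mul_left _ (Nat.mul_le_mul_right _ (by omega)))
  have hex : ∀ i, ∃ g : ℕ → V, i ≤ M → Chain p.m (w - 1) g ∧
      (∀ j, j ≤ w - 1 → ((p.m * (i * w) : ℕ) : ℝ) < n1 (g j - u) ∧
        n1 (g j - u) ≤ ((p.m * ((i + 1) * w) : ℕ) : ℝ)) ∧ ∀ j, j < w - 1 →
        T τ u (g j) + T τ (g j) (g (j + 1)) + T τ (g (j + 1)) v ≤ T τ u v + p.d / 2 := by
    intro i
    by_cases hi : i ≤ M
    · obtain ⟨g, hg⟩ := hC τ u v p.m w i (p.d / 2) hm (by omega) (by linarith)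
        ((hle i hi).trans hv)
      exact ⟨g, fun _ => hg⟩
    · exact ⟨fun _ => u, fun h => absurd h hi⟩
  choose g hg using hex
  set Gd : ℕ → ℕ → Prop := fun i j => a (g i j) + b (g i j) + p.d / 2 ≤ T τ u v with hGd
  set S := (Icc 1 M).filter fun i => ∃ j, j < w - 1 ∧ Gd i j with hSd
  set Bd := (Icc 1 M).filter fun i => ¬ ∃ j, j < w - 1 ∧ Gd i j with hBd
  set X : ℕ → Finset ℕ := fun i => (range (w - 1)).filter
    fun j => τ ∈ p.Ev u v a (g i j) with hX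
  set Y : ℕ → Finset ℕ := fun i => (range (w - 1)).filter
    fun j => τ ∈ p.Ev v u b (g i j) with hY
  have hB : ∀ i ∈ Bd, w - 1 ≤ 2 * ((X i).card + (Y i).card) := by
    intro i hi
    obtain ⟨hi1, hi2⟩ := mem_filter.1 hi
    have hiM := (mem_Icc.1 hi1).2
    obtain ⟨g1, g2, g3⟩ := hg i hiM
    have l1 : 2 * ((range (w - 1)).filter fun j => τ ∈ Bad p.hi p.k (g i j)).card < w - 1 :=
      not_le.1 fun h => hL (g i 0) ((g2 0 (by omega)).2.trans (hle i hiM)) ⟨g i, rfl, g1, h⟩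
    have sub : range (w - 1) ⊆
        ((range (w - 1)).filter fun j => τ ∈ Bad p.hi p.k (g i j)) ∪ (X i ∪ Y i) := by
      intro j hj
      have hj' := mem_range.1 hj
      by_contra hcon
      simp only [hX, hY, mem_union, mem_filter, not_or, not_and] at hcon
      obtain ⟨c1, c2, c3⟩ := hcon
      have h1 : τ ∈ p.Spot u v (g i j) :=
        hG p τ u v (g i j) (g i (j + 1)) hr (c1 hj) (g1.1 j hj') (g3 j hj')
      have h2 : p.R τ u (g i j) + p.R τ v (g i j) + p.d / 2 ≤ T τ u v := h1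
      have h1' : τ ∈ p.Spot v u (g i j) := by
        show p.R τ v (g i j) + p.R τ u (g i j) + p.d / 2 ≤ T τ v u
        rw [T_comm τ v u]
        linarith
      have h3 : a (g i j) ≤ p.R τ u (g i j) := not_lt.1 fun h => c2 hj ⟨h1, h⟩
      have h4 : b (g i j) ≤ p.R τ v (g i j) := not_lt.1 fun h => c3 hj ⟨h1', h⟩
      exact hi2 ⟨j, hj', by simp only [hGd]; linarith⟩
    have h1 := (card_le_card sub).trans (card_union_le _ _)
    have h2 := card_union_le (X i) (Y i)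
    rw [card_range] at h1
    omega
  have bM : ∀ i ∈ Bd, i ≤ M := fun i hi => (mem_Icc.1 (mem_filter.1 hi).1).2
  have cX : ∑ i ∈ Bd, (X i).card ≤ p.cnt u v a (Bx u (p.m * ((M + 1) * w))) τ :=
    DET.count hK hm Bd g (fun c => τ ∈ p.Ev u v a c)
      fun i hi => ⟨bM i hi, (hg i (bM i hi)).1, (hg i (bM i hi)).2.1⟩
  have cY : ∑ i ∈ Bd, (Y i).card ≤ p.cnt v u b (Bx u (p.m * ((M + 1) * w))) τ :=
    DET.count hK hm Bd g (fun c => τ ∈ p.Ev v u b c)
      fun i hi => ⟨bM i hi, (hg i (bM i hi)).1, (hg i (bM i hi)).2.1⟩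
  have h1 : Bd.card * (w - 1) ≤ ∑ i ∈ Bd, 2 * ((X i).card + (Y i).card) := by
    simpa using card_nsmul_le_sum Bd (fun i => 2 * ((X i).card + (Y i).card)) (w - 1) hB
  rw [← mul_sum, sum_add_distrib] at h1
  have h2 : 2 * Bd.card ≤ M := by
    refine Nat.le_of_mul_le_mul_right (c := w - 1) ?_ (by omega)
    rw [mul_assoc]
    omega
  have h3 : S.card + Bd.card = M := by
    have := card_filter_add_card_filter_not (s := Icc 1 M) fun i => ∃ j, j < w - 1 ∧ Gd i j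
    rw [Nat.card_Icc, ← hSd, ← hBd] at this
    omega
  have hch : ∀ i, ∃ j, i ∈ S → j < w - 1 ∧ Gd i j := fun i => by
    by_cases hi : i ∈ S
    · obtain ⟨j, hj⟩ := (mem_filter.1 hi).2
      exact ⟨j, fun _ => hj⟩
    · exact ⟨0, fun h => absurd h hi⟩
  choose J hJ using hch
  refine ⟨S, fun i => g i (J i), by omega, fun i hi => ?_⟩
  obtain ⟨i1, i2⟩ := mem_Icc.1 (mem_filter.1 hi).1
  obtain ⟨j1, j2⟩ := hJ i hi
  obtain ⟨-, g2, -⟩ := hg i i2
  exact ⟨i1, i2, (g2 _ j1.le).1, (g2 _ j1.le).2, j2⟩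

end Pool.Agent.Lib.SO4
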