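import Pool.Agent.Lib.SO4.Blue

/-! Row DICH: gain at once, or split at many sites. -/

namespace Pool.Agent.Lib.SO4

open MeasureTheory ProbabilityTheory Filter Topology Finset Pool.Agent.Lib.FP95
open Pool.Agent.Lib.MP_eba68f_pr hiding Nice
open Pool.Agent.Lib.SL94 (SW T)
open Pool.Agent.Lib.SB97 (Qt)
open scoped NNReal ENNReal

/-- a quantile of the passage time below a quantile for the planted ball -/
lemma DICH.quant (hQ : SB97.St_QUANT) (p : Par) (o c : V) (β a : ℝ) (h0 : 0 < β) (h1 : β < 1)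
    (ha : β ≤ p.pr {τ | T τ o c ≤ a}) : ∃ A, A ≤ a ∧ Qt p β o c A := by
  obtain ⟨s, hs⟩ := hQ p o c β h0 h1
  rcases le_total s a with h | h
  · exact ⟨s, h, hs⟩
  · exact ⟨a, le_rfl, (p.pr_mono fun τ (hτ : T τ o c < a) => hτ.trans_le h).trans hs.1, ha⟩

/-- some site of a box starts a bad chain -/
lemma DICH.bad (hK : St_KIT) (p : So) (hr : p.Few) (u : V) (M w : ℕ) (α : ℝ) (hM1 : 1 ≤ M)
    (hw : 2 ≤ w) (hs : 200 * ((M : ℝ) * w) ^ 2 * (1 / 2) ^ (w - 1) ≤ α) :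
    p.pr (⋃ y ∈ Bx u (p.m * ((M + 1) * w)), BadCh p.hi p.k y (w - 1)) ≤ α / 8 := by
  have hL : (1 : ℝ) ≤ p.m := by
    exact_mod_cast le_trans one_le_two (hK.2 p).1.2.2.2.2.2.2
  have hM' : (1 : ℝ) ≤ M := by exact_mod_cast hM1
  have hw' : (2 : ℝ) ≤ w := by exact_mod_cast hw
  have hn1 : 2 * ((p.m * ((M + 1) * w) : ℕ) : ℝ) + 1 ≤ 5 * ((M : ℝ) * w) * p.m := by
    have e : 2 * (((M : ℝ) + 1) * w) + 1 ≤ 5 * ((M : ℝ) * w) := by nlinarith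
    push_cast
    nlinarith
  refine (p.pr_biUnion_le _ _).trans ?_
  refine (sum_le_card_nsmul _ _ ((1 / 2 : ℝ) ^ (w - 1) / (p.m : ℝ) ^ 2)
    fun y _ => hr y _ (by omega)).trans ?_
  rw [nsmul_eq_mul]
  have c2 := (hK.1 u (p.m * ((M + 1) * w))).2
  have c3 : (2 * ((p.m * ((M + 1) * w) : ℕ) : ℝ) + 1) ^ 2 ≤ (5 * ((M : ℝ) * w) * p.m) ^ 2 := by
    gcongr
  have c4 := mul_le_mul_of_nonneg_right (c2.trans c3)
    (by positivity : (0 : ℝ) ≤ (1 / 2) ^ (w - 1) / (p.m : ℝ) ^ 2)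
  have c5 : (5 * ((M : ℝ) * w) * p.m) ^ 2 * ((1 / 2) ^ (w - 1) / (p.m : ℝ) ^ 2) =
      25 * ((M : ℝ) * w) ^ 2 * (1 / 2) ^ (w - 1) := by
    field_simp
    norm_num
  linarith

theorem bDICH (hQ : SB97.St_QUANT) (hK : St_KIT) (hD : St_DET) (hM : St_MARK) : St_DICH := by
  classical
  intro p p' hr eP eq ed eL u v M w α θ t H hM1 hw hα hα2 hA hq hd hs
  obtain ⟨hθ, hθ1, hH, hA⟩ := hA
  rw [p'.le_nn, eL] at hd
  have hq1 := p'.q_le
  simp only [Sh, p'.lt_nn, p'.nn_le]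
  rw [eq, ed] at hA
  rw [eP] at hq
  rw [eP, ed, eL]
  obtain ⟨⟨k0, k1', q0, qk, d0, -, -⟩, hae, -, -, hRT, hRQ⟩ := hK.2 p
  by_cases hG : α / 2 ≤ p.pr {τ | T τ u v ≤ t - H + p.d / 2}
  · exact Or.inl hG
  right
  have hHd : p.d / 2 < H := by
    by_contra hc
    have := p.pr_mono (A := {τ | T τ u v ≤ t}) (B := {τ | T τ u v ≤ t - H + p.d / 2})
      fun τ (hτ : T τ u v ≤ t) => show T τ u v ≤ t - H + p.d / 2 by linarith [not_lt.1 hc]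
    exact hG (by linarith [hq.2])
  have hθk : θ ≤ p.kap := by
    have e1 : p.d ^ 2 ≤ (2560 * H) ^ 2 := by gcongr; linarith
    have e2 : p.d ^ 2 * θ ≤ p.d ^ 2 * p.q ^ 2 := by nlinarith
    have e3 := le_of_mul_le_mul_left e2 (by positivity)
    nlinarith
  have h0 : 0 < α * θ := mul_pos hα hθ
  have h1 : α * θ < 1 := by nlinarith
  have g0 : 0 < α * θ / p.kap := div_pos h0 k0
  have g1 : α * θ / p.kap < 1 := by
    rw [div_lt_one k0]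
    nlinarith
  choose a ha using fun c => hRQ u c _ g0 g1
  choose b hb using fun c => hRQ v c _ g0 g1
  have lift : ∀ (o c : V) (s : ℝ), α * θ / p.kap ≤ p.pr {τ | p.R τ o c ≤ s} →
      α * θ ≤ p.pr {τ | T τ o c ≤ s} := fun o c s h =>
    ((div_le_iff₀' k0).1 h).trans (hRT o c s)
  choose A hA1 hA2 using fun c => DICH.quant hQ p.toPar u c _ (a c) h0 h1 (lift _ _ _ (ha c).2)
  choose B hB1 hB2 using fun c => DICH.quant hQ p.toPar v c _ (b c) h0 h1 (lift _ _ _ (hb c).2)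
  have k1 := hM p u v M w a b α θ t H hM1 hw hα hθ hH hA (fun y => (ha y).1) (fun z => (hb z).1)
    hq.1
  have k2 := DICH.bad hK p hr u M w α hM1 hw hs
  have k3 : p.pr {τ | ¬∀ e, p.r0 ≤ τ e} = 0 := by
    unfold Par.pr
    rw [measureReal_def, ae_iff.1 hae, ENNReal.toReal_zero]
  obtain ⟨τ, t1, t2, t3, t4, t5⟩ : ∃ τ : Cfg, T τ u v ≤ t ∧ ¬T τ u v ≤ t - H + p.d / 2 ∧
      ¬M * (w - 1) ≤ 4 * (p.cnt u v a (Bx u (p.m * ((M + 1) * w))) τ +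
        p.cnt v u b (Bx u (p.m * ((M + 1) * w))) τ) ∧
      (τ ∉ ⋃ y ∈ Bx u (p.m * ((M + 1) * w)), BadCh p.hi p.k y (w - 1)) ∧ ∀ e, p.r0 ≤ τ e := by
    by_contra hc
    have hsub : {τ : Cfg | T τ u v ≤ t} ⊆ (({τ | T τ u v ≤ t - H + p.d / 2} ∪
        {τ | (t - H + p.d / 2 ≤ T τ u v ∧ T τ u v ≤ t) ∧ M * (w - 1) ≤
          4 * (p.cnt u v a (Bx u (p.m * ((M + 1) * w))) τ +
            p.cnt v u b (Bx u (p.m * ((M + 1) * w))) τ)}) ∪
        ⋃ y ∈ Bx u (p.m * ((M + 1) * w)), BadCh p.hi p.k y (w - 1)) ∪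
        {τ | ¬∀ e, p.r0 ≤ τ e} := by
      intro τ hτ
      by_contra hn'
      simp only [Set.mem_union, not_or] at hn'
      exact hc ⟨τ, hτ, hn'.1.1.1, fun h => hn'.1.1.2 ⟨⟨le_of_not_ge hn'.1.1.1, hτ⟩, h⟩, hn'.1.2,
        not_not.1 hn'.2⟩
    have e0 := (p.pr_mono hsub).trans (p.pr_union_le _ _)
    have e1 := e0.trans (add_le_add (p.pr_union_le _ _) k3.le)
    have e2 := e1.trans (add_le_add (add_le_add (p.pr_union_le _ _) k2) le_rfl)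
    linarith [hq.2, not_le.1 hG]
  obtain ⟨S, c, hS, h⟩ := hD p τ u v M w a b hw t5 (by exact_mod_cast hd)
    (fun y hy hL => t4 (Set.mem_biUnion (mem_coe.2 (((hK.1 u _).1 y).2 hy)) hL))
    (le_of_not_ge t3)
  refine ⟨S, c, c, fun i => A (c i), fun i => B (c i), fun _ => 0, hS, fun i hi => ?_⟩
  obtain ⟨j1, j2, j3, j4, j5⟩ := h i hi
  have sh : (p.m : ℝ) * ((i * w : ℕ) : ℝ) < n1 (c i - u) ∧
      n1 (c i - u) ≤ (p.m : ℝ) * (((i + 1) * w : ℕ) : ℝ) :=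
    ⟨by exact_mod_cast j3, by exact_mod_cast j4⟩
  refine ⟨j1, j2, ?_, sh, sh, hA2 _, ?_, by linarith [hA1 (c i), hB1 (c i)]⟩
  · simp only [SL94.T_self, le_refl, Set.setOf_true, Par.pr_univ]
    exact hq1
  · have := hB2 (c i)
    simpa only [Qt, SL94.T_comm _ v (c i)] using this

end Pool.Agent.Lib.SO4
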