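import Pool.Agent.Lib.SO4.Blue
import Pool.Agent.Lib.SBW.B_FIN

/-! Row FIN: back to the definitions of the hand-in, the two classes of laws. -/

namespace Pool.Agent.Lib.SO4

open MeasureTheory ProbabilityTheory Filter Topology Finset Pool.Agent.Lib.FP95
open Pool.Agent.Lib.MP_eba68f_pr hiding Nice
open Pool.Agent.Lib.SL94 (SW T T_mono)
open scoped NNReal ENNReal

namespace FIN

/-- the abstract system of a law with an atom -/
noncomputable def ab (hK : St_KIT) (s : So) : Ab :=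
  { s.toPar with
    q := s.q
    d := s.d
    hi := s.hi
    L := s.m
    q_pos' := (hK.2 s).1.2.2.1
    q_le := (hK.2 s).1.2.2.2.1.trans (hK.2 s).1.2.1
    d_pos := (hK.2 s).1.2.2.2.2.1
    d_le := (hK.2 s).1.2.2.2.2.2.1
    L_ge := (hK.2 s).1.2.2.2.2.2.2 }

/-- the bound in the working definitions -/
lemma main (γ : ℝ) (hK : St_KIT) (hD : St_DICH) (hO : St_LOC) (hC : St_CORE γ) (s : So)
    (hF : s.Few) (hL : SBW.FIN.HK s.toPar) :
    ∃ c : ℝ, 0 < c ∧ ∃ N : ℝ, ∀ x : V, N ≤ n1 x → MemLp (fun τ => T τ 0 x) 2 s.P →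
      Real.exp (c * Real.log (n1 x) ^ γ) ≤ variance (fun τ => T τ 0 x) s.P := by
  obtain ⟨K, K0, hL⟩ := hL
  have L0 := (ab hK s).L_pos
  obtain ⟨c, c0, N, hN⟩ := hC (ab hK s).q (ab hK s).d (K * (ab hK s).L) (ab hK s).L
    (ab hK s).q_pos' (ab hK s).q_le (ab hK s).d_pos (mul_pos K0 L0)
  refine ⟨c, c0, N, hN (ab hK s) ⟨hD s _ hF rfl rfl rfl rfl, hO s _ rfl rfl⟩ rfl rfl rfl
    fun u w t h => ?_⟩
  have := hL u w t (le_trans (measureReal_mono fun τ hτ =>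
    lt_of_le_of_lt (T_mono (fun e => le_self_add) u w) hτ) h)
  unfold Ab.nn
  rwa [mul_assoc, mul_div_cancel₀ _ L0.ne']

end FIN

open FIN SBW.FIN in
theorem bFIN (γ : ℝ) (h1 : SBW.St_FIN1 γ)
    (hL : ∀ (p : Par) (x : V), x ≠ 0 → Integrable (fun τ => T τ 0 x) p.P → HK p)
    (hK : St_KIT) (hS : St_SYS) (hD : St_DICH) (hO : St_LOC) (hC : St_CORE γ) : St_FIN γ := by
  intro F _ r hFr hs h0
  by_cases h : F {r} < 1 / 2
  · exact h1 F r hFr hs h
  obtain ⟨r0, hc⟩ := h0.resolve_left h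
  by_cases hx : ∃ x : V, x ≠ 0 ∧ MemLp (fun τ => T τ 0 x) 2 (par F).P
  · obtain ⟨x, x0, hm⟩ := hx
    obtain ⟨s, e, hF⟩ := hS (par F) r r0 hFr (lt_of_lt_of_le (by norm_num) (not_lt.1 h)) hc
    obtain ⟨c, c0, N, h⟩ := FIN.main γ hK hD hO hC s hF
      (e ▸ hL _ x x0 (hm.integrable (by norm_num)))
    rw [e] at h
    exact ⟨c, c0, N, fun v hv => out (par F) v _ (h v hv)⟩
  · refine ⟨1, one_pos, 1, fun v hv => out (par F) v _ fun hm => (hx ⟨v, ?_, hm⟩).elim⟩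
    rintro rfl
    norm_num at hv

end Pool.Agent.Lib.SO4
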