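import Pool.Agent.Lib.SO4.B_ORTH
import Pool.Agent.Lib.SB97.B_SEG

/-! Row GAP: a site of a nearly optimal chain that is not bad is a spot. -/

namespace Pool.Agent.Lib.SO4

open Finset SimpleGraph Pool.Agent.Lib.FP95
open Pool.Agent.Lib.MP_eba68f_pr hiding Nice
open Pool.Agent.Lib.SL94 (SW T le_T T_mono T_tri T_comm)

namespace GAP

lemma low (p : So) {τ : Cfg} {y z : V} (h : ∀ e, p.r0 ≤ τ e) (hb : τ ∉ Bad p.hi p.k y)
    (hz : n1 (z - y) = p.m) : (p.r0 : ℝ) * p.m + p.d ≤ T τ y z := by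
  refine le_T fun q => ?_
  have hr : (0 : ℝ) ≤ p.r0 := p.r0.2
  have hd : p.d = p.hi - p.r0 := rfl
  have hm : p.m = 2 * p.k + 1 := rfl
  have l1 : p.m ≤ q.length := by
    have h1 := SB97.SEG.n1_le y q 0 q.length (by omega)
    rw [zero_add, Walk.getVert_length, Walk.getVert_zero, hz] at h1
    have h2 : n1 (y - y) = 0 := by simp [n1]
    have h3 : (p.m : ℝ) ≤ q.length := by linarith
    exact_mod_cast h3
  rcases l1.lt_or_eq with l2 | l2
  · have h1 := ORTH.SW_ge h q.edges
    rw [Walk.length_edges] at h1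
    have h2 : (p.m : ℝ) + 1 ≤ q.length := by exact_mod_cast l2
    have h3 := mul_le_mul_of_nonneg_left h2 hr
    linarith [p.le]
  · have k1 : (p.k : ℝ) ≤ n1 (q.getVert p.k - y) := by
      have h1 := SB97.SEG.n1_le y q p.k (p.k + 1) (by omega)
      rw [show p.k + (p.k + 1) = q.length by omega, Walk.getVert_length, hz, hm] at h1
      push_cast at h1
      linarith
    obtain ⟨j, hj, hh⟩ : ∃ j, j < p.k ∧ p.hi < τ s(q.getVert j, q.getVert (j + 1)) := by
      by_contra hn
      refine hb ⟨q.getVert, q.getVert_zero, fun j hj => ⟨q.adj_getVert_succ (by omega), ?_⟩, k1⟩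
      exact not_lt.1 fun hh => hn ⟨j, hj, hh⟩
    have h1 := single_le_sum (s := range q.length)
      (f := fun j => (τ s(q.getVert j, q.getVert (j + 1)) : ℝ) - p.r0)
      (fun i _ => sub_nonneg.2 (NNReal.coe_le_coe.2 (h _))) (mem_range.2 (show j < q.length by omega))
    rw [sum_sub_distrib, sum_const, card_range, nsmul_eq_mul, ← SL94.SEG.SW_eq, ← l2] at h1
    have h2 := NNReal.coe_lt_coe.2 hh
    linarith

end GAP

theorem bGAP : St_GAP := by
  intro p τ u v y z h hb hz hT
  have h1 := GAP.low p h hb hz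
  have hle := ORTH.sb_le h p.m y
  have h2 := T_mono hle u y
  have h3 := T_mono hle v z
  have h4 := ORTH.T_up (σ := sb p.r0 p.m y τ) (r := p.r0) (t := p.m) (x := z) (c := y)
    (fun e he => (ORTH.sb_in τ he).le) hz.le
  have h5 := T_tri (sb p.r0 p.m y τ) v z y
  rw [hz] at h4
  rw [T_comm τ v z] at h3
  show T (sb p.r0 p.m y τ) u y + T (sb p.r0 p.m y τ) v y + p.d / 2 ≤ T τ u v
  linarith

end Pool.Agent.Lib.SO4
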