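import Pool.Agent.Lib.SO4.Blue

/-! Row ORTH: the ball that is reached second does not matter. -/

namespace Pool.Agent.Lib.SO4

open MeasureTheory ProbabilityTheory Filter Topology Finset SimpleGraph Pool.Agent.Lib.FP95
open Pool.Agent.Lib.MP_eba68f_pr hiding Nice
open Pool.Agent.Lib.SL94 (SW T)
open scoped NNReal ENNReal

namespace ORTH

lemma sb_in {r : ℝ≥0} {m : ℕ} {c : V} (τ : Cfg) {e : Sym2 V} (h : e ∈ near c m) :
    sb r m c τ e = r := if_pos h

lemma sb_out {r : ℝ≥0} {m : ℕ} {c : V} (τ : Cfg) {e : Sym2 V} (h : e ∉ near c m) :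
    sb r m c τ e = τ e := if_neg h

lemma le_sb {r : ℝ≥0} {τ : Cfg} (h : ∀ e, r ≤ τ e) (m : ℕ) (c : V) (e : Sym2 V) :
    r ≤ sb r m c τ e := by
  by_cases he : e ∈ near c m
  · exact (sb_in τ he).ge
  · exact (h e).trans (sb_out τ he).ge

lemma sb_le {r : ℝ≥0} {τ : Cfg} (h : ∀ e, r ≤ τ e) (m : ℕ) (c : V) : sb r m c τ ≤ τ := fun e => by
  by_cases he : e ∈ near c m
  · exact (sb_in τ he).le.trans (h e)
  · exact (sb_out τ he).le

/-- a short walk stays near its end -/
lemma inball {x c : V} {t : ℝ} (q : G.Walk x c) :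
    (q.length : ℝ) ≤ t → ∀ e ∈ q.edges, e ∈ near c t := by
  induction q with
  | nil => simp
  | @cons u w v h q ih =>
    intro hl e he
    have h1 := n1_le_length (Walk.cons h q)
    have h2 := n1_le_length q
    rw [Walk.length_cons, Nat.cast_add, Nat.cast_one] at hl h1
    rw [Walk.edges_cons] at he
    rcases List.mem_cons.1 he with rfl | he
    · intro z hz
      rw [n1_sub_comm]
      rcases Sym2.mem_iff.1 hz with rfl | rfl <;> linarith
    · exact ih (by linarith) e he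

lemma T_up {σ : Cfg} {r : ℝ≥0} {t : ℝ} {x c : V} (h : ∀ e ∈ near c t, σ e ≤ r)
    (hx : n1 (x - c) ≤ t) : T σ x c ≤ r * n1 (x - c) := by
  obtain ⟨q, hq⟩ := exists_walk x c
  rw [n1_sub_comm] at hq
  have h1 := SL94.SW_le_mul (τ := σ) (l := q.edges) (c := r) fun e he =>
    NNReal.coe_le_coe.2 (h e (inball q (hq.trans_le hx) e he))
  rw [Walk.length_edges, hq] at h1
  exact (SL94.T_le_SW σ q).trans h1

lemma SW_ge {σ : Cfg} {r : ℝ≥0} (h : ∀ e, r ≤ σ e) (l : List (Sym2 V)) :
    (r : ℝ) * l.length ≤ SW σ l := by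
  induction l with
  | nil => simp
  | cons a l ih =>
    have h1 : (r : ℝ) ≤ σ a := h a
    simp only [SL94.SW_cons, List.length_cons, Nat.cast_add, Nat.cast_one]
    linarith

/-- a walk through an edge passes through one of its ends -/
lemma thru {σ : Cfg} {r : ℝ≥0} (h : ∀ e, r ≤ σ e) (o : V) {e : Sym2 V} {u c : V}
    (q : G.Walk u c) :
    e ∈ q.edges → ∃ x ∈ e, T σ o x + r * n1 (c - x) ≤ T σ o u + SW σ q.edges := by
  induction q with
  | nil => simp
  | @cons u w v hadj q ih =>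
    intro he
    by_cases h1 : e = s(u, w)
    · refine ⟨u, h1 ▸ Sym2.mem_mk_left u w, ?_⟩
      have h2 := SW_ge h (Walk.cons hadj q).edges
      rw [Walk.length_edges] at h2
      linarith [mul_le_mul_of_nonneg_left (n1_le_length (Walk.cons hadj q)) r.coe_nonneg]
    · rw [Walk.edges_cons] at he ⊢
      obtain ⟨x, hx, h2⟩ := ih ((List.mem_cons.1 he).resolve_left h1)
      refine ⟨x, hx, ?_⟩
      rw [SL94.SW_cons]
      linarith [SL94.T_tri σ o u w, SL94.T_adj σ hadj]

end ORTH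

open ORTH in
theorem bORTH : St_ORTH := by
  intro r m τ o c c' hr hτ hc hle
  have hR := le_sb hτ m c
  have hS := le_sb hR m c'
  refine le_antisymm ?_ (SL94.T_mono (sb_le hR m c') o c)
  by_contra hcon
  have r0 : (0 : ℝ) < r := hr
  have d0 : 0 < (r : ℝ) * (n1 (c - c') - 2 * m) := mul_pos r0 (by linarith)
  obtain ⟨q, -, hq⟩ := SL94.exists_lt (lt_min (not_le.1 hcon)
    (lt_add_of_pos_right (T (sb r m c' (sb r m c τ)) o c) d0))
  rw [lt_min_iff] at hq
  have h1 : ∀ e ∈ q.edges, e ∉ near c' m := fun e he hn => by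
    obtain ⟨x, hx, k1⟩ := thru hS o q he
    rw [SL94.T_self] at k1
    have k2 := hn x hx
    have k3 := T_up (σ := sb r m c' (sb r m c τ)) (fun e he => (sb_in _ he).le) k2
    have k4 := SL94.T_tri (sb r m c' (sb r m c τ)) o x c'
    have k5 : n1 (c - c') - 2 * m ≤ n1 (c - x) - n1 (x - c') := by linarith [n1_tri c' x c]
    have k6 := mul_le_mul_of_nonneg_left k5 r0.le
    linarith [hq.2]
  have h2 := SL94.T_le_SW (sb r m c τ) q
  rw [← SL94.SW_congr fun e he => sb_out (r := r) (sb r m c τ) (h1 e he)] at h2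
  linarith [hq.1]

end Pool.Agent.Lib.SO4
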