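import Pool.Agent.Lib.SO4.Blue
import Pool.Agent.Lib.SO4.B_ORTH
import Pool.Agent.Lib.SB97.B_LOC

/-! Localisation when all weights are bounded below. -/

namespace Pool.Agent.Lib.SO4

open MeasureTheory ProbabilityTheory Finset SimpleGraph Pool.Agent.Lib.FP95
open Pool.Agent.Lib.MP_eba68f_pr hiding Nice
open Pool.Agent.Lib.SL94 (SW T exists_lt)
open Pool.Agent.Lib.SB97.LOC
open scoped NNReal ENNReal

theorem bLOC (hK : St_KIT) : St_LOC := by
  intro p p' e1 e2 z y c L hc
  refine ⟨Phi z y c L, Phi_meas z y c L, Phi_lower z y c L,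
    fun τ τ' h => Phi_dep z y c L fun e he => h e fun v hv => (he v hv).trans
      (le_mul_of_one_le_left (Nat.cast_nonneg L) p'.one_le),
    fun τ h => Phi_sub z y c L h, ?_⟩
  have h1 : {τ | T τ z y < c} ≤ᵐ[p.P] Phi z y c L := (hK.2 p).2.1.mono fun τ hτ h => by
    obtain ⟨q, -, hq⟩ := exists_lt (show T τ z y < c from h)
    refine ⟨q, ?_, hq⟩
    have h2 := ORTH.SW_ge hτ q.edges
    rw [Walk.length_edges] at h2
    have h3 : (0 : ℝ) < p.r0 := p.r0_pos
    have h4 := mul_le_mul_of_nonneg_right p.le (Nat.cast_nonneg (α := ℝ) L)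
    rw [e2] at hc
    have h5 : (p.r0 : ℝ) * q.length ≤ p.r0 * L := by linarith
    exact_mod_cast le_of_mul_le_mul_left h5 h3
  have h6 : p.pr {τ | T τ z y < c} ≤ p.pr (Phi z y c L) :=
    ENNReal.toReal_mono (measure_ne_top _ _) (measure_mono_ae h1)
  rw [e1]
  have h7 : (0 : ℝ) ≤ (1 / 2) ^ L := by positivity
  linarith

end Pool.Agent.Lib.SO4
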