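import Pool.Agent.Lib.SO4.Blue

/-! Row MARK: few marked sites on the window event. -/

namespace Pool.Agent.Lib.SO4

open MeasureTheory ProbabilityTheory Filter Topology Finset Pool.Agent.Lib.FP95
open Pool.Agent.Lib.MP_eba68f_pr hiding Nice
open Pool.Agent.Lib.SL94 (SW T)
open Pool.Agent.Lib.SB97 (Qt)
open scoped NNReal ENNReal

namespace MARK

/-- number of marked sites, counted on the event `W` only -/
noncomputable def fW (p : So) (o x : V) (a : V → ℝ) (I : Finset V) (W : Set Cfg)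
    (τ : Cfg) : ℝ := ∑ c ∈ I, (p.Ev o x a c ∩ W).indicator (fun _ => (1 : ℝ)) τ

lemma fW_eq (p : So) (o x : V) (a : V → ℝ) (I : Finset V) {W : Set Cfg} {τ : Cfg}
    (h : τ ∈ W) : fW p o x a I W τ = p.cnt o x a I τ := by
  classical
  unfold So.cnt fW
  rw [card_filter]
  push_cast
  refine sum_congr rfl fun i _ => ?_
  by_cases h' : τ ∈ p.Ev o x a i <;> simp [h, h']

lemma fW_nonneg (p : So) (o x : V) (a : V → ℝ) (I : Finset V) (W : Set Cfg) (τ : Cfg) :
    0 ≤ fW p o x a I W τ :=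
  sum_nonneg fun _ _ => Set.indicator_nonneg (fun _ _ => zero_le_one) τ

lemma fW_int (p : So) (o x : V) (a : V → ℝ) (I : Finset V) {W : Set Cfg}
    (hE : ∀ c, MeasurableSet (p.Ev o x a c)) (hW : MeasurableSet W) :
    Integrable (fW p o x a I W) p.P ∧
      ∫ τ, fW p o x a I W τ ∂p.P = ∑ c ∈ I, p.pr (p.Ev o x a c ∩ W) := by
  have h : ∀ i ∈ I, Integrable ((p.Ev o x a i ∩ W).indicator fun _ => (1 : ℝ)) p.P :=
    fun i _ => (integrable_const (1 : ℝ)).indicator ((hE i).inter hW)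
  unfold fW
  refine ⟨integrable_finsetSum _ h, ?_⟩
  rw [integral_finsetSum _ h]
  exact sum_congr rfl fun i _ => p.int_ind ((hE i).inter hW)

lemma arith {κ d D m N α θ H n X : ℝ} (κ0 : 0 < κ) (κ1 : κ ≤ 1) (d0 : 0 < d) (D0 : 0 < D)
    (m0 : 0 < m) (N0 : 0 < N) (α0 : 0 < α) (θ0 : 0 < θ) (H0 : 0 < H)
    (hA : (2560 * H) ^ 2 * θ ≤ (κ ^ 2 / (D * m) * d) ^ 2) (hn : n ≤ 25 * (m * N) ^ 2)
    (key : κ * d / 2 * X ≤ κ * d * N / (256 * H ^ 2) / 2 * (H ^ 2 * α) +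
      D ^ 2 * (α * θ / κ) / (2 * (κ * d * N / (256 * H ^ 2))) * n) : X ≤ N * α / 128 := by
  have e3 := mul_le_mul_of_nonneg_left hn
    (show 0 ≤ D ^ 2 * (α * θ / κ) / (2 * (κ * d * N / (256 * H ^ 2))) by positivity)
  have e4 : D ^ 2 * (α * θ / κ) / (2 * (κ * d * N / (256 * H ^ 2))) * (25 * (m * N) ^ 2) =
      (D * m) ^ 2 * (N * α) / (2048 * κ ^ 2 * d) * ((2560 * H) ^ 2 * θ) := by
    field_simp
    ring
  have e5 : κ * d * N / (256 * H ^ 2) / 2 * (H ^ 2 * α) = κ * d * (N * α) / 512 := by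
    field_simp
    ring
  have e7 := mul_le_mul_of_nonneg_left hA
    (show 0 ≤ (D * m) ^ 2 * (N * α) / (2048 * κ ^ 2 * d) by positivity)
  have e8 : (D * m) ^ 2 * (N * α) / (2048 * κ ^ 2 * d) * (κ ^ 2 / (D * m) * d) ^ 2 =
      κ * (κ * d * (N * α)) / 2048 := by
    field_simp
  have e9 := mul_le_mul_of_nonneg_right κ1 (show 0 ≤ κ * d * (N * α) by positivity)
  have e0 : 0 ≤ κ * d * (N * α) := by positivity
  exact le_of_mul_le_mul_left (a := κ * d / 2) (by linarith) (by positivity)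

end MARK

open MARK in
theorem bMARK (hK : St_KIT) (hM : St_MARTB) : St_MARK := by
  intro p u v M w a b α θ t H hM1 hw hα θ0 H0 hA ha hb ht
  obtain ⟨-, d2⟩ := hK.1 u (p.m * ((M + 1) * w))
  obtain ⟨⟨κ0, κ1, -, -, d0, -, m2⟩, -, -, hE, -⟩ := hK.2 p
  have M1 : (1 : ℝ) ≤ M := by exact_mod_cast hM1
  have w2 : (2 : ℝ) ≤ w := by exact_mod_cast hw
  have m1 : (1 : ℝ) ≤ p.m := by exact_mod_cast le_trans one_le_two m2
  have N2 : (2 : ℝ) * M ≤ M * w := by nlinarith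
  have N3 : (w : ℝ) ≤ M * w := by nlinarith
  have N0 : (0 : ℝ) < M * w := by linarith
  have hc : ((Bx u (p.m * ((M + 1) * w))).card : ℝ) ≤ 25 * (p.m * ((M : ℝ) * w)) ^ 2 := by
    refine d2.trans ?_
    have : 2 * (((p.m * ((M + 1) * w) : ℕ)) : ℝ) + 1 ≤ 5 * (p.m * (M * w)) := by
      have k1 := mul_le_mul_of_nonneg_left N3 (zero_le_one.trans m1)
      have k2 := mul_le_mul_of_nonneg_right m1 N0.le
      push_cast
      linarith
    have := pow_le_pow_left₀ (by positivity) this 2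
    linarith
  generalize Bx u (p.m * ((M + 1) * w)) = I at *
  have e : ∀ τ, T τ v u = T τ u v := fun τ => SL94.T_comm τ v u
  have l0 : 0 < p.kap * p.d * (M * w) / (256 * H ^ 2) := by positivity
  have s1 := arith κ0 κ1 d0 (by linarith) (by linarith) N0 hα θ0 H0 hA hc
    (hM p u v a _ α t H _ I l0 H0.le ha ht)
  have s2 := arith κ0 κ1 d0 (by linarith) (by linarith) N0 hα θ0 H0 hA hc
    (hM p v u b _ α t H _ I l0 H0.le hb (by simpa only [e] using ht))
  simp only [e] at s2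
  have hW : MeasurableSet {τ | t - H + p.d / 2 ≤ T τ u v ∧ T τ u v ≤ t} :=
    (measurableSet_le measurable_const (SL94.T_meas u v)).inter
      (measurableSet_le (SL94.T_meas u v) measurable_const)
  obtain ⟨i1, j1⟩ := fW_int p u v a I (hE u v a) hW
  obtain ⟨i2, j2⟩ := fW_int p v u b I (hE v u b) hW
  have m := mul_meas_ge_le_integral_of_nonneg (μ := p.P)
    (ae_of_all _ fun τ => add_nonneg (fW_nonneg _ _ _ _ _ _ τ) (fW_nonneg _ _ _ _ _ _ τ))
    (i1.add i2) (M * w / 8)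
  rw [integral_add i1 i2, j1, j2] at m
  refine le_of_mul_le_mul_left (a := (M : ℝ) * w / 8) (le_trans (mul_le_mul_of_nonneg_left
    (p.pr_mono fun τ hτ => ?_) (by linarith)) (m.trans (by linarith))) (by linarith)
  have h1 : ((M * (w - 1) : ℕ) : ℝ) ≤ 4 * (p.cnt u v a I τ + p.cnt v u b I τ) := by
    exact_mod_cast hτ.2
  rw [Nat.cast_mul, Nat.cast_sub (by omega), Nat.cast_one] at h1
  show (M : ℝ) * w / 8 ≤ fW _ _ _ _ _ _ τ + fW _ _ _ _ _ _ τ
  rw [fW_eq _ _ _ _ _ hτ.1, fW_eq _ _ _ _ _ hτ.1]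
  linarith

end Pool.Agent.Lib.SO4
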