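import Pool.Agent.Lib.SO4.Blue
import Pool.Agent.Lib.SX21.B_KIT
import Pool.Agent.Lib.SX21.B_SPL

/-! Row MARTB: the martingale bound for planted balls. -/

namespace Pool.Agent.Lib.SO4

open MeasureTheory ProbabilityTheory Filter Topology Function Finset Pool.Agent.Lib.FP95
open Pool.Agent.Lib.MP_eba68f_pr hiding Nice
open Pool.Agent.Lib.SL94 (SW T T_meas T_tri T_mono T_comm meas_all pr_all card_near)
open Pool.Agent.Lib.SX21 (sp mk Off OffS Out Rep Psi Wn)
open scoped NNReal ENNReal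

namespace MARTB

lemma sb_on (r : ℝ≥0) {m : ℕ} {c : V} (τ : Cfg) {e : Sym2 V} (h : e ∈ near c m) :
    sb r m c τ e = r := if_pos h

lemma sb_off (r : ℝ≥0) {m : ℕ} {c : V} (τ : Cfg) {e : Sym2 V} (h : e ∉ near c m) :
    sb r m c τ e = τ e := if_neg h

lemma sb_meas (r : ℝ≥0) (m : ℕ) (c : V) : Measurable (sb r m c) := by
  refine measurable_pi_lambda _ fun e => ?_
  by_cases he : e ∈ near c m
  · simp only [sb_on r _ he]
    exact measurable_const
  · simp only [sb_off r _ he]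
    exact measurable_pi_apply e

lemma sb_congr (r : ℝ≥0) {m : ℕ} {c : V} {τ τ' : Cfg} (h : ∀ e, e ∉ near c m → τ e = τ' e) :
    sb r m c τ = sb r m c τ' := funext fun e => by
  by_cases he : e ∈ near c m
  · rw [sb_on r _ he, sb_on r _ he]
  · rw [sb_off r _ he, sb_off r _ he, h e he]

lemma sb_comm (r : ℝ≥0) (m : ℕ) (c c' : V) (τ : Cfg) :
    sb r m c' (sb r m c τ) = sb r m c (sb r m c' τ) := funext fun e => by
  by_cases h : e ∈ near c m
  · by_cases h' : e ∈ near c' m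
    · rw [sb_on r _ h, sb_on r _ h']
    · rw [sb_on r _ h, sb_off r _ h', sb_on r _ h]
  · by_cases h' : e ∈ near c' m
    · rw [sb_on r _ h', sb_off r _ h, sb_on r _ h']
    · rw [sb_off r _ h', sb_off r _ h, sb_off r _ h, sb_off r _ h']

lemma sb_le {r : ℝ≥0} (m : ℕ) (c : V) {τ : Cfg} (h : ∀ e, r ≤ τ e) : sb r m c τ ≤ τ := fun e => by
  by_cases he : e ∈ near c m
  · rw [sb_on r _ he]; exact h e
  · rw [sb_off r _ he]

lemma mk_congr (B : Set (Sym2 V)) (Γ : ℝ≥0) {τ τ' : Cfg} {e : Sym2 V} (h : τ e = τ' e) :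
    mk B Γ τ e = mk B Γ τ' e := by
  by_cases he : e ∈ B
  · rw [SX21.KIT.mk_on Γ _ he, SX21.KIT.mk_on Γ _ he]
  · rw [SX21.KIT.mk_off Γ _ he, SX21.KIT.mk_off Γ _ he, h]

lemma mk_ge (B : Set (Sym2 V)) {r Γ : ℝ≥0} (hΓ : r ≤ Γ) {τ : Cfg} (h : ∀ e, r ≤ τ e)
    (e : Sym2 V) : r ≤ mk B Γ τ e := by
  by_cases he : e ∈ B
  · rw [SX21.KIT.mk_on Γ _ he]; exact hΓ
  · rw [SX21.KIT.mk_off Γ _ he]; exact h e

lemma ind_off {E : Set (Sym2 V)} {X : Set Cfg} (h : OffS E X) :
    Off E (X.indicator fun _ => (1 : ℝ)) := fun τ τ' k => by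
  by_cases k1 : τ ∈ X
  · rw [Set.indicator_of_mem k1, Set.indicator_of_mem (h _ _ k k1)]
  · rw [Set.indicator_of_notMem k1,
      Set.indicator_of_notMem fun k2 => k1 (h _ _ (fun e he => (k e he).symm) k2)]

lemma indep (p : Par) (E : Set (Sym2 V)) {f g : Cfg → ℝ} (hf : Measurable f) (hg : Measurable g)
    (h1 : Off E f) (h2 : Off Eᶜ g) :
    ∫ τ, f τ * g τ ∂p.P = (∫ τ, g τ ∂p.P) * ∫ τ, f τ ∂p.P := by
  have mp := SX21.bSPL p E
  have hm : Measurable fun τ => f τ * g τ := hf.mul hg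
  have h := integral_map (μ := p.P.prod p.P) mp.measurable.aemeasurable hm.aestronglyMeasurable
  rw [mp.map_eq] at h
  rw [h, ← integral_prod_mul g f]
  refine integral_congr_ae (ae_of_all _ fun q => ?_)
  show f (sp E q.1 q.2) * g (sp E q.1 q.2) = g q.1 * f q.2
  rw [h1 _ q.2 fun e he => SX21.SPL.sp_out _ _ he,
    h2 _ q.1 fun e he => SX21.SPL.sp_in _ _ (not_not.1 he), mul_comm]

variable (p : So)

/-- all weights of the ball are least -/
def Lc (c : V) : Set Cfg := {τ | ∀ e ∈ near c p.m, τ e ≤ p.r0}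

lemma Lc_eq (c : V) :
    Lc p c = {τ | ∀ e ∈ (near_finite c p.m).toFinset, τ e ≤ p.r0} := by
  ext τ
  simp only [Lc, Set.mem_ofPred_eq, Set.Finite.mem_toFinset]

lemma Lc_meas (c : V) : MeasurableSet (Lc p c) := by
  rw [Lc_eq]; exact meas_all _ _

lemma near_card (c : V) (m : ℕ) : (near_finite c m).toFinset.card ≤ (2 * m + 1) ^ 4 := by
  classical
  have hb : ((ball (m : ℝ)).card : ℝ) ≤ (2 * (m : ℝ) + 1) ^ 2 := card_ball (Nat.cast_nonneg m)
  have hb' : (ball (m : ℝ)).card ≤ (2 * m + 1) ^ 2 := by exact_mod_cast hb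
  have hs : (near_finite c m).toFinset ⊆
      (ball (m : ℝ) ×ˢ ball (m : ℝ)).image fun q => s(q.1 + c, q.2 + c) := by
    intro e he
    rw [Set.Finite.mem_toFinset] at he
    induction e using Sym2.ind with
    | _ y z =>
      exact mem_image.2 ⟨(y - c, z - c), mem_product.2 ⟨mem_ball (he y (Sym2.mem_mk_left _ _)),
        mem_ball (he z (Sym2.mem_mk_right _ _))⟩, by simp only [sub_add_cancel]⟩
  refine (card_le_card hs).trans (card_image_le.trans ?_)
  rw [card_product]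
  calc _ ≤ (2 * m + 1) ^ 2 * (2 * m + 1) ^ 2 := Nat.mul_le_mul hb' hb'
    _ = _ := by ring

lemma kap_le (c : V) : p.kap ≤ p.pr (Lc p c) := by
  rw [Lc_eq, pr_all]
  exact pow_le_pow_of_le_one measureReal_nonneg measureReal_le_one (near_card c p.m)

/-- the centred indicator -/
noncomputable def et (c : V) (τ : Cfg) : ℝ := p.pr (Lc p c) - (Lc p c).indicator (fun _ => 1) τ

lemma et_nice (c : V) : Nice (et p c) := (FP95.Nice.const _).sub (Nice.ind (Lc_meas p c))

lemma et_abs (c : V) (τ : Cfg) : |et p c τ| ≤ 1 := by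
  have h0 := p.pr_nonneg (Lc p c)
  have h1 := p.pr_le_one (Lc p c)
  unfold et
  by_cases h : τ ∈ Lc p c
  · rw [Set.indicator_of_mem h, abs_le]; constructor <;> linarith
  · rw [Set.indicator_of_notMem h, abs_le]; constructor <;> linarith

lemma et_congr {c : V} {τ τ' : Cfg} (h : ∀ e ∈ near c p.m, τ e = τ' e) :
    et p c τ = et p c τ' := by
  have : OffS (near c p.m)ᶜ (Lc p c) := fun σ σ' k k1 e he =>
    (k e (not_not.2 he)) ▸ k1 e he
  unfold et
  rw [ind_off this τ τ' fun e he => h e (not_not.1 he)]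

lemma orth (c : V) {f : Cfg → ℝ} (hf : Measurable f) (h : Off (near c p.m) f) :
    ∫ τ, f τ * et p c τ ∂p.P = 0 := by
  rw [indep p.toPar _ hf (et_nice p c).1 h fun τ τ' k => et_congr p fun e he => k e (not_not.2 he)]
  unfold et
  rw [integral_sub (integrable_const _) ((Nice.ind (Lc_meas p c)).int _), p.int_ind (Lc_meas p c),
    integral_const, probReal_univ, one_smul, sub_self, zero_mul]

variable (B : Set (Sym2 V)) (Γ : ℝ≥0) (Z : Set Cfg) (o : V) (a : V → ℝ)

/-- the centre is reached early -/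
def A (c : V) : Set Cfg := {τ | T (sb p.r0 p.m c (mk B Γ τ)) o c < a c} ∩ Z

/-- the increments -/
noncomputable def xi (c : V) (τ : Cfg) : ℝ :=
  (A p B Γ Z o a c).indicator (fun _ => 1) τ * et p c τ

/-- both balls planted -/
noncomputable def two (c c' : V) (τ : Cfg) : Cfg := sb p.r0 p.m c' (sb p.r0 p.m c (mk B Γ τ))

variable {Z}

lemma A_meas (hZ : MeasurableSet Z) (c : V) : MeasurableSet (A p B Γ Z o a c) :=
  (measurableSet_lt ((T_meas o c).comp ((sb_meas _ _ c).comp (SX21.KIT.mk_meas B Γ)))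
    measurable_const).inter hZ

lemma A_off {c : V} (h : OffS (near c p.m) Z) : OffS (near c p.m) (A p B Γ Z o a c) :=
  fun τ τ' k k1 => ⟨by
    show T (sb p.r0 p.m c (mk B Γ τ')) o c < a c
    rw [← sb_congr p.r0 fun e he => mk_congr B Γ (k e he)]
    exact k1.1, h _ _ k k1.2⟩

lemma xi_nice (hZ : MeasurableSet Z) (c : V) : Nice (xi p B Γ Z o a c) :=
  (Nice.ind (A_meas p B Γ o a hZ c)).mul (et_nice p c)

lemma xi_le (hZ : MeasurableSet Z) (c c' : V) :
    ∫ τ, xi p B Γ Z o a c τ * xi p B Γ Z o a c' τ ∂p.P ≤ p.pr (A p B Γ Z o a c) := by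
  have h1 := A_meas p B Γ o a hZ c
  rw [← p.int_ind h1]
  refine integral_mono (((xi_nice p B Γ o a hZ c).mul (xi_nice p B Γ o a hZ c')).int _)
    ((Nice.ind h1).int _) fun τ => ?_
  unfold xi
  by_cases h : τ ∈ A p B Γ Z o a c
  · have k1 := abs_le.1 (et_abs p c τ)
    have k2 := abs_le.1 (et_abs p c' τ)
    by_cases h' : τ ∈ A p B Γ Z o a c'
    · simp only [Set.indicator_of_mem h, Set.indicator_of_mem h', one_mul]
      nlinarith
    · simp only [Set.indicator_of_mem h, Set.indicator_of_notMem h', zero_mul, mul_zero]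
      exact zero_le_one
  · simp only [Set.indicator_of_notMem h, zero_mul, le_refl]

lemma two_meas (c c' v : V) : Measurable fun τ => T (two p B Γ c c' τ) o v :=
  (T_meas o v).comp ((sb_meas _ _ c').comp ((sb_meas _ _ c).comp (SX21.KIT.mk_meas B Γ)))

lemma two_comm (c c' : V) (τ : Cfg) : two p B Γ c c' τ = two p B Γ c' c τ := sb_comm _ _ _ _ _

lemma two_off {c c' : V} {τ τ' : Cfg} (h : ∀ e, e ∉ near c' p.m → τ e = τ' e) :
    two p B Γ c c' τ = two p B Γ c c' τ' := by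
  rw [two_comm p B Γ c c' τ, two_comm p B Γ c c' τ']
  unfold two
  rw [sb_congr p.r0 fun e he => mk_congr B Γ (h e he)]

lemma half (hZ : MeasurableSet Z) {c c' : V} (hd : Disjoint (near c p.m) (near c' p.m))
    (f : OffS (near c' p.m) Z) {Y : Set Cfg} (hY : MeasurableSet Y) (hO : OffS (near c' p.m) Y) :
    ∫ τ, (Y ∩ A p B Γ Z o a c').indicator (fun _ => (1 : ℝ)) τ * et p c τ * et p c' τ ∂p.P = 0 :=
  orth p c' ((Nice.ind (hY.inter (A_meas p B Γ o a hZ c'))).mul (et_nice p c)).1 fun τ τ' k => by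
    rw [ind_off (X := Y ∩ A p B Γ Z o a c')
      (fun σ σ' j j1 => ⟨hO _ _ j j1.1, A_off p B Γ o a f _ _ j j1.2⟩) τ τ' k,
      et_congr p fun e he => k e (Set.disjoint_left.1 hd he)]

lemma xi_orth (hO : St_ORTH) (hae : ∀ᵐ τ ∂p.P, ∀ e, p.r0 ≤ τ e) (hΓ : p.r0 ≤ Γ)
    (hZ : MeasurableSet Z) {c c' : V} (far : 2 * (p.m : ℝ) < n1 (c - c'))
    (f1 : OffS (near c p.m) Z) (f2 : OffS (near c' p.m) Z) :
    ∫ τ, xi p B Γ Z o a c τ * xi p B Γ Z o a c' τ ∂p.P = 0 := by
  have hd : Disjoint (near c p.m) (near c' p.m) := near_disjoint (by linarith)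
  have far' : 2 * (p.m : ℝ) < n1 (c' - c) := by rwa [← n1_neg', neg_sub]
  let Y1 : Set Cfg := {τ | T (two p B Γ c c' τ) o c ≤ T (two p B Γ c c' τ) o c' ∧
    T (two p B Γ c c' τ) o c < a c}
  let Y2 : Set Cfg := {τ | T (two p B Γ c' c τ) o c' < T (two p B Γ c' c τ) o c ∧
    T (two p B Γ c' c τ) o c' < a c'}
  have m1 : MeasurableSet Y1 :=
    (measurableSet_le (two_meas p B Γ o c c' c) (two_meas p B Γ o c c' c')).inter
      (measurableSet_lt (two_meas p B Γ o c c' c) measurable_const)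
  have m2 : MeasurableSet Y2 :=
    (measurableSet_lt (two_meas p B Γ o c' c c') (two_meas p B Γ o c' c c)).inter
      (measurableSet_lt (two_meas p B Γ o c' c c') measurable_const)
  have o1 : OffS (near c' p.m) Y1 := fun τ τ' k k1 => by
    show T (two p B Γ c c' τ') o c ≤ T (two p B Γ c c' τ') o c' ∧ T (two p B Γ c c' τ') o c < a c
    rw [← two_off p B Γ k]
    exact k1
  have o2 : OffS (near c p.m) Y2 := fun τ τ' k k1 => by
    show T (two p B Γ c' c τ') o c' < T (two p B Γ c' c τ') o c ∧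
      T (two p B Γ c' c τ') o c' < a c'
    rw [← two_off p B Γ k]
    exact k1
  have e1 := half p B Γ o a hZ hd f2 m1 o1
  have e2 := half p B Γ o a hZ hd.symm f1 m2 o2
  have e3 := integral_add
    ((((Nice.ind (m1.inter (A_meas p B Γ o a hZ c'))).mul (et_nice p c)).mul (et_nice p c')).int p.P)
    ((((Nice.ind (m2.inter (A_meas p B Γ o a hZ c))).mul (et_nice p c')).mul (et_nice p c)).int p.P)
  rw [e1, e2, add_zero] at e3
  rw [← e3]
  refine integral_congr_ae (hae.mono fun τ hτ => ?_)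
  have g := mk_ge B hΓ hτ
  have cm := two_comm p B Γ c c' τ
  simp only [xi]
  rcases le_or_gt (T (two p B Γ c c' τ) o c) (T (two p B Γ c c' τ) o c') with h3 | h3
  · have q1 : T (sb p.r0 p.m c (mk B Γ τ)) o c = T (two p B Γ c c' τ) o c :=
      hO p.r0 p.m _ o c c' p.r0_pos g far h3
    have k2 : τ ∉ Y2 ∩ A p B Γ Z o a c := fun h => absurd h.1.1 (not_lt.2 (cm ▸ h3))
    by_cases h2 : τ ∈ A p B Γ Z o a c'
    · by_cases h1 : τ ∈ A p B Γ Z o a c
      · have k1 : τ ∈ Y1 ∩ A p B Γ Z o a c' := ⟨⟨h3, q1 ▸ h1.1⟩, h2⟩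
        simp only [Set.indicator_of_mem h1, Set.indicator_of_mem h2, Set.indicator_of_mem k1,
          Set.indicator_of_notMem k2]
        ring
      · have k1 : τ ∉ Y1 ∩ A p B Γ Z o a c' := fun h => h1 ⟨q1.trans_lt h.1.2, h2.2⟩
        simp only [Set.indicator_of_notMem h1, Set.indicator_of_notMem k1,
          Set.indicator_of_notMem k2]
        ring
    · have k1 : τ ∉ Y1 ∩ A p B Γ Z o a c' := fun h => h2 h.2
      simp only [Set.indicator_of_notMem h2, Set.indicator_of_notMem k1,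
        Set.indicator_of_notMem k2]
      ring
  · have h4 : T (two p B Γ c' c τ) o c' < T (two p B Γ c' c τ) o c := cm ▸ h3
    have q1 : T (sb p.r0 p.m c' (mk B Γ τ)) o c' = T (two p B Γ c' c τ) o c' :=
      hO p.r0 p.m _ o c' c p.r0_pos g far' h4.le
    have k1 : τ ∉ Y1 ∩ A p B Γ Z o a c' := fun h => absurd h.1.1 (not_le.2 h3)
    by_cases h1 : τ ∈ A p B Γ Z o a c
    · by_cases h2 : τ ∈ A p B Γ Z o a c'
      · have k2 : τ ∈ Y2 ∩ A p B Γ Z o a c := ⟨⟨h4, q1 ▸ h2.1⟩, h1⟩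
        simp only [Set.indicator_of_mem h1, Set.indicator_of_mem h2, Set.indicator_of_mem k2,
          Set.indicator_of_notMem k1]
        ring
      · have k2 : τ ∉ Y2 ∩ A p B Γ Z o a c := fun h => h2 ⟨q1.trans_lt h.1.2, h1.2⟩
        simp only [Set.indicator_of_notMem h2, Set.indicator_of_notMem k1,
          Set.indicator_of_notMem k2]
        ring
    · have k2 : τ ∉ Y2 ∩ A p B Γ Z o a c := fun h => h1 h.2
      simp only [Set.indicator_of_notMem h1, Set.indicator_of_notMem k1,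
        Set.indicator_of_notMem k2]
      ring

lemma psi_mono {τ τ' : Cfg} (h : τ ≤ τ') (x : V) (t H : ℝ) : Psi o x t H τ ≤ Psi o x t H τ' :=
  sub_le_sub_right (max_le_max le_rfl (min_le_min le_rfl (T_mono h o x))) _

lemma psi_gain {τ τ' : Cfg} {x : V} {t H c : ℝ} (h : τ ∈ Wn c o x t H) (hc : 0 ≤ c)
    (h3 : T τ' o x + c ≤ T τ o x) : Psi o x t H τ' ≤ Psi o x t H τ - c := by
  obtain ⟨h1, h2⟩ := h
  unfold Psi
  rw [min_eq_right h2, max_eq_right (show t - H ≤ T τ o x by linarith)]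
  have : max (t - H) (min t (T τ' o x)) ≤ T τ o x - c :=
    max_le (by linarith) ((min_le_right _ _).trans (by linarith))
  linarith

lemma cov (hae : ∀ᵐ τ ∂p.P, ∀ e, p.r0 ≤ τ e) (hZ : MeasurableSet Z) {x c : V} {t H : ℝ}
    (hH : 0 ≤ H) (f1 : OffS (near c p.m) Z) {C : Set Cfg} (hC : MeasurableSet C)
    (hs : ∀ τ ∈ C, τ ∈ A p B Γ Z o a c ∧ T (sb p.r0 p.m c τ) o x + p.d / 2 ≤ T τ o x ∧
      τ ∈ Wn (p.d / 2) o x t H) :
    p.kap * p.d / 2 * p.pr C ≤ ∫ τ, Psi o x t H τ * xi p B Γ Z o a c τ ∂p.P := by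
  have nP := SX21.KIT.psi_nice o x t hH
  have mA := A_meas p B Γ o a hZ c
  have nlo : Nice fun τ : Cfg => Psi o x t H (sb p.r0 p.m c τ) := nP.comp (sb_meas _ _ c)
  have h0 := orth p c
    (f := fun τ => Psi o x t H (sb p.r0 p.m c τ) * (A p B Γ Z o a c).indicator (fun _ => 1) τ)
    (nlo.mul (Nice.ind mA)).1 fun τ τ' k => by
      beta_reduce
      rw [ind_off (A_off p B Γ o a f1) τ τ' k, sb_congr p.r0 k]
  have i1 := ((nlo.mul (Nice.ind mA)).mul (et_nice p c)).int p.P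
  have i2 := ((Nice.ind hC).int p.P).const_mul (p.kap * p.d / 2)
  have e := integral_add i1 i2
  rw [h0, zero_add, integral_const_mul, p.int_ind hC] at e
  rw [← e]
  refine integral_mono_ae (i1.add i2) ((nP.mul (xi_nice p B Γ o a hZ c)).int _)
    (hae.mono fun τ hτ => ?_)
  have hq := kap_le p c
  have hq0 := p.pr_nonneg (Lc p c)
  have hd : 0 < p.d := sub_pos.2 (NNReal.coe_lt_coe.2 p.lt)
  have hle := sb_le p.m c hτ
  have hL : τ ∈ Lc p c → sb p.r0 p.m c τ = τ := fun h => funext fun e => by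
    by_cases he : e ∈ near c p.m
    · rw [sb_on _ _ he]; exact le_antisymm (hτ e) (h e he)
    · exact sb_off _ _ he
  simp only [xi]
  by_cases hE : τ ∈ C
  · obtain ⟨hA, k1, w⟩ := hs τ hE
    have hl : τ ∉ Lc p c := fun h => by
      rw [hL h] at k1
      linarith
    have k6 := psi_gain o w (by linarith) k1
    simp only [Set.indicator_of_mem hE, Set.indicator_of_mem hA, et, Set.indicator_of_notMem hl]
    nlinarith
  · rw [Set.indicator_of_notMem hE]
    by_cases hA : τ ∈ A p B Γ Z o a c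
    · rw [Set.indicator_of_mem hA]
      by_cases hl : τ ∈ Lc p c
      · rw [hL hl]
        exact le_of_eq (by ring)
      · have := psi_mono o hle x t H
        simp only [et, Set.indicator_of_notMem hl]
        nlinarith
    · rw [Set.indicator_of_notMem hA]
      simp

/-- the bound with a mask and an outer event -/
lemma core (hO : St_ORTH) (hae : ∀ᵐ τ ∂p.P, ∀ e, p.r0 ≤ τ e) (hΓ : p.r0 ≤ Γ)
    (hZ : MeasurableSet Z) {x : V} {π S t H lam : ℝ} (I : Finset V) (hl : 0 < lam) (hH : 0 ≤ H)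
    (hI : ∀ c ∈ I, Disjoint (near c p.m) B ∧ OffS (near c p.m) Z ∧
      p.pr ({τ | T (sb p.r0 p.m c (mk B Γ τ)) o c < a c} ∩ Z) ≤ π)
    (hR : Rep p.toPar B Z (Psi o x t H) S) (C : V → Set Cfg) (hC : ∀ c, MeasurableSet (C c))
    (hs : ∀ c, ∀ τ ∈ C c, τ ∈ {τ | T (sb p.r0 p.m c (mk B Γ τ)) o c < a c} ∩ Z ∧
      T (sb p.r0 p.m c τ) o x + p.d / 2 ≤ T τ o x ∧ τ ∈ Wn (p.d / 2) o x t H) :
    p.kap * p.d / 2 * ∑ c ∈ I, p.pr (C c) ≤
      lam / 2 * S + (4 * (p.m : ℝ) + 1) ^ 2 * π / (2 * lam) * I.card := by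
  classical
  obtain ⟨g, ng, hg, hrep⟩ := hR
  have nP := SX21.KIT.psi_nice o x t hH
  have nx : ∀ c ∈ I, Nice fun τ => xi p B Γ Z o a c τ := fun c _ => xi_nice p B Γ o a hZ c
  have nX := FP95.Nice.sum I nx
  have hout : Out B Z fun τ => ∑ c ∈ I, xi p B Γ Z o a c τ := by
    refine ⟨fun τ τ' h k k' => sum_congr rfl fun c hc => ?_, fun τ k => sum_eq_zero fun c _ => ?_⟩
    · have e : mk B Γ τ = mk B Γ τ' := funext fun e => by
        by_cases he : e ∈ B
        · rw [SX21.KIT.mk_on Γ _ he, SX21.KIT.mk_on Γ _ he]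
        · exact mk_congr B Γ (h e he)
      unfold xi
      rw [et_congr p fun e he => h e (Set.disjoint_left.1 (hI c hc).1 he)]
      by_cases k1 : T (sb p.r0 p.m c (mk B Γ τ)) o c < a c
      · rw [Set.indicator_of_mem (show τ ∈ A p B Γ Z o a c from ⟨k1, k⟩),
          Set.indicator_of_mem (show τ' ∈ A p B Γ Z o a c from
            ⟨show T (sb p.r0 p.m c (mk B Γ τ')) o c < a c from e ▸ k1, k'⟩)]
      · rw [Set.indicator_of_notMem (show τ ∉ A p B Γ Z o a c from fun k2 => k1 k2.1),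
          Set.indicator_of_notMem (show τ' ∉ A p B Γ Z o a c from
            fun k2 => k1 (by rw [e]; exact k2.1))]
    · unfold xi
      rw [Set.indicator_of_notMem (show τ ∉ A p B Γ Z o a c from fun k2 => k k2.2), zero_mul]
  have e2 : ∫ τ, (∑ c ∈ I, xi p B Γ Z o a c τ) * (∑ c ∈ I, xi p B Γ Z o a c τ) ∂p.P ≤
      (4 * (p.m : ℝ) + 1) ^ 2 * π * I.card := by
    simp only [sum_mul_sum]
    rw [integral_finsetSum _ fun i hi =>
      (FP95.Nice.sum I fun j hj => (nx i hi).mul (nx j hj)).int _, mul_comm, ← nsmul_eq_mul]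
    refine sum_le_card_nsmul _ _ _ fun c hc => ?_
    have hπ : p.pr (A p B Γ Z o a c) ≤ π := (hI c hc).2.2
    rw [integral_finsetSum _ fun j hj => ((nx c hc).mul (nx j hj)).int _,
      ← sum_filter_of_ne (p := fun c' => n1 (c' - c) ≤ 2 * (p.m : ℝ)) fun c' hc' hne => ?_]
    · refine (sum_le_card_nsmul _ _ π fun c' _ => (xi_le p B Γ o a hZ c c').trans hπ).trans ?_
      rw [nsmul_eq_mul]
      refine mul_le_mul_of_nonneg_right ((card_near _ c (t := 2 * (p.m : ℝ)) (by positivity)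
        fun w hw => (mem_filter.1 hw).2).trans_eq (by ring)) ((p.pr_nonneg _).trans hπ)
    · by_contra hn
      exact hne (xi_orth p B Γ o a hO hae hΓ hZ (by rw [← n1_neg', neg_sub]; exact not_le.1 hn)
        (hI c hc).2.1 (hI c' hc').2.1)
  have e3 : p.kap * p.d / 2 * ∑ c ∈ I, p.pr (C c) ≤
      ∫ τ, Psi o x t H τ * ∑ c ∈ I, xi p B Γ Z o a c τ ∂p.P := by
    simp only [mul_sum]
    rw [integral_finsetSum _ fun i hi => (nP.mul (nx i hi)).int _]
    exact sum_le_sum fun c hc => cov p B Γ o a hae hZ hH (hI c hc).2.1 (hC c) (hs c)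
  rw [hrep _ nX hout] at e3
  have n2 : Nice fun τ => g τ ^ 2 := by simpa only [sq] using ng.mul ng
  have j1 := (n2.int p.P).const_mul (lam / 2)
  have j2 := ((nX.mul nX).int p.P).const_mul (1 / (2 * lam))
  have e4 := integral_mono ((ng.mul nX).int p.P) (j1.add j2) fun τ => by
    show g τ * _ ≤ lam / 2 * g τ ^ 2 + 1 / (2 * lam) * (_ * _)
    generalize g τ = u
    generalize ∑ c ∈ I, xi p B Γ Z o a c τ = v
    have : lam / 2 * u ^ 2 + 1 / (2 * lam) * (v * v) - u * v = (lam * u - v) ^ 2 / (2 * lam) := by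
      field_simp; ring
    have h2 : 0 ≤ (lam * u - v) ^ 2 / (2 * lam) := by positivity
    linarith
  simp only [Pi.add_apply] at e4
  rw [integral_add j1 j2, integral_const_mul, integral_const_mul] at e4
  have e5 := mul_le_mul_of_nonneg_left hg (by positivity : 0 ≤ lam / 2)
  have e6 := mul_le_mul_of_nonneg_left e2 (by positivity : 0 ≤ 1 / (2 * lam))
  have e7 : 1 / (2 * lam) * ((4 * (p.m : ℝ) + 1) ^ 2 * π * I.card) =
      (4 * (p.m : ℝ) + 1) ^ 2 * π / (2 * lam) * I.card := by ring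
  linarith

end MARTB

theorem bMARTB (hK : St_KIT) (hO : St_ORTH) : St_MARTB := by
  intro p o x a π α t H lam I hl hH hπ hα
  obtain ⟨-, hae, -, hE, -⟩ := hK.2 p
  have e : ∀ τ : Cfg, mk ∅ p.r0 τ = τ := SX21.bKIT.1 p.r0
  refine MARTB.core p ∅ p.r0 o a hO hae le_rfl MeasurableSet.univ I hl hH
    (fun c _ => ⟨Set.disjoint_empty _, fun _ _ _ _ => trivial, ?_⟩)
    (SX21.KIT.rep p.toPar ∅ Set.univ o x t H α hH MeasurableSet.univ (by rwa [Set.inter_univ]))
    _ (fun c => (hE o x a c).inter ((measurableSet_le measurable_const (T_meas o x)).inter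
      (measurableSet_le (T_meas o x) measurable_const))) fun c τ h => ⟨⟨?_, trivial⟩, ?_, h.2⟩
  · simp only [e, Set.inter_univ]
    exact hπ c
  · show T (sb p.r0 p.m c (mk ∅ p.r0 τ)) o c < a c
    rw [e]
    exact h.1.2
  · have h1 : T (sb p.r0 p.m c τ) o c + T (sb p.r0 p.m c τ) x c + p.d / 2 ≤ T τ o x := h.1.1
    linarith [T_tri (sb p.r0 p.m c τ) o c x, T_comm (sb p.r0 p.m c τ) c x]

end Pool.Agent.Lib.SO4
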