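import Pool.Agent.Lib.SO4.Blue
import Pool.Agent.Lib.SO4.Ch83

/-! Row PEIB: chains with many bad sites are rare. -/

namespace Pool.Agent.Lib.SO4

open MeasureTheory ProbabilityTheory Finset Pool.Agent.Lib.FP95
open Pool.Agent.Lib.MP_eba68f_pr hiding Nice
open scoped NNReal ENNReal

namespace PEIB

theorem walk_le {g : ℕ → V} {k : ℕ} (h : ∀ j, j < k → G.Adj (g j) (g (j + 1))) :
    ∀ j, j ≤ k → n1 (g j - g 0) ≤ j := by
  intro j
  induction j with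
  | zero => exact fun _ => by simp [n1]
  | succ j ih =>
    intro hj
    have h1 := n1_tri (g 0) (g j) (g (j + 1))
    rw [n1_adj (h j hj)] at h1
    have h2 := ih (by omega)
    push_cast
    linarith

theorem bad_dep (hi : ℝ≥0) (k : ℕ) (y : V) (τ τ' : Cfg) (h : ∀ e ∈ near y k, τ e = τ' e)
    (hτ : τ ∈ Bad hi k y) : τ' ∈ Bad hi k y := by
  obtain ⟨g, rfl, h1, h2⟩ := hτ
  refine ⟨g, rfl, fun j hj => ⟨(h1 j hj).1, ?_⟩, h2⟩
  rw [← h _ fun z hz => ?_]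
  · exact (h1 j hj).2
  · have w := walk_le fun j hj => (h1 j hj).1
    rcases Sym2.mem_iff.1 hz with rfl | rfl
    · exact (w j hj.le).trans (Nat.cast_le.2 hj.le)
    · exact (w (j + 1) hj).trans (Nat.cast_le.2 hj)

theorem bad_meas (hi : ℝ≥0) (k : ℕ) (y : V) : MeasurableSet (Bad hi k y) := by
  have e : Bad hi k y = ⋃ l : List V, {τ : Cfg | l.getD 0 0 = y ∧
      (∀ j, j < k → G.Adj (l.getD j 0) (l.getD (j + 1) 0) ∧
        τ s(l.getD j 0, l.getD (j + 1) 0) ≤ hi) ∧ (k : ℝ) ≤ n1 (l.getD k 0 - y)} := by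
    ext τ
    rw [Set.mem_iUnion]
    constructor
    · rintro ⟨g, h0, h1, h2⟩
      have e1 : ∀ j, j ≤ k → ((List.range (k + 1)).map g).getD j 0 = g j := fun j hj => by
        simp [List.getD, Nat.lt_succ_of_le hj]
      refine ⟨(List.range (k + 1)).map g, (e1 0 (Nat.zero_le _)).trans h0, fun j hj => ?_, ?_⟩
      · rw [e1 j hj.le, e1 (j + 1) hj]
        exact h1 j hj
      · rw [e1 k le_rfl]
        exact h2
    · rintro ⟨l, h⟩
      exact ⟨fun j => l.getD j 0, h⟩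
  rw [e]
  refine MeasurableSet.iUnion fun l => (MeasurableSet.const _).inter
    (MeasurableSet.inter ?_ (MeasurableSet.const _))
  have e2 : {τ : Cfg | ∀ j, j < k → G.Adj (l.getD j 0) (l.getD (j + 1) 0) ∧
      τ s(l.getD j 0, l.getD (j + 1) 0) ≤ hi} = ⋂ j, ⋂ _ : j < k,
      {τ : Cfg | G.Adj (l.getD j 0) (l.getD (j + 1) 0) ∧
        τ s(l.getD j 0, l.getD (j + 1) 0) ≤ hi} := by
    ext τ
    simp only [Set.mem_ofPred_eq, Set.mem_iInter]
  have e3 : MeasurableSet {τ : Cfg | ∀ j, j < k → G.Adj (l.getD j 0) (l.getD (j + 1) 0) ∧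
      τ s(l.getD j 0, l.getD (j + 1) 0) ≤ hi} := by
    rw [e2]
    exact MeasurableSet.iInter fun j => MeasurableSet.iInter fun _ =>
      (MeasurableSet.const _).inter (measurableSet_le (α := ℝ≥0) (measurable_pi_apply _)
        measurable_const)
  exact e3

end PEIB

theorem bPEIB : St_PEIB := by
  classical
  intro p x hx hB hs v n hn
  have m1 : (1 : ℝ) ≤ p.m := by exact_mod_cast Nat.le_add_left 1 (2 * p.k)
  have hm : (p.m : ℝ) = 2 * p.k + 1 := by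
    unfold So.m
    push_cast
    ring
  have key := CH83.peierls p.toPar (Bad p.hi p.k) p.k p.m (x ^ 2) (by linarith)
    (PEIB.bad_meas _ _) (PEIB.bad_dep _ _) hB v n ((n + 1) / 2)
  have a0 : (1 : ℝ) ≤ (2 * (p.m : ℝ) + 1) ^ 2 := by nlinarith
  have a1 : (1 : ℝ) ≤ (p.m : ℝ) ^ 2 := by nlinarith
  have a2 : 2 * (2 * (p.m : ℝ) + 1) ^ 2 * x ≤ 1 / 2 * ((p.m : ℝ) ^ 2)⁻¹ := by
    rw [← div_eq_mul_inv, le_div_iff₀ (by linarith)]
    linarith
  have a3 : x ≤ 1 := by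
    have : (1 : ℝ) * 1 ≤ (2 * (p.m : ℝ) + 1) ^ 2 * (p.m : ℝ) ^ 2 :=
      mul_le_mul a0 a1 zero_le_one (by linarith)
    nlinarith
  refine (p.pr_mono ?_).trans (key.trans ?_)
  · rintro τ ⟨y, h0, ⟨h1, h2⟩, h3⟩
    refine ⟨y, (range n).filter fun j => τ ∈ Bad p.hi p.k (y j), h0, fun j hj => (h1 j hj).le,
      fun i j hi hj hij => ?_, filter_subset _ _, by omega, fun j hj => (mem_filter.1 hj).2⟩
    have h4 : (p.m : ℝ) ≤ n1 (y i - y j) := h2 i j hi.le hj.le hij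
    linarith
  · have b1 : (x ^ 2) ^ ((n + 1) / 2) ≤ x ^ n := by
      rw [← pow_mul]
      exact pow_le_pow_of_le_one hx a3 (by omega)
    have b2 : (((p.m : ℝ) ^ 2)⁻¹) ^ n ≤ ((p.m : ℝ) ^ 2)⁻¹ :=
      pow_le_of_le_one (by positivity) (inv_le_one_of_one_le₀ a1) (by omega)
    calc (2 * (2 * (p.m : ℝ) + 1) ^ 2) ^ n * (x ^ 2) ^ ((n + 1) / 2)
        ≤ (2 * (2 * (p.m : ℝ) + 1) ^ 2) ^ n * x ^ n :=
          mul_le_mul_of_nonneg_left b1 (by positivity)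
      _ = (2 * (2 * (p.m : ℝ) + 1) ^ 2 * x) ^ n := (mul_pow _ _ _).symm
      _ ≤ (1 / 2 * ((p.m : ℝ) ^ 2)⁻¹) ^ n := pow_le_pow_left₀ (by positivity) a2 n
      _ = (1 / 2) ^ n * (((p.m : ℝ) ^ 2)⁻¹) ^ n := mul_pow _ _ _
      _ ≤ (1 / 2) ^ n / (p.m : ℝ) ^ 2 := by
          rw [div_eq_mul_inv ((1 / 2 : ℝ) ^ n)]
          exact mul_le_mul_of_nonneg_left b2 (by positivity)

end Pool.Agent.Lib.SO4
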