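import Pool.Agent.Lib.SO4.Blue
import Pool.Agent.Lib.SB97.B_RESET

/-! Row RESET for the abstract system. -/

namespace Pool.Agent.Lib.SO4

open MeasureTheory ProbabilityTheory Filter Topology Finset Pool.Agent.Lib.FP95
open Pool.Agent.Lib.MP_eba68f_pr hiding Nice
open Pool.Agent.Lib.SL94 (SW T)
open Pool.Agent.Lib.SB97 (Qt)
open scoped NNReal ENNReal

namespace RESET

lemma apart (p : Ab) {u y z : V} {w i j L : ℕ} (hy : Sh p u w i y) (hz : Sh p u w j z)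
    (hij : i + 2 ≤ j) (hL : 2 * L ≤ w) : Disjoint (p.nr z L) (p.nr y L) := by
  refine p.nr_disjoint ?_
  have h1 : (i + 1) * w + 2 * L ≤ j * w :=
    calc (i + 1) * w + 2 * L ≤ (i + 1) * w + w := Nat.add_le_add_left hL _
      _ = (i + 2) * w := by ring
      _ ≤ j * w := Nat.mul_le_mul_right _ hij
  have h2 : (((i + 1) * w : ℕ) : ℝ) + 2 * L ≤ ((j * w : ℕ) : ℝ) := by exact_mod_cast h1
  linarith [hy.2, hz.1, p.nn_tri u y z]

end RESET

open RESET in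
open Pool.Agent.Lib.SL94 (T_tri T_meas) in
open Pool.Agent.Lib.SB97.RESET (lowT parity) in
theorem bRESET (hH : SB97.St_HAR) (hP : SB97.St_PLANT) : St_RESET := by
  intro p hR K g π c k ρ M w L hK hLin hg hc hG u v α t θ₁ θ₂ H₁ H₂ hα hα2 hQ hA1 hA2 hπ hM hw hρ
    c1 c2 c3 c4 c5 c6 c7
  have hq := p.q_pos'
  have hd := p.d_pos
  have a1 : 0 < α * θ₁ := mul_pos hα hA1.1
  have a2 : 0 < α * θ₁ * θ₂ := mul_pos a1 hA2.1
  have b1 : α * θ₁ ≤ 1 / 2 := (mul_le_of_le_one_right hα.le hA1.2.1).trans hα2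
  have b2 : α * θ₁ * θ₂ ≤ 1 / 2 := (mul_le_of_le_one_right a1.le hA2.2.1).trans b1
  have r0 : (0 : ℝ) ≤ ρ := Nat.cast_nonneg _
  rw [Nat.cast_add, Nat.cast_mul 2 ρ, Nat.cast_ofNat] at c7
  rcases hR.1 u v M w α θ₁ t H₁ hM hw hα hα2 hA1 hQ (by linarith) c1 with
    h | ⟨S, y, z, A, B, C, hS, h⟩
  · exact Or.inl h
  right
  by_cases h2 : p.q * (α * θ₁) ^ 2 / 2 ≤ p.pr {τ | T τ u v ≤ t - H₂}
  · exact Or.inl h2
  right
  have key : ∀ i ∈ S, ∃ Φ W : Set Cfg, MeasurableSet Φ ∧ IsLowerSet Φ ∧ MeasurableSet W ∧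
      IsLowerSet W ∧ (p.nr (z i) L).Finite ∧
      (∀ τ τ' : Cfg, (∀ e ∈ p.nr (z i) L, τ e = τ' e) → τ ∈ Φ → τ' ∈ Φ) ∧
      c * (α * θ₁ * θ₂) ^ k / 2 ≤ p.pr Φ ∧ p.q ^ 2 * (α * θ₁) * (α * θ₁ * θ₂) ≤ p.pr W ∧
      Φ ∩ W ⊆ {τ | T τ u v ≤ t - g} := by
    intro i hi
    obtain ⟨-, iM, adj, -, shz, qA, qB, hAB⟩ := h i hi
    have d1 : (((i + 1) * w : ℕ) : ℝ) ≤ (((M + 1) * w : ℕ) : ℝ) :=
      Nat.cast_le.2 (Nat.mul_le_mul_right _ (Nat.succ_le_succ iM))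
    have d2 : (((1 + 1) * ρ : ℕ) : ℝ) = 2 * ρ := by push_cast; ring
    have d3 : (((1 + 1) * ρ : ℕ) : ℝ) ≤ p.nn (v - z i) := by
      linarith [shz.2, p.nn_tri u (z i) v]
    have l1 := (lowT qA.2).inter hH (lowT adj) hq.le
    rcases hR.1 (z i) v 1 ρ (α * θ₁) θ₂ (B i) H₂ le_rfl hρ a1 b1 hA2 qB d3
      (by rw [Nat.cast_one, one_mul]; exact c2) with h' | ⟨S', y', z', A', B', C', hS', h'⟩
    · refine absurd (le_trans ?_ ((l1.inter hH (lowT h') (by positivity)).2.2.trans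
        (p.pr_mono ?_))) h2
      · exact le_of_eq (by ring)
      · rintro τ ⟨⟨k1, k2⟩, k3⟩
        have k1' : T τ u (y i) ≤ A i := k1
        have k2' : T τ (y i) (z i) ≤ C i := k2
        have k3' : T τ (z i) v ≤ B i - H₂ + p.d / 2 := k3
        show T τ u v ≤ t - H₂
        linarith [T_tri τ u (y i) v, T_tri τ (y i) (z i) v]
    · obtain ⟨j, hj⟩ := card_pos.1 (by omega : 0 < S'.card)
      obtain ⟨j1, j2, adj', shy', -, qA', qB', hAB'⟩ := h' j hj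
      obtain rfl : j = 1 := le_antisymm j2 j1
      have e1 : (ρ : ℝ) ≤ p.nn (y' 1 - z i) := by
        have := shy'.1
        rw [one_mul] at this
        exact this.le
      have e2 : p.nn (y' 1 - z i) ≤ 2 * ρ := d2 ▸ shy'.2
      have e3 := hG (z i) (y' 1) _ _ e1 hπ b2 qA'
      have e4 := (hLin (z i) (y' 1) _ (qA'.1.trans b2)).trans (mul_le_mul_of_nonneg_left e2 hK.le)
      obtain ⟨Φ, m1, m2, m3, m4, m5⟩ := hR.2 (z i) (y' 1) (A' 1 - g + p.d / 2) L (by linarith)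
      have e5 : p.pr {τ | T τ (z i) (y' 1) ≤ A' 1 - g} ≤
          p.pr {τ | T τ (z i) (y' 1) < A' 1 - g + p.d / 2} :=
        p.pr_mono fun τ (hτ : T τ (z i) (y' 1) ≤ A' 1 - g) =>
          show T τ (z i) (y' 1) < A' 1 - g + p.d / 2 by linarith
      have l2 := (l1.inter hH (lowT adj') hq.le).inter hH (lowT qB'.2) a2.le
      refine ⟨Φ, _, m1, m2, l2.1, l2.2.1, p.nr_finite _ _, m3, by linarith,
        le_trans (le_of_eq (by ring)) l2.2.2, ?_⟩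
      rintro τ ⟨k0, ⟨⟨k1, k2⟩, k3⟩, k4⟩
      have k1' : T τ u (y i) ≤ A i := k1
      have k2' : T τ (y i) (z i) ≤ C i := k2
      have k3' : T τ (y' 1) (z' 1) ≤ C' 1 := k3
      have k4' : T τ (z' 1) v ≤ B' 1 := k4
      show T τ u v ≤ t - g
      linarith [m4 τ k0, T_tri τ u (y i) v, T_tri τ (y i) (z i) v,
        T_tri τ (z i) (y' 1) v, T_tri τ (y' 1) (z' 1) v]
  choose! Φ W hΦ using key
  obtain ⟨S₀, sub, hc0, hsep⟩ := parity S
  have x0 : 0 < c * (α * θ₁ * θ₂) ^ k := by positivity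
  refine hP p.toPar S₀ Φ W _ (fun i => p.nr (z i) L) _ (c * (α * θ₁ * θ₂) ^ k / 2) (by positivity)
    (by positivity) (measurableSet_le (T_meas u v) measurable_const)
    (fun i hi => hΦ i (sub hi)) (fun i hi j hj hij => ?_) ?_
  · rcases lt_or_gt_of_ne hij with h3 | h3
    · exact (apart p (h i (sub hi)).2.2.2.2.1 (h j (sub hj)).2.2.2.2.1 (hsep i hi j hj h3) c4).symm
    · exact apart p (h j (sub hj)).2.2.2.2.1 (h i (sub hi)).2.2.2.2.1 (hsep j hj i hi h3) c4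
  · have x1 : (M : ℝ) ≤ 4 * S₀.card := by exact_mod_cast (by omega : M ≤ 4 * S₀.card)
    have x2 := mul_le_mul_of_nonneg_right (mul_le_mul_of_nonneg_left x1
      (sq_nonneg (p.q ^ 2 * (α * θ₁) * (α * θ₁ * θ₂)))) x0.le
    linarith

end Pool.Agent.Lib.SO4
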