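import Pool.Agent.Lib.SO4.Blue

/-! Choice of the radius. -/

namespace Pool.Agent.Lib.SO4

open Filter Topology

namespace SMALL

lemma main (ρ : ℝ) (L : ℕ) (h0 : 0 ≤ ρ) (h1 : ρ < 1) (hL : 0 < L) : ∃ (k : ℕ) (x : ℝ), 1 ≤ k ∧
    0 ≤ x ∧ 4 * ρ ^ (k / L) ≤ x ^ 2 ∧
      4 * (2 * ((2 * k + 1 : ℕ) : ℝ) + 1) ^ 2 * ((2 * k + 1 : ℕ) : ℝ) ^ 2 * x ≤ 1 := by
  have hs0 : 0 ≤ Real.sqrt ρ := Real.sqrt_nonneg ρ
  have hs1 : |Real.sqrt ρ| < 1 := by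
    rw [abs_of_nonneg hs0]
    exact (Real.sqrt_lt' one_pos).2 (by simpa using h1)
  have hL1 : (1 : ℝ) ≤ L := by exact_mod_cast hL
  have hε : (0 : ℝ) < 1 / (3528 * (L : ℝ) ^ 4) := by positivity
  have ht := (tendsto_pow_const_mul_const_pow_of_abs_lt_one 4 hs1).eventually (gt_mem_nhds hε)
  obtain ⟨j, hj, hj1⟩ := (ht.and (eventually_ge_atTop 1)).exists
  have hj1' : (1 : ℝ) ≤ j := by exact_mod_cast hj1
  have hk : (1 : ℝ) ≤ (L : ℝ) * j := by nlinarith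
  have hp : 0 ≤ Real.sqrt ρ ^ j := pow_nonneg hs0 j
  refine ⟨L * j, 2 * Real.sqrt ρ ^ j, Nat.mul_pos hL hj1, by positivity, ?_, ?_⟩
  · rw [Nat.mul_div_cancel_left j hL, mul_pow, ← pow_mul, mul_comm j 2, pow_mul, Real.sq_sqrt h0]
    norm_num
  · push_cast
    have ha : (2 * (2 * ((L : ℝ) * j) + 1) + 1) ^ 2 ≤ (7 * ((L : ℝ) * j)) ^ 2 :=
      pow_le_pow_left₀ (by positivity) (by linarith) 2
    have hb : (2 * ((L : ℝ) * j) + 1) ^ 2 ≤ (3 * ((L : ℝ) * j)) ^ 2 :=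
      pow_le_pow_left₀ (by positivity) (by linarith) 2
    have hc : (j : ℝ) ^ 4 * Real.sqrt ρ ^ j * (3528 * (L : ℝ) ^ 4) ≤ 1 :=
      ((lt_div_iff₀ (by positivity)).1 hj).le
    calc 4 * (2 * (2 * ((L : ℝ) * j) + 1) + 1) ^ 2 * (2 * ((L : ℝ) * j) + 1) ^ 2 *
          (2 * Real.sqrt ρ ^ j)
        ≤ 4 * (7 * ((L : ℝ) * j)) ^ 2 * (3 * ((L : ℝ) * j)) ^ 2 * (2 * Real.sqrt ρ ^ j) := by
          gcongr
      _ = (j : ℝ) ^ 4 * Real.sqrt ρ ^ j * (3528 * (L : ℝ) ^ 4) := by ring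
      _ ≤ 1 := hc

end SMALL

theorem bSMALL : St_SMALL := fun ρ L h0 h1 hL => SMALL.main ρ L h0 h1 hL

end Pool.Agent.Lib.SO4
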