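import Pool.Agent.Lib.SO4.Blue
import Pool.Agent.Lib.SB97.B_STEP

/-! Row STEP: one round for an abstract law. -/

namespace Pool.Agent.Lib.SO4

open MeasureTheory ProbabilityTheory Filter Topology Finset Pool.Agent.Lib.FP95
open Pool.Agent.Lib.MP_eba68f_pr hiding Nice
open Pool.Agent.Lib.SL94 (SW T)
open Pool.Agent.Lib.SB97 (Qt)
open scoped NNReal ENNReal

theorem bSTEP (hC : St_CONCAT) (hR : St_RESET) : St_STEP := by
  intro p hRa K g π θ H C₀ ρ M hK hL hC₀ hKC hA hq hθ hg hH hρ hπ hπ1 hM hP hG u v α t huv hπα hα hQ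
  have θ0 : 0 < θ := hA.1
  have θ1 : θ ≤ 1 := hA.2.1
  have α0 : 0 < α := hπ.trans_le hπα
  have d0 : 0 < p.d := p.d_pos
  have ρ2 : (2 : ℝ) ≤ ρ := by exact_mod_cast hρ
  have C2 : (2 : ℝ) ≤ C₀ := by exact_mod_cast hC₀
  have M1 : 1 ≤ M := by
    rcases Nat.eq_zero_or_pos M with h | h
    · subst h
      norm_num at hM
    · exact h
  have M1' : (1 : ℝ) ≤ M := by exact_mod_cast M1
  have CM : (2 : ℝ) ≤ C₀ * M := by nlinarith
  have X3 : 3 * (ρ : ℝ) ≤ 2 * (C₀ : ℝ) * M * ρ := by nlinarith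
  have ρC : ρ ≤ C₀ * ρ := Nat.le_mul_of_pos_left ρ (by omega)
  have e2 : 2 * C₀ * ρ = 2 * (C₀ * ρ) := by ring
  have g1 : Gain p (2 * g + p.d / 2) ((3 * ρ : ℕ) : ℝ) (π * θ ^ 2) 4 (θ ^ 17) := by
    have h := hC p hRa g (π * θ ^ 2) θ H ρ hA hq hθ hH hρ (by positivity)
      (((SB97.STEP.tail (by linarith) (by linarith) (by omega)).trans hP).trans
        (SB97.STEP.small hπ hπ1 θ0 θ1 2 (by norm_num)))
      (by rw [show π * θ ^ 2 * θ = π * θ ^ 3 by ring]; exact hG)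
    push_cast
    exact h
  have α4 : π ^ 4 ≤ α ^ 4 := pow_le_pow_left₀ hπ.le hπα 4
  have α8 : π ^ 8 ≤ α ^ 8 := pow_le_pow_left₀ hπ.le hπα 8
  have q4 : θ ^ 4 ≤ p.q ^ 4 := pow_le_pow_left₀ θ0.le hq 4
  have q2 : θ ^ 2 ≤ p.q ^ 2 := pow_le_pow_left₀ θ0.le hq 2
  have a1 : π * θ ^ 2 ≤ α * θ * θ := by
    have := mul_le_mul_of_nonneg_right hπα (sq_nonneg θ)
    nlinarith
  have a2 : 200 * ((M : ℝ) * ((2 * C₀ * ρ : ℕ) : ℝ)) ^ 2 * (1 / 2) ^ (2 * C₀ * ρ - 1) ≤ α := by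
    have h1 : (M : ℝ) * ((2 * C₀ * ρ : ℕ) : ℝ) ≤ 2 * (C₀ : ℝ) * M * ρ := by
      push_cast
      exact le_of_eq (by ring)
    have h2 := ((SB97.STEP.tail (n := 2 * C₀ * ρ - 1) (by positivity) h1 (by omega)).trans hP).trans
      (SB97.STEP.small hπ hπ1 θ0 θ1 0 (by norm_num))
    rw [pow_zero, mul_one] at h2
    exact h2.trans hπα
  have a3 : 200 * ((3 * ρ : ℕ) : ℝ) ^ 2 * (1 / 2) ^ (3 * ρ - 1) ≤ α * θ := by
    have h1 : ((3 * ρ : ℕ) : ℝ) ≤ 2 * (C₀ : ℝ) * M * ρ := by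
      push_cast
      exact X3
    have h2 := ((SB97.STEP.tail (n := 3 * ρ - 1) (by positivity) h1 (by omega)).trans hP).trans
      (SB97.STEP.small hπ hπ1 θ0 θ1 1 (by norm_num))
    rw [pow_one] at h2
    exact h2.trans (mul_le_mul_of_nonneg_right hπα θ0.le)
  have a4 : 4 * K * ((3 * ρ : ℕ) : ℝ) + p.d ≤ p.hi * ((C₀ * ρ : ℕ) : ℝ) := by
    push_cast
    have h1 := mul_le_mul_of_nonneg_right hKC (by linarith : (0 : ℝ) ≤ ρ)
    nlinarith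
  have a5 : (1 / 2 : ℝ) ^ (C₀ * ρ) ≤ θ ^ 17 * (α * θ * θ) ^ 4 / 2 := by
    have h1 := (SB97.STEP.tail (x := 1) (n := C₀ * ρ) (by norm_num) (by linarith) (by omega)).trans hP
    have h2 := mul_le_mul_of_nonneg_right α4 (pow_nonneg θ0.le 25)
    have h3 : (0 : ℝ) ≤ (1 / 2) ^ (C₀ * ρ) := by positivity
    have h4 : θ ^ 17 * (α * θ * θ) ^ 4 / 2 = α ^ 4 * θ ^ 25 / 2 := by ring
    rw [h4]
    linarith
  have a6 : 32 ≤ (p.q ^ 2 * (α * θ) * (α * θ * θ)) ^ 2 * M * (θ ^ 17 * (α * θ * θ) ^ 4) := by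
    have h1 := mul_le_mul α8 q4 (by positivity) (by positivity)
    have h2 := mul_le_mul_of_nonneg_right h1 (by positivity : (0 : ℝ) ≤ θ ^ 31 * M)
    calc (32 : ℝ) ≤ π ^ 8 * θ ^ 35 * M := hM
      _ = π ^ 8 * θ ^ 4 * (θ ^ 31 * M) := by ring
      _ ≤ α ^ 8 * p.q ^ 4 * (θ ^ 31 * M) := h2
      _ = _ := by ring
  have a7 : (((M + 1) * (2 * C₀ * ρ) + 2 * (3 * ρ) : ℕ) : ℝ) ≤ p.nn (v - u) := by
    refine le_trans ?_ huv
    have h1 : (M + 1) * (2 * C₀ * ρ) + 2 * (3 * ρ) ≤ (4 * C₀ + 6) * M * ρ := by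
      have h2 : C₀ * ρ ≤ M * (C₀ * ρ) := Nat.le_mul_of_pos_left _ M1
      have h3 : ρ ≤ M * ρ := Nat.le_mul_of_pos_left _ M1
      nlinarith
    exact_mod_cast h1
  have α2 : 0 ≤ α ^ 2 := sq_nonneg α
  rcases hR p hRa K (2 * g + p.d / 2) (π * θ ^ 2) (θ ^ 17) 4 (3 * ρ) M (2 * C₀ * ρ) (C₀ * ρ) hK hL
    (by linarith) (by positivity) g1 u v α t θ θ H H α0 hα hQ hA hA a1 M1 (by omega) (by omega)
    a2 a3 a4 (by omega) a5 a6 a7 with h | h | h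
  · refine le_trans ?_ (h.trans (p.pr_mono fun τ hτ => ?_))
    · have h1 : θ ^ 6 ≤ 1 := pow_le_one₀ θ0.le θ1
      have h2 := mul_le_mul_of_nonneg_right h1 α2
      nlinarith
    · have h1 : T τ u v ≤ t - H + p.d / 2 := hτ
      change T τ u v ≤ t - (2 * g + p.d / 2)
      linarith
  · refine le_trans ?_ (h.trans (p.pr_mono fun τ hτ => ?_))
    · have h1 : θ ^ 4 ≤ θ ^ 2 := pow_le_pow_of_le_one θ0.le θ1 (by norm_num)
      have h2 : θ ^ 4 ≤ p.q / 2 := by nlinarith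
      have h3 := mul_le_mul_of_nonneg_right h2 (by positivity : (0 : ℝ) ≤ (α * θ) ^ 2)
      calc θ ^ 6 * α ^ 2 = θ ^ 4 * (α * θ) ^ 2 := by ring
        _ ≤ p.q / 2 * (α * θ) ^ 2 := h3
        _ = _ := by ring
    · have h1 : T τ u v ≤ t - H := hτ
      change T τ u v ≤ t - (2 * g + p.d / 2)
      linarith
  · refine le_trans ?_ h
    have h1 := mul_le_mul hθ q2 (by positivity) (by norm_num)
    have h2 := mul_le_mul_of_nonneg_right h1 (by positivity : (0 : ℝ) ≤ θ ^ 3 * α ^ 2)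
    calc θ ^ 6 * α ^ 2 = θ * θ ^ 2 * (θ ^ 3 * α ^ 2) := by ring
      _ ≤ 1 / 2 * p.q ^ 2 * (θ ^ 3 * α ^ 2) := h2
      _ = _ := by ring

end Pool.Agent.Lib.SO4
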