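import Pool.Agent.Lib.SO4.Blue
import Pool.Agent.Lib.SL94.B_FIN

/-! Row SYS: choice of the constants for a law with an atom at its positive minimum. -/

namespace Pool.Agent.Lib.SO4

open MeasureTheory ProbabilityTheory Pool.Agent.Lib.FP95
open Pool.Agent.Lib.MP_eba68f_pr hiding Nice
open scoped NNReal ENNReal

theorem bSYS (hB : St_BRIDGE) (hS : St_SMALL) (hP : St_PEIB) : St_SYS := by
  intro p r r0 hFr ha h0
  obtain ⟨hi, rh, h2, hh⟩ := SL94.FIN.level p.F r (2 * r) hFr (by linarith) _ h0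
  have hc : p.F.real (Set.Iic hi) < orientedCrit :=
    ENNReal.toReal_lt_of_lt_ofReal hh
  obtain ⟨ρ, L, ρ0, ρ1, L0, hb⟩ := hB p hi hc
  obtain ⟨k, x, k1, x0, hx, hk⟩ := hS ρ L ρ0 ρ1 L0
  let s : So :=
    { p with
      r0 := r
      hi := hi
      k := k
      r0_pos := r0
      lt := rh
      le := by exact_mod_cast h2
      supp := hFr
      atom := ENNReal.toReal_pos
        (ha.trans_le (measure_mono (Set.singleton_subset_iff.2 (Set.mem_Iic.2 le_rfl)))).ne'
        (measure_ne_top _ _)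
      k_ge := k1 }
  exact ⟨s, rfl, hP s x x0 (fun y => (hb k y).trans hx) hk⟩

end Pool.Agent.Lib.SO4
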