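import Pool.Agent.Lib.SO4.B_KIT
import Pool.Agent.Lib.SO4.B_PEIB
import Pool.Agent.Lib.SO4.B_CHAIN
import Pool.Agent.Lib.SO4.B_GAP
import Pool.Agent.Lib.SO4.B_ORTH
import Pool.Agent.Lib.SO4.B_MARTB
import Pool.Agent.Lib.SO4.B_MARK
import Pool.Agent.Lib.SO4.B_DET
import Pool.Agent.Lib.SO4.B_DICH
import Pool.Agent.Lib.SO4.B_LOC
import Pool.Agent.Lib.SO4.B_CONCAT
import Pool.Agent.Lib.SO4.B_RESET
import Pool.Agent.Lib.SO4.B_STEP
import Pool.Agent.Lib.SO4.B_ITER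
import Pool.Agent.Lib.SO4.B_TOP
import Pool.Agent.Lib.SO4.B_CORE
import Pool.Agent.Lib.SO4.B_BRIDGE
import Pool.Agent.Lib.SO4.B_SMALL
import Pool.Agent.Lib.SO4.B_SYS
import Pool.Agent.Lib.SO4.B_FIN
import Pool.Agent.Lib.SBW.All

/-! Assembly of the rows, laws below the oriented threshold. -/

namespace Pool.Agent.Lib.SO4

theorem st_MARK : St_MARK := bMARK bKIT (bMARTB bKIT bORTH)

theorem st_DICH : St_DICH := bDICH SB97.bQUANT bKIT (bDET bKIT bCHAIN bGAP) st_MARK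

theorem st_RESET : St_RESET := bRESET SB97.bHAR (SB97.bPLANT SB97.bHAR)

theorem st_TOP : St_TOP :=
  bTOP SB97.bQUANT (bITER (bSTEP (bCONCAT SB97.bHAR) st_RESET)) st_RESET SB97.bVAR

theorem st_CORE : St_CORE (1 / 3) := bCORE st_TOP SB97.bARITH SB97.bRATE

theorem st_SYS : St_SYS := bSYS bBRIDGE bSMALL bPEIB

theorem fin_of_core (γ : ℝ) (h1 : SBW.St_FIN1 γ) (h : St_CORE γ) : St_FIN γ :=
  bFIN γ h1 (fun p x hx hI => SBW.lin1 p x hx hI) bKIT st_SYS st_DICH (bLOC bKIT) h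

theorem st_FIN : St_FIN (1 / 3) := fin_of_core _ SBW.st_FIN1 st_CORE

end Pool.Agent.Lib.SO4
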