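import Pool.Agent.Lib.SO4.Blue
import Pool.Agent.Lib.SB97.B_HAR

/-! Row KIT2: the planted ball by the inequality of Harris, and quantiles. -/

namespace Pool.Agent.Lib.SO4

open MeasureTheory ProbabilityTheory Filter Topology Finset Pool.Agent.Lib.FP95
open Pool.Agent.Lib.MP_eba68f_pr hiding Nice
open Pool.Agent.Lib.SL94 (SW T T_nonneg T_mono T_meas pr_all meas_all)
open scoped NNReal ENNReal

namespace KIT2

theorem sb_meas (r : ℝ≥0) (m : ℕ) (c : V) : Measurable (sb r m c) := by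
  refine measurable_pi_lambda _ fun e => ?_
  unfold sb
  split_ifs
  · exact measurable_const
  · exact measurable_pi_apply e

theorem sb_mono (r : ℝ≥0) (m : ℕ) (c : V) : Monotone (sb r m c) := fun τ τ' h e => by
  unfold sb
  split_ifs
  · exact le_rfl
  · exact h e

theorem R_meas (p : So) (o c : V) : Measurable fun τ => p.R τ o c :=
  (T_meas o c).comp (sb_meas _ _ _)

theorem card_le (c : V) (m : ℕ) :
    (near_finite c m).toFinset.card ≤ (2 * m + 1) ^ 4 := by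
  classical
  have h1 : (near_finite c m).toFinset ⊆
      (((ball (m : ℝ)).image (· + c)) ×ˢ ((ball (m : ℝ)).image (· + c))).image
        fun i => s(i.1, i.2) := fun e he => by
    rw [Set.Finite.mem_toFinset] at he
    induction e using Sym2.ind with
    | h x y =>
      refine mem_image.2 ⟨(x, y), mem_product.2 ⟨?_, ?_⟩, rfl⟩
      · exact mem_image.2 ⟨x - c, mem_ball (he x (Sym2.mem_mk_left x y)), by simp⟩
      · exact mem_image.2 ⟨y - c, mem_ball (he y (Sym2.mem_mk_right x y)), by simp⟩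
  have h2 : (ball (m : ℝ)).card ≤ (2 * m + 1) ^ 2 := by
    exact_mod_cast card_ball (t := (m : ℝ)) (Nat.cast_nonneg m)
  have h3 : ((ball (m : ℝ)).image (· + c)).card ≤ (2 * m + 1) ^ 2 := card_image_le.trans h2
  refine (card_le_card h1).trans (card_image_le.trans ?_)
  rw [card_product]
  exact (Nat.mul_le_mul h3 h3).trans (le_of_eq (by ring))

theorem har (p : So) (o c : V) (s : ℝ) :
    p.kap * p.pr {τ | p.R τ o c ≤ s} ≤ p.pr {τ | T τ o c ≤ s} := by
  have h1 := SB97.bHAR p.toPar {τ | ∀ e ∈ (near_finite c p.m).toFinset, τ e ≤ p.r0}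
    {τ | p.R τ o c ≤ s} (meas_all _ _) (measurableSet_le (R_meas p o c) measurable_const)
    (fun τ τ' h k e he => (h e).trans (k e he))
    (fun τ τ' h k => (T_mono (sb_mono _ _ _ h) o c).trans k)
  rw [pr_all] at h1
  have := p.prob
  have h2 : p.kap ≤ p.F.real (Set.Iic p.r0) ^ (near_finite c p.m).toFinset.card :=
    pow_le_pow_of_le_one measureReal_nonneg measureReal_le_one (card_le c p.m)
  refine (mul_le_mul_of_nonneg_right h2 (p.pr_nonneg _)).trans (h1.trans (p.pr_mono ?_))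
  rintro τ ⟨k1, k2⟩
  refine (T_mono (fun e => ?_) o c).trans k2
  unfold sb
  split_ifs with h
  · exact k1 e ((Set.Finite.mem_toFinset _).2 h)
  · exact le_rfl

variable (p : Par) (f : Cfg → ℝ)

theorem mono {s t : ℝ} (h : s ≤ t) : p.pr {τ | f τ < s} ≤ p.pr {τ | f τ < t} :=
  p.pr_mono fun _ hτ => lt_of_lt_of_le hτ h

theorem lim : Tendsto (fun j : ℕ => p.pr {τ | f τ < (j : ℝ)}) atTop (𝓝 1) := by
  have hm : Monotone fun j : ℕ => {τ : Cfg | f τ < (j : ℝ)} := fun i j h τ hτ =>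
    show f τ < (j : ℝ) from lt_of_lt_of_le hτ (Nat.cast_le.2 h)
  have hu : (⋃ j : ℕ, {τ : Cfg | f τ < (j : ℝ)}) = Set.univ :=
    Set.eq_univ_of_forall fun τ => Set.mem_iUnion.2 (exists_nat_gt (f τ))
  have h := tendsto_measure_iUnion_atTop (μ := p.P) hm
  rw [hu, measure_univ] at h
  exact (ENNReal.tendsto_toReal ENNReal.one_ne_top).comp h

theorem quant (hf : Measurable f) (h0 : ∀ τ, 0 ≤ f τ) {β : ℝ} (b0 : 0 < β) (b1 : β < 1) :
    ∃ s, p.pr {τ | f τ < s} ≤ β ∧ β ≤ p.pr {τ | f τ ≤ s} := by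
  have ne : (0 : ℝ) ∈ {t | p.pr {τ | f τ < t} ≤ β} :=
    (p.pr_eq_zero fun τ hτ => absurd hτ (not_lt.2 (h0 τ))).trans_le b0.le
  have bdd : BddAbove {t | p.pr {τ | f τ < t} ≤ β} := by
    obtain ⟨j, hj⟩ := ((lim p f).eventually (lt_mem_nhds b1)).exists
    refine ⟨(j : ℝ), fun t ht => le_of_not_gt fun h => ?_⟩
    exact absurd ((mono p f h.le).trans ht) (not_le.2 hj)
  obtain ⟨Q, hQ⟩ : ∃ Q, Q = sSup {t | p.pr {τ | f τ < t} ≤ β} := ⟨_, rfl⟩
  refine ⟨Q, ?_, ?_⟩
  · have hm : Monotone fun j : ℕ => {τ : Cfg | f τ < Q - 1 / ((j : ℝ) + 1)} :=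
      fun i j h τ hτ => by
        have h1 : 1 / ((j : ℝ) + 1) ≤ 1 / ((i : ℝ) + 1) := Nat.one_div_le_one_div h
        have h2 : f τ < Q - 1 / ((i : ℝ) + 1) := hτ
        show f τ < Q - 1 / ((j : ℝ) + 1)
        linarith
    have hu : (⋃ j : ℕ, {τ : Cfg | f τ < Q - 1 / ((j : ℝ) + 1)}) = {τ | f τ < Q} := by
      ext τ
      simp only [Set.mem_iUnion, Set.mem_ofPred_eq]
      constructor
      · rintro ⟨j, hj⟩
        have : (0 : ℝ) < 1 / ((j : ℝ) + 1) := Nat.one_div_pos_of_nat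
        linarith
      · intro h
        obtain ⟨j, hj⟩ := exists_nat_one_div_lt (sub_pos.2 h)
        exact ⟨j, by linarith⟩
    have h := tendsto_measure_iUnion_atTop (μ := p.P) hm
    rw [hu] at h
    refine le_of_tendsto' ((ENNReal.tendsto_toReal (measure_ne_top _ _)).comp h) fun j => ?_
    have h3 : Q - 1 / ((j : ℝ) + 1) < sSup {t | p.pr {τ | f τ < t} ≤ β} :=
      hQ ▸ sub_lt_self _ Nat.one_div_pos_of_nat
    obtain ⟨t, ht, h4⟩ := exists_lt_of_lt_csSup ⟨0, ne⟩ h3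
    exact (mono p f h4.le).trans ht
  · have hm : Antitone fun j : ℕ => {τ : Cfg | f τ < Q + 1 / ((j : ℝ) + 1)} :=
      fun i j h τ hτ => by
        have h1 : 1 / ((j : ℝ) + 1) ≤ 1 / ((i : ℝ) + 1) := Nat.one_div_le_one_div h
        have h2 : f τ < Q + 1 / ((j : ℝ) + 1) := hτ
        show f τ < Q + 1 / ((i : ℝ) + 1)
        linarith
    have hu : (⋂ j : ℕ, {τ : Cfg | f τ < Q + 1 / ((j : ℝ) + 1)}) = {τ | f τ ≤ Q} := by
      ext τ
      simp only [Set.mem_iInter, Set.mem_ofPred_eq]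
      constructor
      · intro h
        refine le_of_not_gt fun h' => ?_
        obtain ⟨j, hj⟩ := exists_nat_one_div_lt (sub_pos.2 h')
        linarith [h j]
      · intro h j
        have : (0 : ℝ) < 1 / ((j : ℝ) + 1) := Nat.one_div_pos_of_nat
        linarith
    have h := tendsto_measure_iInter_atTop (μ := p.P)
      (fun j => (measurableSet_lt hf measurable_const).nullMeasurableSet) hm
      ⟨0, measure_ne_top _ _⟩
    rw [hu] at h
    refine ge_of_tendsto' ((ENNReal.tendsto_toReal (measure_ne_top _ _)).comp h) fun j => ?_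
    refine le_of_not_gt fun h2 => ?_
    have h3 : Q + 1 / ((j : ℝ) + 1) ≤ sSup {t | p.pr {τ | f τ < t} ≤ β} := le_csSup bdd h2.le
    have h4 : (0 : ℝ) < 1 / ((j : ℝ) + 1) := Nat.one_div_pos_of_nat
    linarith

end KIT2

theorem bKIT2 (p : So) :
    (∀ o c (s : ℝ), p.kap * p.pr {τ | p.R τ o c ≤ s} ≤ p.pr {τ | T τ o c ≤ s}) ∧
    ∀ (o c : V) (β : ℝ), 0 < β → β < 1 →
      ∃ s, p.pr {τ | p.R τ o c < s} ≤ β ∧ β ≤ p.pr {τ | p.R τ o c ≤ s} :=
  ⟨KIT2.har p, fun o c _ b0 b1 => KIT2.quant p.toPar (fun τ => p.R τ o c) (KIT2.R_meas p o c)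
    (fun _ => T_nonneg _ _ _) b0 b1⟩

end Pool.Agent.Lib.SO4
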