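import Pool.Agent.Lib.SO4.B_KIT1
import Pool.Agent.Lib.SO4.B_KIT2

/-! Row KIT: the two halves together. -/

namespace Pool.Agent.Lib.SO4

theorem bKIT : St_KIT :=
  ⟨bKIT1.1, fun p => ⟨(bKIT1.2 p).1, (bKIT1.2 p).2.1, (bKIT1.2 p).2.2.1, (bKIT1.2 p).2.2.2,
    (bKIT2 p).1, (bKIT2 p).2⟩⟩

end Pool.Agent.Lib.SO4
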