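import Pool.Agent.Lib.SO4.Blue

/-! Row KIT, first half: the box, the constants, measurability. -/

namespace Pool.Agent.Lib.SO4

open MeasureTheory ProbabilityTheory Filter Topology Finset Pool.Agent.Lib.FP95
open Pool.Agent.Lib.MP_eba68f_pr hiding Nice
open Pool.Agent.Lib.SL94 (SW T T_meas card_near)
open scoped NNReal ENNReal

namespace KIT1

theorem mem_Bx (u y : V) (n : ℕ) : y ∈ Bx u n ↔ n1 (y - u) ≤ n := by
  classical
  unfold Bx
  rw [mem_filter]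
  exact ⟨fun h => h.2, fun h => ⟨mem_image.2 ⟨y - u, mem_ball h, sub_add_cancel y u⟩, h⟩⟩

theorem card_Bx (u : V) (n : ℕ) : ((Bx u n).card : ℝ) ≤ (2 * (n : ℝ) + 1) ^ 2 :=
  card_near _ u (Nat.cast_nonneg n) fun w hw => (mem_Bx u w n).1 hw

theorem sb_meas (r : ℝ≥0) (m : ℕ) (c : V) : Measurable (sb r m c) := by
  refine measurable_pi_lambda _ fun e => ?_
  unfold sb
  by_cases h : e ∈ near c m
  · simp only [if_pos h]; exact measurable_const
  · simp only [if_neg h]; exact measurable_pi_apply e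

theorem R_meas (p : So) (o c : V) : Measurable fun τ => p.R τ o c :=
  (T_meas o c).comp (sb_meas p.r0 p.m c)

theorem Spot_meas (p : So) (o x c : V) : MeasurableSet (p.Spot o x c) :=
  measurableSet_le (((R_meas p o c).add (R_meas p x c)).add_const _) (T_meas o x)

theorem Ev_meas (p : So) (o x : V) (a : V → ℝ) (c : V) : MeasurableSet (p.Ev o x a c) :=
  (Spot_meas p o x c).inter (measurableSet_lt (R_meas p o c) measurable_const)

theorem ae_ge (p : So) : ∀ᵐ τ ∂p.P, ∀ e, p.r0 ≤ τ e := by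
  refine ae_all_iff.2 fun e => ?_
  have := (measurePreserving_eval_infinitePi (fun _ : Sym2 V => p.F) e).measure_preimage
    (s := Set.Iio p.r0) measurableSet_Iio.nullMeasurableSet
  rw [p.supp] at this
  rw [ae_iff]
  simp only [not_le]
  exact this

theorem consts (p : So) :
    0 < p.kap ∧ p.kap ≤ 1 ∧ 0 < p.q ∧ p.q ≤ p.kap ∧ 0 < p.d ∧ p.d ≤ p.hi ∧ 2 ≤ p.m := by
  have h0 : 0 < p.kap := pow_pos p.atom _
  have h1 : p.kap ≤ 1 := pow_le_one₀ p.atom.le measureReal_le_one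
  have hm : 2 ≤ p.m := by have := p.k_ge; unfold So.m; omega
  have hm' : (2 : ℝ) ≤ p.m := by exact_mod_cast hm
  have hD : (1 : ℝ) ≤ (4 * p.m + 1) * p.m := by nlinarith
  refine ⟨h0, h1, div_pos (pow_pos h0 2) (one_pos.trans_le hD), ?_,
    sub_pos.2 (NNReal.coe_lt_coe.2 p.lt), sub_le_self _ p.r0.coe_nonneg, hm⟩
  exact (div_le_self (pow_pos h0 2).le hD).trans (by nlinarith)

end KIT1

theorem bKIT1 :
    (∀ (u : V) (n : ℕ), (∀ y, y ∈ Bx u n ↔ n1 (y - u) ≤ n) ∧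
      ((Bx u n).card : ℝ) ≤ (2 * (n : ℝ) + 1) ^ 2) ∧
    ∀ p : So, (0 < p.kap ∧ p.kap ≤ 1 ∧ 0 < p.q ∧ p.q ≤ p.kap ∧ 0 < p.d ∧ p.d ≤ p.hi ∧ 2 ≤ p.m) ∧
      (∀ᵐ τ ∂p.P, ∀ e, p.r0 ≤ τ e) ∧ (∀ o c, Measurable fun τ => p.R τ o c) ∧
      ∀ o x a c, MeasurableSet (p.Ev o x a c) :=
  ⟨fun u n => ⟨fun y => KIT1.mem_Bx u y n, KIT1.card_Bx u n⟩,
    fun p => ⟨KIT1.consts p, KIT1.ae_ge p, KIT1.R_meas p, KIT1.Ev_meas p⟩⟩

end Pool.Agent.Lib.SO4
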