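import Mathlib

/-! Oriented bond percolation on the square lattice. -/

namespace Pool.Agent.Lib.SO4

open MeasureTheory ProbabilityTheory
open scoped ENNReal

/-- probability that an infinite oriented open path starts at the origin; the bond `(x, i)` joins
`x` to `x + e_i` and is open with probability `q`, independently of the others -/
noncomputable def orientedPerc (q : ℝ) : ℝ≥0∞ :=
  (Measure.infinitePi fun _ : (Fin 2 → ℤ) × Fin 2 =>
    bernoulliMeasure True False (Set.projIcc (0 : ℝ) 1 zero_le_one q))
    {ω | ∃ (f : ℕ → Fin 2 → ℤ) (i : ℕ → Fin 2), f 0 = 0 ∧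
      ∀ n, ω (f n, i n) ∧ f (n + 1) = f n + Pi.single (i n) 1}

/-- the critical probability of oriented bond percolation -/
noncomputable def orientedCrit : ℝ := sInf {q | q ∈ Set.Icc (0 : ℝ) 1 ∧ 0 < orientedPerc q}

end Pool.Agent.Lib.SO4
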