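import Pool.Agent.Lib.SB97.Blue
import Pool.Agent.Lib.SO4.Defs

/-! Definitions and rows for the iterated variance bound below the oriented threshold. -/

namespace Pool.Agent.Lib.SO4

open MeasureTheory ProbabilityTheory Filter Topology Finset Pool.Agent.Lib.FP95
open Pool.Agent.Lib.MP_eba68f_pr hiding Nice
open Pool.Agent.Lib.SL94 (SW T)
open Pool.Agent.Lib.SB97 (Qt)
open scoped NNReal ENNReal

/-! ### upper part: a law with four numbers -/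

/-- a weight law with the constants of the dichotomy -/
structure Ab extends Par where
  q : ℝ
  d : ℝ
  hi : ℝ
  L : ℕ
  q_pos' : 0 < q
  q_le : q ≤ 1
  d_pos : 0 < d
  d_le : d ≤ hi
  L_ge : 2 ≤ L

namespace Ab

variable (p : Ab)

/-- the norm in the unit of length -/
noncomputable def nn (v : V) : ℝ := n1 v / p.L
/-- edges within distance `t` in the unit of length -/
def nr (u : V) (t : ℝ) : Set (Sym2 V) := near u (p.L * t)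

lemma one_le : (1 : ℝ) ≤ p.L := by exact_mod_cast le_trans one_le_two p.L_ge
lemma L_pos : (0 : ℝ) < p.L := one_pos.trans_le p.one_le
lemma le_nn {c : ℝ} {v : V} : c ≤ p.nn v ↔ p.L * c ≤ n1 v := le_div_iff₀' p.L_pos
lemma lt_nn {c : ℝ} {v : V} : c < p.nn v ↔ p.L * c < n1 v := lt_div_iff₀' p.L_pos
lemma nn_le {c : ℝ} {v : V} : p.nn v ≤ c ↔ n1 v ≤ p.L * c := div_le_iff₀' p.L_pos
lemma nn_lt {c : ℝ} {v : V} : p.nn v < c ↔ n1 v < p.L * c := div_lt_iff₀' p.L_pos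
lemma nn_tri (u v w : V) : p.nn (w - u) ≤ p.nn (v - u) + p.nn (w - v) := by
  unfold nn
  rw [← add_div]
  exact div_le_div_of_nonneg_right (n1_tri u v w) p.L_pos.le
lemma nr_finite (u : V) (t : ℝ) : (p.nr u t).Finite := near_finite _ _
lemma nr_disjoint {u u' : V} {t t' : ℝ} (h : t + t' < p.nn (u - u')) :
    Disjoint (p.nr u t) (p.nr u' t') :=
  near_disjoint (by rw [← mul_add]; exact p.lt_nn.1 h)

end Ab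

/-- below every quantile of level `α ∈ [π, 1/2]` one gains `g` with probability `c α ^ k` -/
def Gain (p : Ab) (g ρ π : ℝ) (k : ℕ) (c : ℝ) : Prop :=
  ∀ (u v : V) (α t : ℝ), ρ ≤ p.nn (v - u) → π ≤ α → α ≤ 1 / 2 → Qt p.toPar α u v t →
    c * α ^ k ≤ p.pr {τ | T τ u v ≤ t - g}

/-- medians grow at most linearly -/
def Lin (p : Ab) (K : ℝ) : Prop :=
  ∀ (u v : V) (t : ℝ), p.pr {τ | T τ u v < t} ≤ 1 / 2 → t ≤ K * p.nn (v - u)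

/-- admissible pair of a level ratio and a window -/
def Adm (p : Ab) (θ H : ℝ) : Prop :=
  0 < θ ∧ θ ≤ 1 ∧ 0 < H ∧ (2560 * H) ^ 2 * θ ≤ (p.q * p.d) ^ 2

/-- the site lies in the shell number `i` of width `w` round `u` -/
def Sh (p : Ab) (u : V) (w i : ℕ) (y : V) : Prop :=
  ((i * w : ℕ) : ℝ) < p.nn (y - u) ∧ p.nn (y - u) ≤ (((i + 1) * w : ℕ) : ℝ)

/-- the dichotomy; the two sites of a split are joined at cost `c` with probability `q` -/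
def Dich (p : Ab) : Prop := ∀ (u v : V) (M w : ℕ) (α θ t H : ℝ), 1 ≤ M → 2 ≤ w →
  0 < α → α ≤ 1 / 2 → Adm p θ H → Qt p.toPar α u v t → (((M + 1) * w : ℕ) : ℝ) ≤ p.nn (v - u) →
  200 * ((M : ℝ) * w) ^ 2 * (1 / 2) ^ (w - 1) ≤ α →
  α / 2 ≤ p.pr {τ | T τ u v ≤ t - H + p.d / 2} ∨
    ∃ (S : Finset ℕ) (y z : ℕ → V) (A B c : ℕ → ℝ), M ≤ 2 * S.card ∧ ∀ i ∈ S, 1 ≤ i ∧ i ≤ M ∧
      p.q ≤ p.pr {τ | T τ (y i) (z i) ≤ c i} ∧ Sh p u w i (y i) ∧ Sh p u w i (z i) ∧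
      Qt p.toPar (α * θ) u (y i) (A i) ∧ Qt p.toPar (α * θ) (z i) v (B i) ∧
      A i + c i + B i ≤ t - p.d / 2

/-- localisation -/
def Loc (p : Ab) : Prop := ∀ (z y : V) (c : ℝ) (L : ℕ), 2 * c ≤ p.hi * L →
  ∃ Φ : Set Cfg, MeasurableSet Φ ∧ IsLowerSet Φ ∧
    (∀ τ τ' : Cfg, (∀ e ∈ p.nr z L, τ e = τ' e) → τ ∈ Φ → τ' ∈ Φ) ∧
    (∀ τ ∈ Φ, T τ z y < c) ∧ p.pr {τ | T τ z y < c} - (1 / 2) ^ L ≤ p.pr Φ

/-- the two facts used by the iteration -/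
def Rare (p : Ab) : Prop := Dich p ∧ Loc p

/-- two halves -/
def St_CONCAT : Prop := ∀ (p : Ab), Rare p → ∀ (g π θ H : ℝ) (ρ : ℕ), Adm p θ H → θ ≤ p.q →
  θ ≤ 1 / 2 → 2 * g + p.d ≤ H → 2 ≤ ρ → 0 < π → 200 * (ρ : ℝ) ^ 2 * (1 / 2) ^ (ρ - 1) ≤ π →
  Gain p g ρ (π * θ) 2 (θ ^ 6) → Gain p (2 * g + p.d / 2) (3 * ρ) π 4 (θ ^ 17)

/-- many places -/
def St_RESET : Prop := ∀ (p : Ab), Rare p → ∀ (K g π c : ℝ) (k ρ M w L : ℕ), 0 < K →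
  Lin p K → 0 ≤ g → 0 < c → Gain p g ρ π k c →
  ∀ (u v : V) (α t θ₁ θ₂ H₁ H₂ : ℝ), 0 < α → α ≤ 1 / 2 → Qt p.toPar α u v t → Adm p θ₁ H₁ →
  Adm p θ₂ H₂ → π ≤ α * θ₁ * θ₂ → 1 ≤ M → 2 ≤ w → 2 ≤ ρ →
  200 * ((M : ℝ) * w) ^ 2 * (1 / 2) ^ (w - 1) ≤ α →
  200 * (ρ : ℝ) ^ 2 * (1 / 2) ^ (ρ - 1) ≤ α * θ₁ → 4 * K * ρ + p.d ≤ p.hi * L → 2 * L ≤ w →
  (1 / 2) ^ L ≤ c * (α * θ₁ * θ₂) ^ k / 2 →
  32 ≤ (p.q ^ 2 * (α * θ₁) * (α * θ₁ * θ₂)) ^ 2 * M * (c * (α * θ₁ * θ₂) ^ k) →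
  (((M + 1) * w + 2 * ρ : ℕ) : ℝ) ≤ p.nn (v - u) →
  α / 2 ≤ p.pr {τ | T τ u v ≤ t - H₁ + p.d / 2} ∨
    p.q * (α * θ₁) ^ 2 / 2 ≤ p.pr {τ | T τ u v ≤ t - H₂} ∨
    p.q ^ 2 * (α * θ₁) * (α * θ₁ * θ₂) / 2 ≤ p.pr {τ | T τ u v ≤ t - g}

/-- one round -/
def St_STEP : Prop := ∀ (p : Ab), Rare p → ∀ (K g π θ H : ℝ) (C₀ ρ M : ℕ), 0 < K →
  Lin p K → 2 ≤ C₀ → 12 * K + p.d ≤ p.hi * C₀ → Adm p θ H → θ ≤ p.q → θ ≤ 1 / 2 → 0 ≤ g →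
  2 * g + p.d ≤ H → 2 ≤ ρ → 0 < π → π ≤ 1 → 32 ≤ π ^ 8 * θ ^ 35 * M →
  400 * (2 * (C₀ : ℝ) * M * ρ) ^ 2 * (1 / 2) ^ ρ ≤ π ^ 4 * θ ^ 25 →
  Gain p g ρ (π * θ ^ 3) 2 (θ ^ 6) →
  Gain p (2 * g + p.d / 2) (((4 * C₀ + 6) * M * ρ : ℕ) : ℝ) π 2 (θ ^ 6)

/-- `n` rounds -/
def St_ITER : Prop := ∀ (p : Ab), Rare p → ∀ (K π θ H : ℝ) (C₀ ρ₀ M n : ℕ), 0 < K →
  Lin p K → 2 ≤ C₀ → 12 * K + p.d ≤ p.hi * C₀ → Adm p θ H → θ ≤ p.q → θ ≤ 1 / 2 →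
  2 ^ n * p.d ≤ H → 2 ≤ ρ₀ → 0 < π → π ≤ 1 → 32 ≤ (π * θ ^ (3 * n)) ^ 8 * θ ^ 35 * M →
  (∀ ρ : ℕ, ρ₀ ≤ ρ →
    400 * (2 * (C₀ : ℝ) * M * ρ) ^ 2 * (1 / 2) ^ ρ ≤ (π * θ ^ (3 * n)) ^ 4 * θ ^ 25) →
  Gain p ((2 ^ n - 1) * p.d / 2) ((((4 * C₀ + 6) * M) ^ n * ρ₀ : ℕ) : ℝ) π 2 (θ ^ 6)

/-- the last round -/
def St_TOP : Prop := ∀ (p : Ab), Rare p → ∀ (K : ℝ) (C₀ ρ₀ M k : ℕ), 0 < K → Lin p K →
  2 ≤ C₀ → 12 * K + p.d ≤ p.hi * C₀ → 1 ≤ k → 2 ≤ ρ₀ →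
  32 ≤ ((p.q / 2560) ^ 2 / 4 ^ (6 * k)) ^ (144 * k + 59) * M →
  (∀ ρ : ℕ, ρ₀ ≤ ρ → 400 * (2 * (C₀ : ℝ) * M * ρ) ^ 2 * (1 / 2) ^ ρ ≤
    ((p.q / 2560) ^ 2 / 4 ^ (6 * k)) ^ (72 * k + 37)) →
  ∀ x : V, ((((4 * C₀ + 6) * M) ^ (6 * k + 1) * ρ₀ : ℕ) : ℝ) ≤ p.nn x →
  MemLp (fun τ => T τ 0 x) 2 p.P →
  p.q ^ 2 * ((p.q / 2560) ^ 2) ^ 3 * p.d ^ 2 / 1024 * 4 ^ k ≤ variance (fun τ => T τ 0 x) p.P

/-- the bound for a system, uniform in the constants -/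
def St_CORE (γ : ℝ) : Prop := ∀ (q d K : ℝ) (L : ℕ), 0 < q → q ≤ 1 → 0 < d → 0 < K →
  ∃ c : ℝ, 0 < c ∧ ∃ N : ℝ, ∀ p : Ab, Rare p → p.q = q → p.d = d → p.L = L → Lin p K →
    ∀ x : V, N ≤ n1 x → MemLp (fun τ => T τ 0 x) 2 p.P →
      Real.exp (c * Real.log (n1 x) ^ γ) ≤ variance (fun τ => T τ 0 x) p.P

/-! ### lower part: an atom at the positive bottom of the support -/

/-- a weight law with an atom at its positive minimum `r0` -/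
structure So extends Par where
  r0 : ℝ≥0
  hi : ℝ≥0
  k : ℕ
  r0_pos : 0 < r0
  lt : r0 < hi
  le : (hi : ℝ) ≤ 2 * r0
  supp : F (Set.Iio r0) = 0
  atom : 0 < F.real (Set.Iic r0)
  k_ge : 1 ≤ k

/-- a light path with `k` steps leads from `y` to distance `k` -/
def Bad (hi : ℝ≥0) (k : ℕ) (y : V) : Set Cfg :=
  {τ | ∃ g : ℕ → V, g 0 = y ∧ (∀ j, j < k → G.Adj (g j) (g (j + 1)) ∧ τ s(g j, g (j + 1)) ≤ hi) ∧
    (k : ℝ) ≤ n1 (g k - y)}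

open Classical in
/-- the weights with the value `r` on the ball of radius `m` round `c` -/
noncomputable def sb (r : ℝ≥0) (m : ℕ) (c : V) (τ : Cfg) : Cfg :=
  fun e => if e ∈ near c m then r else τ e

/-- `n` steps of length `m` through sites at mutual distance at least `m` -/
def Chain (m n : ℕ) (y : ℕ → V) : Prop :=
  (∀ j, j < n → n1 (y (j + 1) - y j) = m) ∧
    ∀ i j, i ≤ n → j ≤ n → i ≠ j → (m : ℝ) ≤ n1 (y i - y j)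

open Classical in
/-- some chain from `v` has half of its sites bad -/
def BadCh (hi : ℝ≥0) (k : ℕ) (v : V) (n : ℕ) : Set Cfg :=
  {τ | ∃ y, y 0 = v ∧ Chain (2 * k + 1) n y ∧
    n ≤ 2 * ((range n).filter fun j => τ ∈ Bad hi k (y j)).card}

namespace So

variable (p : So)

/-- radius of the planted balls -/
def m : ℕ := 2 * p.k + 1
noncomputable def d : ℝ := p.hi - p.r0
/-- a lower bound for the probability that a whole ball has the least weight -/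
noncomputable def kap : ℝ := p.F.real (Set.Iic p.r0) ^ (2 * p.m + 1) ^ 4
noncomputable def q : ℝ := p.kap ^ 2 / ((4 * p.m + 1) * p.m)
/-- passage time to the centre of a planted ball -/
noncomputable def R (τ : Cfg) (o c : V) : ℝ := T (sb p.r0 p.m c τ) o c
/-- planting the ball round `c` gains `d / 2` -/
def Spot (o x c : V) : Set Cfg := {τ | p.R τ o c + p.R τ x c + p.d / 2 ≤ T τ o x}
/-- a spot that is reached early -/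
def Ev (o x : V) (a : V → ℝ) (c : V) : Set Cfg := p.Spot o x c ∩ {τ | p.R τ o c < a c}
open Classical in
/-- number of marked sites -/
noncomputable def cnt (o x : V) (a : V → ℝ) (I : Finset V) (τ : Cfg) : ℕ :=
  (I.filter fun c => τ ∈ p.Ev o x a c).card
/-- chains with many bad sites are rare -/
def Few : Prop := ∀ (v : V) (n : ℕ), 1 ≤ n →
  p.pr (BadCh p.hi p.k v n) ≤ (1 / 2) ^ n / (p.m : ℝ) ^ 2

end So

open Classical in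
/-- sites within distance `n` of `u` -/
noncomputable def Bx (u : V) (n : ℕ) : Finset V :=
  ((ball n).image (· + u)).filter fun y => n1 (y - u) ≤ n

/-- elementary facts -/
def St_KIT : Prop :=
  (∀ (u : V) (n : ℕ), (∀ y, y ∈ Bx u n ↔ n1 (y - u) ≤ n) ∧
    ((Bx u n).card : ℝ) ≤ (2 * (n : ℝ) + 1) ^ 2) ∧
  ∀ p : So, (0 < p.kap ∧ p.kap ≤ 1 ∧ 0 < p.q ∧ p.q ≤ p.kap ∧ 0 < p.d ∧ p.d ≤ p.hi ∧ 2 ≤ p.m) ∧
    (∀ᵐ τ ∂p.P, ∀ e, p.r0 ≤ τ e) ∧ (∀ o c, Measurable fun τ => p.R τ o c) ∧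
    (∀ o x a c, MeasurableSet (p.Ev o x a c)) ∧
    (∀ o c (s : ℝ), p.kap * p.pr {τ | p.R τ o c ≤ s} ≤ p.pr {τ | T τ o c ≤ s}) ∧
    ∀ (o c : V) (β : ℝ), 0 < β → β < 1 →
      ∃ s, p.pr {τ | p.R τ o c < s} ≤ β ∧ β ≤ p.pr {τ | p.R τ o c ≤ s}

/-- Peierls bound for chains -/
def St_PEIB : Prop := ∀ (p : So) (x : ℝ), 0 ≤ x → (∀ y, p.pr (Bad p.hi p.k y) ≤ x ^ 2) →
  4 * (2 * (p.m : ℝ) + 1) ^ 2 * (p.m : ℝ) ^ 2 * x ≤ 1 → p.Few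

/-- the last exit chain of a nearly optimal walk in one shell -/
def St_CHAIN : Prop := ∀ (τ : Cfg) (u v : V) (m w i : ℕ) (s : ℝ), 1 ≤ m → 1 ≤ w → 0 < s →
  ((m * ((i + 1) * w) : ℕ) : ℝ) ≤ n1 (v - u) →
  ∃ y, Chain m (w - 1) y ∧
    (∀ j, j ≤ w - 1 → ((m * (i * w) : ℕ) : ℝ) < n1 (y j - u) ∧
      n1 (y j - u) ≤ ((m * ((i + 1) * w) : ℕ) : ℝ)) ∧
    ∀ j, j < w - 1 → T τ u (y j) + T τ (y j) (y (j + 1)) + T τ (y (j + 1)) v ≤ T τ u v + s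

/-- a site of the chain that is not bad is a spot -/
def St_GAP : Prop := ∀ (p : So) (τ : Cfg) (u v y z : V), (∀ e, p.r0 ≤ τ e) →
  τ ∉ Bad p.hi p.k y → n1 (z - y) = p.m →
  T τ u y + T τ y z + T τ z v ≤ T τ u v + p.d / 2 → τ ∈ p.Spot u v y

/-- the ball that is reached second does not matter -/
def St_ORTH : Prop := ∀ (r : ℝ≥0) (m : ℕ) (τ : Cfg) (o c c' : V), 0 < r → (∀ e, r ≤ τ e) →
  2 * (m : ℝ) < n1 (c - c') →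
  T (sb r m c' (sb r m c τ)) o c ≤ T (sb r m c' (sb r m c τ)) o c' →
  T (sb r m c τ) o c = T (sb r m c' (sb r m c τ)) o c

/-- the martingale bound -/
def St_MARTB : Prop := ∀ (p : So) (o x : V) (a : V → ℝ) (π α t H lam : ℝ) (I : Finset V),
  0 < lam → 0 ≤ H → (∀ c, p.pr {τ | p.R τ o c < a c} ≤ π) → p.pr {τ | T τ o x < t} ≤ α →
  p.kap * p.d / 2 * ∑ c ∈ I,
      p.pr (p.Ev o x a c ∩ {τ | t - H + p.d / 2 ≤ T τ o x ∧ T τ o x ≤ t}) ≤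
    lam / 2 * (H ^ 2 * α) + (4 * (p.m : ℝ) + 1) ^ 2 * π / (2 * lam) * I.card

/-- few marked sites on the window event -/
def St_MARK : Prop := ∀ (p : So) (u v : V) (M w : ℕ) (a b : V → ℝ) (α θ t H : ℝ), 1 ≤ M → 2 ≤ w →
  0 < α → 0 < θ → 0 < H → (2560 * H) ^ 2 * θ ≤ (p.q * p.d) ^ 2 →
  (∀ c, p.pr {τ | p.R τ u c < a c} ≤ α * θ / p.kap) →
  (∀ c, p.pr {τ | p.R τ v c < b c} ≤ α * θ / p.kap) → p.pr {τ | T τ u v < t} ≤ α →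
  p.pr {τ | (t - H + p.d / 2 ≤ T τ u v ∧ T τ u v ≤ t) ∧ M * (w - 1) ≤
    4 * (p.cnt u v a (Bx u (p.m * ((M + 1) * w))) τ +
      p.cnt v u b (Bx u (p.m * ((M + 1) * w))) τ)} ≤ α / 8

/-- good sites in half of the shells -/
def St_DET : Prop := ∀ (p : So) (τ : Cfg) (u v : V) (M w : ℕ) (a b : V → ℝ), 2 ≤ w →
  (∀ e, p.r0 ≤ τ e) → ((p.m * ((M + 1) * w) : ℕ) : ℝ) ≤ n1 (v - u) →
  (∀ y, n1 (y - u) ≤ ((p.m * ((M + 1) * w) : ℕ) : ℝ) → τ ∉ BadCh p.hi p.k y (w - 1)) →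
  4 * (p.cnt u v a (Bx u (p.m * ((M + 1) * w))) τ +
    p.cnt v u b (Bx u (p.m * ((M + 1) * w))) τ) ≤ M * (w - 1) →
  ∃ (S : Finset ℕ) (c : ℕ → V), M ≤ 2 * S.card ∧ ∀ i ∈ S, 1 ≤ i ∧ i ≤ M ∧
    ((p.m * (i * w) : ℕ) : ℝ) < n1 (c i - u) ∧ n1 (c i - u) ≤ ((p.m * ((i + 1) * w) : ℕ) : ℝ) ∧
    a (c i) + b (c i) + p.d / 2 ≤ T τ u v

/-- the dichotomy -/
def St_DICH : Prop := ∀ (p : So) (p' : Ab), p.Few → p'.toPar = p.toPar → p'.q = p.q →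
  p'.d = p.d → p'.L = p.m → Dich p'

/-- localisation -/
def St_LOC : Prop := ∀ (p : So) (p' : Ab), p'.toPar = p.toPar → p'.hi = p.hi → Loc p'

/-- below the oriented threshold straight light paths are rare -/
def St_BRIDGE : Prop := ∀ (p : Par) (hi : ℝ≥0), p.F.real (Set.Iic hi) < orientedCrit →
  ∃ (ρ : ℝ) (L : ℕ), 0 ≤ ρ ∧ ρ < 1 ∧ 0 < L ∧ ∀ (k : ℕ) (y : V), p.pr (Bad hi k y) ≤ 4 * ρ ^ (k / L)

/-- choice of the radius -/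
def St_SMALL : Prop := ∀ (ρ : ℝ) (L : ℕ), 0 ≤ ρ → ρ < 1 → 0 < L → ∃ (k : ℕ) (x : ℝ), 1 ≤ k ∧
  0 ≤ x ∧ 4 * ρ ^ (k / L) ≤ x ^ 2 ∧
    4 * (2 * ((2 * k + 1 : ℕ) : ℝ) + 1) ^ 2 * ((2 * k + 1 : ℕ) : ℝ) ^ 2 * x ≤ 1

/-- a law with an atom below the oriented threshold at its positive minimum has such constants -/
def St_SYS : Prop := ∀ (p : Par) (r : ℝ≥0), 0 < r → p.F (Set.Iio r) = 0 → 0 < p.F {r} →
  p.F {r} < ENNReal.ofReal orientedCrit → ∃ s : So, s.toPar = p ∧ s.Few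

/-- the final statement -/
def St_FIN (γ : ℝ) : Prop := ∀ (F : Measure ℝ≥0) [IsProbabilityMeasure F] (r : ℝ≥0),
  F (Set.Iio r) = 0 → (∀ s, r < s → 0 < F (Set.Iic s)) →
  (F {r} < 1 / 2 ∨ (0 < r ∧ F {r} < ENNReal.ofReal orientedCrit)) →
  ∃ c : ℝ, 0 < c ∧ ∃ N : ℝ, ∀ v : Fin 2 → ℤ, N ≤ |(v 0 : ℝ)| + |(v 1 : ℝ)| →
    ENNReal.ofReal (Real.exp (c * Real.log (|(v 0 : ℝ)| + |(v 1 : ℝ)|) ^ γ)) ≤
      evariance (fun τ => passage τ 0 v) (Measure.infinitePi fun _ : (lattice 2).edgeSet => F)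

end Pool.Agent.Lib.SO4
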