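import Pool.Agent.Lib.SO4.Sharp

/-! The oriented critical value is at least one half. -/

namespace Pool.Agent.Lib.SO4

open Set MeasureTheory Filter Topology Pool.Agent.Lib.helper98
open scoped ENNReal

namespace Half

lemma th_succ {q : ℝ} (h0 : 0 ≤ q) (h1 : q ≤ 1) (n : ℕ) : th q (n + 1) ≤ 2 * q * th q n := by
  have s1 : th q (n + 1) ≤ ∑ i ∈ (Finset.univ : Finset (Fin 2)),
      pr q ({ω | ω (0, i)} ∩ Rch (st 0 i) (lev (st 0 i) + n)) := by
    refine pr_le_sum _ _ ?_
    rintro ω ⟨y, e, hy⟩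
    cases hy with
    | refl _ =>
      rw [lev_zero] at e
      omega
    | @head _ _ i _ a2 a3 =>
      refine ⟨i, Finset.mem_univ _, a2, y, ?_, a3⟩
      rw [lev_st, lev_zero, e]
      push_cast
      ring
  have s2 : ∀ i : Fin 2, pr q ({ω | ω (0, i)} ∩ Rch (st 0 i) (lev (st 0 i) + n)) ≤ q * th q n := by
    intro i
    rw [pr_inter_of_disjoint (dep_coord _) (dep_Rch _ _) (finite_singleton _) (Dn_finite _ _),
      pr_coord h0 h1]
    · exact mul_le_mul_of_nonneg_left (pr_Rch_le _ n) h0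
    · rw [Set.disjoint_left]
      rintro m rfl ⟨h2, -⟩
      have := lev_mono h2
      rw [lev_st] at this
      change lev 0 + 1 ≤ lev 0 at this
      omega
  rw [Fin.sum_univ_two] at s1
  linarith [s2 0, s2 1]

lemma th_le {q : ℝ} (h0 : 0 ≤ q) (h1 : q ≤ 1) (n : ℕ) : th q n ≤ (2 * q) ^ n := by
  induction n with
  | zero => rw [pow_zero]; exact pr_le_one q _
  | succ n ih =>
    rw [pow_succ']
    exact (th_succ h0 h1 n).trans (mul_le_mul_of_nonneg_left ih (by linarith))

lemma perc_le (q : ℝ) (n : ℕ) : orientedPerc q ≤ ENNReal.ofReal (th q n) := by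
  rw [th, pr, ofReal_measureReal]
  refine measure_mono ?_
  rintro ω ⟨f, i, f0, h⟩
  have key : ∀ k m : ℕ, OC ω univ (f m) (f (m + k)) ∧ lev (f (m + k)) = lev (f m) + k := by
    intro k
    induction k with
    | zero => exact fun m => ⟨OC.refl (mem_univ _), by simp⟩
    | succ k ih =>
      intro m
      obtain ⟨a, b⟩ := ih (m + 1)
      have e : f (m + 1) = st (f m) (i m) := (h m).2
      rw [show m + (k + 1) = m + 1 + k by ring]
      refine ⟨OC.head (mem_univ _) (h m).1 (e ▸ a), ?_⟩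
      rw [b, e, lev_st]
      push_cast
      ring
  obtain ⟨a, b⟩ := key n 0
  rw [f0] at a b
  exact ⟨_, by rw [b, lev_zero, zero_add], a⟩

lemma perc_one : 0 < orientedPerc 1 := by
  have h : ∀ᵐ ω ∂PP (W × Fin 2) 1, ∀ e, ω e := ae_all_iff.2 fun e => by
    have m := (dep_coord e).measurableSet (finite_singleton e)
    have k := pr_compl (p := 1) m
    rw [pr_coord zero_le_one le_rfl, sub_self] at k
    exact (measureReal_eq_zero_iff (measure_ne_top _ _)).1 k
  refine pos_iff_ne_zero.2 fun k => ?_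
  have k2 : ∀ᵐ ω ∂PP (W × Fin 2) 1, False := by
    filter_upwards [h, measure_eq_zero_iff_ae_notMem.1 k] with ω h1 h2
    refine h2 ⟨fun n => Pi.single 0 (n : ℤ), fun _ => 0, by simp, fun n => ⟨h1 _, ?_⟩⟩
    rw [← Pi.single_add]
    simp
  exact (ae_neBot.2 (IsProbabilityMeasure.ne_zero _)).ne (eventually_false_iff_eq_bot.1 k2)

end Half

theorem half_le : 1 / 2 ≤ orientedCrit := by
  refine le_csInf ⟨1, ⟨zero_le_one, le_rfl⟩, Half.perc_one⟩ fun q hq => not_lt.1 fun h => ?_
  have t := ENNReal.tendsto_ofReal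
    (tendsto_pow_atTop_nhds_zero_of_lt_one (r := 2 * q) (by linarith [hq.1.1]) (by linarith))
  have := ge_of_tendsto' t fun n => (Half.perc_le q n).trans
    (ENNReal.ofReal_le_ofReal (Half.th_le hq.1.1 hq.1.2 n))
  rw [ENNReal.ofReal_zero] at this
  exact absurd hq.2 (not_lt.2 this)

end Pool.Agent.Lib.SO4
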