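import Pool.Agent.Lib.SO4.Half

/-! The critical value of oriented percolation exceeds one half. -/

namespace Pool.Agent.Lib.SO4

open Set MeasureTheory Filter Topology Pool.Agent.Lib.helper98
open scoped ENNReal

namespace HALF

variable {p : ℝ} {ω : W × Fin 2 → Prop}

/-- two given steps from the origin are open -/
def E2 (i j : Fin 2) : Set (W × Fin 2 → Prop) := {ω | ω (0, i)} ∩ {ω | ω (st 0 i, j)}

lemma lev1 (i : Fin 2) : lev (st 0 i) = 1 := by rw [lev_st, lev_zero, zero_add]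

lemma lev2 (i j : Fin 2) : lev (st (st 0 i) j) = 2 := by rw [lev_st, lev1]; rfl

lemma dep2 (i j : Fin 2) : Dep {((0 : W), i), (st 0 i, j)} (E2 i j) := fun _ _ h k =>
  ⟨(h _ (Or.inl rfl)).1 k.1, (h _ (Or.inr rfl)).1 k.2⟩

lemma dep2' (i j : Fin 2) : Dep (Dn 0 2) (E2 i j) := (dep2 i j).mono (by
  rintro _ (rfl | rfl)
  · exact ⟨le_rfl, by show lev 0 < 2; rw [lev_zero]; norm_num⟩
  · exact ⟨le_st _ _, by show lev (st 0 i) < 2; rw [lev1]; norm_num⟩)

lemma pr2 (h0 : 0 ≤ p) (h1 : p ≤ 1) (i j : Fin 2) : pr p (E2 i j) = p ^ 2 := by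
  rw [E2, pr_inter_of_disjoint (dep_coord _) (dep_coord _) (finite_singleton _)
    (finite_singleton _), pr_coord h0 h1, pr_coord h0 h1, sq]
  refine disjoint_singleton.2 fun h => ?_
  have := congrArg (fun q : W × Fin 2 => lev q.1) h
  simp only [lev1, lev_zero] at this
  omega

lemma prU (h0 : 0 ≤ p) (h1 : p ≤ 1) : pr p (E2 0 1 ∪ E2 1 0) = 2 * p ^ 2 - p ^ 4 := by
  have m := (dep2' 1 0).measurableSet (Dn_finite 0 2)
  have e : pr p (E2 0 1 ∪ E2 1 0) + pr p (E2 0 1 ∩ E2 1 0) = pr p (E2 0 1) + pr p (E2 1 0) :=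
    measureReal_union_add_inter m
  rw [pr_inter_of_disjoint (dep2 0 1) (dep2 1 0) (toFinite _) (toFinite _), pr2 h0 h1,
    pr2 h0 h1] at e
  · linarith
  · rw [Set.disjoint_left]
    rintro _ (rfl | rfl) (h | h)
    · exact absurd (congrArg Prod.snd h) (by decide)
    · have := congrArg (fun q : W × Fin 2 => lev q.1) h
      simp only [lev1, lev_zero] at this
      omega
    · have := congrArg (fun q : W × Fin 2 => lev q.1) h
      simp only [lev1, lev_zero] at this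
      omega
    · exact absurd (congrArg Prod.snd h) (by decide)

lemma cut2 {n : ℕ} (h : ω ∈ Rch 0 ((n + 2 : ℕ) : ℤ)) :
    ∃ i j, ω ∈ E2 i j ∧ ω ∈ Rch (st (st 0 i) j) (lev (st (st 0 i) j) + n) := by
  obtain ⟨y, e, k⟩ := h
  push_cast at e
  cases k with
  | refl _ => rw [lev_zero] at e; omega
  | @head _ _ i _ a2 a3 =>
    generalize hu : st 0 i = u at a3
    cases a3 with
    | refl _ => rw [← hu, lev1] at e; omega
    | @head _ _ j _ b2 b3 =>
      subst hu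
      exact ⟨i, j, ⟨a2, b2⟩, y, by rw [lev2]; omega, b3⟩

lemma prod2 {A : Set (W × Fin 2 → Prop)} (hA : Dep (Dn 0 2) A) (i j : Fin 2) (n : ℕ) :
    pr p (A ∩ Rch (st (st 0 i) j) (lev (st (st 0 i) j) + n)) ≤ pr p A * th p n := by
  rw [pr_inter_of_disjoint hA (dep_Rch _ _) (Dn_finite _ _) (Dn_finite _ _)]
  · exact mul_le_mul_of_nonneg_left (pr_Rch_le _ n) (pr_nonneg _ _)
  · rw [Set.disjoint_left]
    rintro m ⟨-, h1⟩ ⟨h2, -⟩
    have := lev_mono h2
    rw [lev2] at this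
    omega

lemma step (h0 : 0 ≤ p) (h1 : p ≤ 1) (n : ℕ) :
    th p (n + 2) ≤ (4 * p ^ 2 - p ^ 4) * th p n := by
  have c : st (st (0 : W) 1) 0 = st (st 0 0) 1 := by unfold st; abel
  have s : Rch 0 ((n + 2 : ℕ) : ℤ) ⊆
      (E2 0 0 ∩ Rch (st (st 0 0) 0) (lev (st (st 0 0) 0) + n) ∪
        E2 1 1 ∩ Rch (st (st 0 1) 1) (lev (st (st 0 1) 1) + n)) ∪
        (E2 0 1 ∪ E2 1 0) ∩ Rch (st (st 0 0) 1) (lev (st (st 0 0) 1) + n) := by
    intro ω h
    obtain ⟨i, j, k1, k2⟩ := cut2 h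
    fin_cases i <;> fin_cases j
    · exact Or.inl (Or.inl ⟨k1, k2⟩)
    · exact Or.inr ⟨Or.inl k1, k2⟩
    · exact Or.inr ⟨Or.inr k1, c ▸ k2⟩
    · exact Or.inl (Or.inr ⟨k1, k2⟩)
  have a := (pr_mono (p := p) s).trans ((pr_union_le p _ _).trans
    (add_le_add (pr_union_le p _ _) le_rfl))
  have a1 := prod2 (p := p) (dep2' 0 0) 0 0 n
  have a2 := prod2 (p := p) (dep2' 1 1) 1 1 n
  have a3 := prod2 (p := p) ((dep2' 0 1).union (dep2' 1 0)) 0 1 n
  rw [pr2 h0 h1] at a1 a2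
  rw [prU h0 h1] at a3
  have a4 : th p (n + 2) = pr p (Rch 0 ((n + 2 : ℕ) : ℤ)) := rfl
  linarith

lemma pow_bd (k : ℕ) : th (51 / 100) (2 * k) ≤ (98 / 100) ^ k := by
  induction k with
  | zero => rw [pow_zero]; exact pr_le_one _ _
  | succ k ih =>
    have h := step (p := 51 / 100) (by norm_num) (by norm_num) (2 * k)
    have h0 : 0 ≤ th (51 / 100) (2 * k) := pr_nonneg _ _
    rw [pow_succ, Nat.mul_succ]
    nlinarith

end HALF

theorem half_lt : 1 / 2 < orientedCrit := by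
  refine lt_of_lt_of_le (by norm_num : (1 / 2 : ℝ) < 51 / 100) ?_
  refine le_csInf ⟨1, ⟨zero_le_one, le_rfl⟩, Half.perc_one⟩ fun q hq => ?_
  by_contra hc
  have lim : Tendsto (fun k : ℕ => ENNReal.ofReal ((98 / 100 : ℝ) ^ k)) atTop (𝓝 0) := by
    rw [← ENNReal.ofReal_zero]
    exact ENNReal.tendsto_ofReal (tendsto_pow_atTop_nhds_zero_of_lt_one (by norm_num) (by norm_num))
  refine absurd (ge_of_tendsto' lim fun k => (Half.perc_le q (2 * k)).trans
    (ENNReal.ofReal_le_ofReal ?_)) (not_le.2 hq.2)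
  exact (th_mono_param hq.1.1 (not_le.1 hc).le (by norm_num) _).trans (HALF.pow_bd k)

end Pool.Agent.Lib.SO4
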