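import Pool.Agent.Lib.SO4.Blue
import Pool.Agent.Lib.SX21.B_SPL

/-! Increments attached to planted balls: orthogonality and the second moment. -/

namespace Pool.Agent.Lib.SO4

open MeasureTheory ProbabilityTheory Filter Topology Finset Pool.Agent.Lib.FP95
open Pool.Agent.Lib.MP_eba68f_pr hiding Nice
open Pool.Agent.Lib.SL94 (SW T T_meas)
open Pool.Agent.Lib.SX21 (sp Off OffS bSPL)
open scoped NNReal ENNReal

namespace MB

/-- the whole ball is light -/
def Lc (r : ℝ≥0) (m : ℕ) (c : V) : Set Cfg := {τ | ∀ e ∈ near c m, τ e ≤ r}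

/-- the centred indicator of a light ball -/
noncomputable def et (p : Par) (r : ℝ≥0) (m : ℕ) (c : V) (τ : Cfg) : ℝ :=
  p.pr (Lc r m c) - (Lc r m c).indicator (fun _ => 1) τ

/-- a measurable change of weights acting edge by edge and keeping the lower bound -/
structure Good (r : ℝ≥0) (μ : Cfg → Cfg) : Prop where
  meas : Measurable μ
  loc : ∀ τ τ' e, τ e = τ' e → μ τ e = μ τ' e
  low : ∀ τ e, r ≤ τ e → r ≤ μ τ e

/-- the centre of the planted ball is reached early -/
def Ac (r : ℝ≥0) (m : ℕ) (μ : Cfg → Cfg) (o : V) (a : V → ℝ) (c : V) : Set Cfg :=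
  {τ | T (sb r m c (μ τ)) o c < a c}

/-- the increments -/
noncomputable def xi (p : Par) (r : ℝ≥0) (m : ℕ) (μ : Cfg → Cfg) (Z : Set Cfg) (o : V)
    (a : V → ℝ) (c : V) (τ : Cfg) : ℝ :=
  (Ac r m μ o a c ∩ Z).indicator (fun _ => 1) τ * et p r m c τ

variable (p : Par) (r : ℝ≥0) (m : ℕ)

lemma good_id : Good r fun τ => τ := ⟨measurable_id, fun _ _ _ h => h, fun _ _ h => h⟩

lemma Lc_meas (c : V) : MeasurableSet (Lc r m c) := by
  have : Lc r m c = ⋂ e ∈ near c m, {τ : Cfg | τ e ≤ r} := by ext; simp [Lc]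
  rw [this]
  exact (near_finite c m).measurableSet_biInter fun e _ =>
    measurableSet_le (measurable_pi_apply e) measurable_const

lemma et_nice (c : V) : Nice (et p r m c) := (FP95.Nice.const _).sub (FP95.Nice.ind (Lc_meas r m c))

lemma et_in {c : V} {τ : Cfg} (h : τ ∈ Lc r m c) : et p r m c τ = p.pr (Lc r m c) - 1 := by
  rw [et, Set.indicator_of_mem h]

lemma et_out {c : V} {τ : Cfg} (h : τ ∉ Lc r m c) : et p r m c τ = p.pr (Lc r m c) := by
  rw [et, Set.indicator_of_notMem h, sub_zero]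

lemma et_abs (c : V) (τ : Cfg) : |et p r m c τ| ≤ 1 := by
  have h0 := p.pr_nonneg (Lc r m c)
  have h1 := p.pr_le_one (Lc r m c)
  by_cases h : τ ∈ Lc r m c
  · rw [et_in p r m h, abs_le]; constructor <;> linarith
  · rw [et_out p r m h, abs_le]; constructor <;> linarith

lemma et_congr {c : V} {τ τ' : Cfg} (h : ∀ e ∈ near c m, τ e = τ' e) :
    et p r m c τ = et p r m c τ' := by
  have : τ ∈ Lc r m c ↔ τ' ∈ Lc r m c :=
    forall_congr' fun e => forall_congr' fun he => by rw [h e he]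
  by_cases k : τ ∈ Lc r m c
  · rw [et_in p r m k, et_in p r m (this.1 k)]
  · rw [et_out p r m k, et_out p r m fun k' => k (this.2 k')]

lemma et_int (c : V) : ∫ τ, et p r m c τ ∂p.P = 0 := by
  unfold et
  rw [integral_sub (integrable_const _) ((Nice.ind (Lc_meas r m c)).int _),
    p.int_ind (Lc_meas r m c)]
  simp

/-- functions that ignore the ball are orthogonal to its centred indicator -/
lemma orth (c : V) {f : Cfg → ℝ} (hf : Measurable f) (hd : Off (near c m) f) :
    ∫ τ, f τ * et p r m c τ ∂p.P = 0 := by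
  have hm : Measurable fun τ : Cfg => f τ * et p r m c τ := hf.mul (et_nice p r m c).1
  have h1 := integral_map (μ := p.P.prod p.P) (bSPL p (near c m)).measurable.aemeasurable
    hm.aestronglyMeasurable
  rw [(bSPL p (near c m)).map_eq] at h1
  rw [h1]
  have : ∀ q : Cfg × Cfg, f (sp (near c m) q.1 q.2) * et p r m c (sp (near c m) q.1 q.2) =
      et p r m c q.1 * f q.2 := fun q => by
    rw [mul_comm, hd (sp (near c m) q.1 q.2) q.2 fun e he => if_neg he,
      et_congr p r m (τ := sp (near c m) q.1 q.2) (τ' := q.1) fun e he => if_pos he]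
  simp only [this]
  rw [integral_prod_mul, et_int, zero_mul]

lemma sb_meas (c : V) : Measurable (sb r m c) := by
  refine measurable_pi_lambda _ fun e => ?_
  unfold sb
  split_ifs
  · exact measurable_const
  · exact measurable_pi_apply e

lemma sb_congr {c : V} {τ τ' : Cfg} (h : ∀ e, e ∉ near c m → τ e = τ' e) :
    sb r m c τ = sb r m c τ' := by
  funext e
  unfold sb
  split_ifs with he
  · rfl
  · exact h e he

lemma sb_comm (c c' : V) (τ : Cfg) : sb r m c' (sb r m c τ) = sb r m c (sb r m c' τ) := by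
  funext e
  unfold sb
  split_ifs <;> rfl

lemma offS_ind {B : Set (Sym2 V)} {X : Set Cfg} (h : OffS B X) :
    Off B (X.indicator fun _ => (1 : ℝ)) := fun τ τ' k => by
  by_cases j : τ ∈ X
  · rw [Set.indicator_of_mem j, Set.indicator_of_mem (h _ _ k j)]
  · rw [Set.indicator_of_notMem j,
      Set.indicator_of_notMem fun j' => j (h _ _ (fun e he => (k e he).symm) j')]

variable {r} {μ : Cfg → Cfg} {Z : Set Cfg} (o : V) (a : V → ℝ)

lemma Ac_meas (hμ : Good r μ) (c : V) : MeasurableSet (Ac r m μ o a c) :=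
  measurableSet_lt ((T_meas o c).comp ((sb_meas r m c).comp hμ.meas)) measurable_const

lemma Ac_off (hμ : Good r μ) (c : V) : OffS (near c m) (Ac r m μ o a c) := fun τ τ' h k => by
  have : sb r m c (μ τ) = sb r m c (μ τ') := sb_congr r m fun e he => hμ.loc _ _ _ (h e he)
  show T _ o c < a c
  rw [← this]
  exact k

lemma xi_nice (hμ : Good r μ) (hZ : MeasurableSet Z) (c : V) : Nice (xi p r m μ Z o a c) :=
  (Nice.ind ((Ac_meas m o a hμ c).inter hZ)).mul (et_nice p r m c)

lemma xi_near (hμ : Good r μ) (hZ : MeasurableSet Z) (c c' : V) :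
    ∫ τ, xi p r m μ Z o a c τ * xi p r m μ Z o a c' τ ∂p.P ≤ p.pr (Ac r m μ o a c ∩ Z) := by
  have h1 := (Ac_meas m o a hμ c).inter hZ
  rw [← p.int_ind h1]
  refine integral_mono (((xi_nice p m o a hμ hZ c).mul (xi_nice p m o a hμ hZ c')).int _)
    ((Nice.ind h1).int _) fun τ => ?_
  unfold xi
  by_cases h : τ ∈ Ac r m μ o a c ∩ Z
  · simp only [Set.indicator_of_mem h, one_mul]
    by_cases h' : τ ∈ Ac r m μ o a c' ∩ Z
    · simp only [Set.indicator_of_mem h', one_mul]
      have k1 := abs_le.1 (et_abs p r m c τ)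
      have k2 := abs_le.1 (et_abs p r m c' τ)
      nlinarith
    · simp only [Set.indicator_of_notMem h', zero_mul, mul_zero, zero_le_one]
  · simp only [Set.indicator_of_notMem h, zero_mul, le_refl]

/-- both balls planted -/
noncomputable def S2 (r : ℝ≥0) (m : ℕ) (μ : Cfg → Cfg) (c c' o v : V) (τ : Cfg) : ℝ :=
  T (sb r m c' (sb r m c (μ τ))) o v

lemma S2_meas (hμ : Good r μ) (c c' v : V) : Measurable (S2 r m μ c c' o v) :=
  (T_meas o v).comp ((sb_meas r m c').comp ((sb_meas r m c).comp hμ.meas))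

lemma S2_comm (c c' v : V) : S2 r m μ c c' o v = S2 r m μ c' c o v := by
  funext τ
  unfold S2
  rw [sb_comm]

lemma S2_off (hμ : Good r μ) (c c' v : V) : Off (near c' m) (S2 r m μ c c' o v) :=
  fun τ τ' h => by
    unfold S2
    rw [sb_comm, sb_comm r m c c' (μ τ'), sb_congr r m fun e he => hμ.loc _ _ _ (h e he)]

lemma half (hμ : Good r μ) (hZ : MeasurableSet Z) {c c' : V} (hfar : 2 * (m : ℝ) < n1 (c - c'))
    (f2 : OffS (near c' m) Z) {O : Set Cfg} (hO : MeasurableSet O) (hO' : OffS (near c' m) O) :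
    ∫ τ, (({τ | S2 r m μ c c' o c τ < a c} ∩ O) ∩ (Ac r m μ o a c' ∩ Z)).indicator
      (fun _ => (1 : ℝ)) τ * et p r m c τ * et p r m c' τ ∂p.P = 0 := by
  have hm : MeasurableSet (({τ | S2 r m μ c c' o c τ < a c} ∩ O) ∩ (Ac r m μ o a c' ∩ Z)) :=
    ((measurableSet_lt (S2_meas m o hμ c c' c) measurable_const).inter hO).inter
      ((Ac_meas m o a hμ c').inter hZ)
  have hd : Disjoint (near c m) (near c' m) := near_disjoint (by linarith)
  have ho : OffS (near c' m)
      (({τ | S2 r m μ c c' o c τ < a c} ∩ O) ∩ (Ac r m μ o a c' ∩ Z)) := fun σ σ' k j =>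
    ⟨⟨(S2_off m o hμ c c' c σ σ' k).ge.trans_lt j.1.1, hO' _ _ k j.1.2⟩,
      Ac_off m o a hμ c' _ _ k j.2.1, f2 _ _ k j.2.2⟩
  refine orth p r m c' ((Nice.ind hm).mul (et_nice p r m c)).1 fun τ τ' h => ?_
  rw [offS_ind ho τ τ' h, et_congr p r m fun e he => h e (Set.disjoint_left.1 hd he)]

lemma xi_far (hO : St_ORTH) (hr : 0 < r) (hae : ∀ᵐ τ ∂p.P, ∀ e, r ≤ τ e) (hμ : Good r μ)
    (hZ : MeasurableSet Z) {c c' : V} (hfar : 2 * (m : ℝ) < n1 (c - c'))
    (f1 : OffS (near c m) Z) (f2 : OffS (near c' m) Z) :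
    ∫ τ, xi p r m μ Z o a c τ * xi p r m μ Z o a c' τ ∂p.P = 0 := by
  have hfar' : 2 * (m : ℝ) < n1 (c' - c) := by rwa [← n1_neg', neg_sub]
  let O : Set Cfg := {τ | S2 r m μ c c' o c τ ≤ S2 r m μ c c' o c' τ}
  have mO : MeasurableSet O := measurableSet_le (S2_meas m o hμ c c' c) (S2_meas m o hμ c c' c')
  have o1 : OffS (near c' m) O := fun τ τ' h k => by
    show S2 r m μ c c' o c τ' ≤ S2 r m μ c c' o c' τ'
    rw [← S2_off m o hμ c c' c τ τ' h, ← S2_off m o hμ c c' c' τ τ' h]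
    exact k
  have o2 : OffS (near c m) Oᶜ := fun τ τ' h k => by
    show ¬S2 r m μ c c' o c τ' ≤ S2 r m μ c c' o c' τ'
    rw [S2_comm, S2_comm m o c c' c', ← S2_off m o hμ c' c c τ τ' h,
      ← S2_off m o hμ c' c c' τ τ' h, S2_comm, S2_comm m o c' c c']
    exact k
  have e1 := half p m o a hμ hZ hfar f2 mO o1
  have e2 := half p m o a hμ hZ hfar' f1 mO.compl o2
  have m1 := ((measurableSet_lt (S2_meas m o hμ c c' c) (measurable_const (a := a c))).inter
    mO).inter ((Ac_meas m o a hμ c').inter hZ)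
  have m2 := ((measurableSet_lt (S2_meas m o hμ c' c c') (measurable_const (a := a c'))).inter
    mO.compl).inter ((Ac_meas m o a hμ c).inter hZ)
  have e3 := integral_add ((((Nice.ind m1).mul (et_nice p r m c)).mul (et_nice p r m c')).int p.P)
    ((((Nice.ind m2).mul (et_nice p r m c')).mul (et_nice p r m c)).int p.P)
  rw [e1, e2, add_zero] at e3
  rw [← e3]
  refine integral_congr_ae (hae.mono fun τ hτ => ?_)
  have hl : ∀ e, r ≤ μ τ e := fun e => hμ.low τ e (hτ e)
  simp only [xi]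
  by_cases h : τ ∈ O
  · have q : T (sb r m c (μ τ)) o c = S2 r m μ c c' o c τ := hO r m (μ τ) o c c' hr hl hfar h
    rw [Set.indicator_of_notMem (s := _ ∩ Oᶜ ∩ _) fun k => k.1.2 h]
    by_cases h1 : τ ∈ Ac r m μ o a c ∩ Z
    · by_cases h2 : τ ∈ Ac r m μ o a c' ∩ Z
      · rw [Set.indicator_of_mem h1, Set.indicator_of_mem h2,
          Set.indicator_of_mem (s := _ ∩ O ∩ _) ⟨⟨q.ge.trans_lt h1.1, h⟩, h2⟩]
        ring
      · rw [Set.indicator_of_notMem h2, Set.indicator_of_notMem (s := _ ∩ O ∩ _) fun k => h2 k.2]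
        ring
    · rw [Set.indicator_of_notMem h1, Set.indicator_of_notMem (s := _ ∩ O ∩ _)
        fun k => h1 ⟨q.trans_lt k.1.1, k.2.2⟩]
      ring
  · have h' : S2 r m μ c' c o c' τ ≤ S2 r m μ c' c o c τ := by
      rw [S2_comm, S2_comm m o c' c c]
      exact (not_le.1 h).le
    have q : T (sb r m c' (μ τ)) o c' = S2 r m μ c' c o c' τ :=
      hO r m (μ τ) o c' c hr hl hfar' h'
    rw [Set.indicator_of_notMem (s := _ ∩ O ∩ _) fun k => h k.1.2]
    by_cases h2 : τ ∈ Ac r m μ o a c' ∩ Z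
    · by_cases h1 : τ ∈ Ac r m μ o a c ∩ Z
      · rw [Set.indicator_of_mem h1, Set.indicator_of_mem h2,
          Set.indicator_of_mem (s := _ ∩ Oᶜ ∩ _) ⟨⟨q.ge.trans_lt h2.1, h⟩, h1⟩]
        ring
      · rw [Set.indicator_of_notMem h1, Set.indicator_of_notMem (s := _ ∩ Oᶜ ∩ _) fun k => h1 k.2]
        ring
    · rw [Set.indicator_of_notMem h2, Set.indicator_of_notMem (s := _ ∩ Oᶜ ∩ _)
        fun k => h2 ⟨q.trans_lt k.1.1, k.2.2⟩]
      ring

/-- the second moment of the sum of the increments -/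
lemma sq_le (hO : St_ORTH) (hr : 0 < r) (hae : ∀ᵐ τ ∂p.P, ∀ e, r ≤ τ e) (hμ : Good r μ)
    (hZ : MeasurableSet Z) (I : Finset V) {π : ℝ}
    (hI : ∀ c ∈ I, OffS (near c m) Z ∧ p.pr (Ac r m μ o a c ∩ Z) ≤ π) :
    ∫ τ, (∑ c ∈ I, xi p r m μ Z o a c τ) * (∑ c ∈ I, xi p r m μ Z o a c τ) ∂p.P ≤
      (4 * (m : ℝ) + 1) ^ 2 * π * I.card := by
  classical
  have nx : ∀ c, Nice fun τ => xi p r m μ Z o a c τ := fun c => xi_nice p m o a hμ hZ c
  simp only [sum_mul_sum]
  rw [integral_finsetSum _ fun i _ => (FP95.Nice.sum I fun j _ => (nx i).mul (nx j)).int _,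
    mul_comm, ← nsmul_eq_mul]
  refine sum_le_card_nsmul _ _ _ fun i hi => ?_
  have hπ : 0 ≤ π := (p.pr_nonneg _).trans (hI i hi).2
  rw [integral_finsetSum _ fun j _ => ((nx i).mul (nx j)).int _,
    ← sum_filter_of_ne (p := fun j => n1 (j - i) ≤ 2 * (m : ℝ)) fun j hj hne => ?_]
  · refine (sum_le_card_nsmul _ _ π fun j _ =>
      (xi_near p m o a hμ hZ i j).trans (hI i hi).2).trans ?_
    rw [nsmul_eq_mul]
    refine mul_le_mul_of_nonneg_right ?_ hπ
    refine (SL94.card_near _ i (t := 2 * m) (by positivity) fun w hw => (mem_filter.1 hw).2).trans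
      (le_of_eq ?_)
    ring
  · by_contra hc
    exact hne (xi_far p m o a hO hr hae hμ hZ (by rw [← n1_neg', neg_sub]; exact not_le.1 hc)
      (hI i hi).1 (hI j hj).1)

end MB

end Pool.Agent.Lib.SO4
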